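import Pool.Agent.P8H97.GW.Stm

/-!
# Project GW (MP_323ce2_nt): statements for the stronger form (bounds for infinitely many `K` only)
-/

set_option autoImplicit false

open MeasureTheory Filter Topology Set

namespace Pool.Agent.P8H97.GW

/-- The bound on the geometric windows for infinitely many `K` only. -/
def WinF (α δ : ℝ) : Prop := ∃ C : ℝ, ∃ᶠ K : ℕ in atTop,
  ∑ k ∈ Finset.range K, ∫ v in (k / α)..(k / α + δ), ff v ≤ C * K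

/-- LOW2: `S_LOW` with the distance in the complex plane. -/
def S_LOW2 : Prop := ∃ K : ℝ, 0 < K ∧ (RiemannHypothesis → ∀ t σ d : ℝ, 1 / 2 < σ → σ < 1 →
  0 < d → d ≤ 1 → (∀ γ ∈ Ord, d ≤ ‖(⟨σ, t⟩ : ℂ) - ⟨1 / 2, γ⟩‖) →
  ‖GG (⟨σ, t⟩ : ℂ)‖ ≤ Real.exp (K * Real.log (|t| + 3) * (1 + Real.log (1 / d))))

/-- RHW2: the bound on the windows for infinitely many `K` implies the Riemann hypothesis. -/
def S_RHW2 : Prop := ∀ α δ : ℝ, 0 < α → 0 < δ → WinF α δ → RiemannHypothesis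

/-- GEV: a bump with rapidly decreasing Fourier transform. -/
def S_GEV : Prop := ∃ χ : ℝ → ℝ, Continuous χ ∧ (∀ x, 0 ≤ χ x) ∧ (∀ x, χ x ≤ 1) ∧
  (∀ x, χ x ≠ 0 → 0 < x ∧ x < 1) ∧ (∀ x, 0 < x → x < 1 → 0 < χ x) ∧
  ∃ C c : ℝ, 0 < c ∧ ∀ y : ℝ,
    ‖∫ x : ℝ, ((χ x : ℝ) : ℂ) * Complex.exp (-(y * x * Complex.I))‖ ≤
      C * Real.exp (-(c * |y| ^ (1 / 2 : ℝ)))

end Pool.Agent.P8H97.GW
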