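import Pool.Agent.P8H97.GW.N5
import Pool.Agent.P8H52.GW.Rhw
import Pool.Agent.Results.MP_323ce2_nt.ZeroSumCriterion

/-!
# Project GW: the final assembly
-/

set_option autoImplicit false

open MeasureTheory Filter Topology Set

namespace Pool.Agent.P8H97.GW

open Pool.Agent.Results.MP_323ce2_nt.ZeroSumCriterion (msq ZerosCondition)

theorem zc_iff : ZC ↔ ∃ C : ℝ, ∀ x : ℝ, 2 ≤ x → msq 1 x ≤ C * Real.log x :=
  Pool.Agent.Results.MP_323ce2_nt.ZeroSumCriterion.result.1.symm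

theorem msq_exp {A B : ℝ} (h : A ≤ B) : msq (Real.exp A) (Real.exp B) = ∫ v in A..B, ff v := by
  have h1 := Pool.Agent.P8H52.GW.cov_exp (fun u => (Mx u / u) ^ 2) h
  refine h1.trans ?_
  congr 1
  funext v
  unfold ff
  rw [div_pow, Real.exp_neg]
  have := Real.exp_pos v
  field_simp

/-- The sums over the windows. -/
theorem win_eq {a b : ℝ} (ha : 1 < a) (hb : 1 < b) (k : ℕ) :
    msq (a ^ k) (b * a ^ k) = ∫ v in ((k : ℝ) / (1 / Real.log a))..((k : ℝ) / (1 / Real.log a) +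
      Real.log b), ff v := by
  have hla : 0 < Real.log a := Real.log_pos ha
  have hlb : 0 < Real.log b := Real.log_pos hb
  have e1 : (k : ℝ) / (1 / Real.log a) = k * Real.log a := by field_simp
  have e2 : Real.exp (k * Real.log a) = a ^ k := by
    rw [Real.exp_nat_mul, Real.exp_log (by linarith)]
  rw [← msq_exp (by linarith), e1, Real.exp_add, e2, Real.exp_log (by linarith), mul_comm]

theorem exc_dim {E₀ : Set ℝ} (h : dimH E₀ = 0) :
    dimH ((fun α : ℝ => Real.exp (1 / α)) '' (E₀ ∩ Ioi 0)) = 0 := by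
  have h1 : ContDiffOn ℝ 1 (fun α : ℝ => Real.exp (1 / α)) (Ioi 0) := by
    refine ContDiffOn.exp ?_
    refine contDiffOn_const.div contDiffOn_id fun x hx => ?_
    exact (ne_of_gt hx)
  have h2 := h1.dimH_image_le (convex_Ioi 0) (t := E₀ ∩ Ioi 0) inter_subset_right
  have h3 : dimH (E₀ ∩ Ioi 0) ≤ dimH E₀ := dimH_mono inter_subset_left
  rw [h] at h3
  exact le_antisymm (h2.trans h3) (by simp)

theorem final (hGen : S_GEN) (hMain : S_MAIN2) (hLim : S_LIM) :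
    ∃ E : Set ℝ, dimH E = 0 ∧ ∀ a b : ℝ, 1 < a → a ∉ E → 1 < b → b ≤ a →
      ((∃ C : ℝ, ∀ x : ℝ, 2 ≤ x → msq 1 x ≤ C * Real.log x) ↔
        ∃ C : ℝ, ∀ K : ℕ, 1 ≤ K → ∑ k ∈ Finset.range K, msq (a ^ k) (b * a ^ k) ≤ C * K) ∧
      ((∃ C : ℝ, ∀ x : ℝ, 2 ≤ x → msq 1 x ≤ C * Real.log x) →
        Tendsto (fun K : ℕ => (∑ k ∈ Finset.range K, msq (a ^ k) (b * a ^ k)) / K) atTop
          (𝓝 (Real.log b * ∑' ρ : NT, 1 / ‖(ρ : ℂ) * deriv riemannZeta ρ‖ ^ 2))) ∧
      (¬ (∃ C : ℝ, ∀ x : ℝ, 2 ≤ x → msq 1 x ≤ C * Real.log x) →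
        Tendsto (fun K : ℕ => (∑ k ∈ Finset.range K, msq (a ^ k) (b * a ^ k)) / K) atTop
          atTop) := by
  obtain ⟨E₀, hE₀, hE₁⟩ := hGen
  refine ⟨_, exc_dim hE₀, fun a b ha haE hb hba => ?_⟩
  have hla : 0 < Real.log a := Real.log_pos ha
  have hlb : 0 < Real.log b := Real.log_pos hb
  set α : ℝ := 1 / Real.log a with hα
  have hα0 : 0 < α := by positivity
  have hαE : α ∉ E₀ := by
    intro h
    apply haE
    refine ⟨α, ⟨h, hα0⟩, ?_⟩
    simp only
    rw [hα, one_div_one_div, Real.exp_log (by linarith)]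
  have hG : Gen α := hE₁ α hα0 hαE
  have hδ1 : Real.log b ≤ 1 / α := by
    rw [hα, one_div_one_div]
    exact Real.log_le_log (by linarith) hba
  simp_rw [win_eq ha hb]
  rw [← zc_iff, ← hα]
  have hlim : ZC → Tendsto (fun K : ℕ => (∑ k ∈ Finset.range K,
      ∫ v in ((k : ℝ) / α)..((k : ℝ) / α + Real.log b), ff v) / K) atTop
      (𝓝 (Real.log b * ∑' ρ : NT, 1 / ‖(ρ : ℂ) * deriv riemannZeta ρ‖ ^ 2)) := by
    intro hZ
    refine hLim hZ α (Real.log b) hα0 hlb hδ1 fun g hg g' hg' m hm h => ?_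
    obtain ⟨c, hc, hc2⟩ := hG g hg
    have h5 := hc2 g' hg' m hm
    have h6 : g - g' - 2 * Real.pi * m * α = 0 := by linarith
    rw [h6, abs_zero] at h5
    have h7 : 0 < c * Real.exp (-q4 m) := by positivity
    linarith
  have hmain : WinF α (Real.log b) → ZC := hMain α (Real.log b) hα0 hlb hδ1 hG
  refine ⟨⟨fun hZ => ?_, fun hW => ?_⟩, hlim, fun hZ => ?_⟩
  · obtain ⟨C, hC⟩ := (hlim hZ).bddAbove_range
    refine ⟨C, fun K hK => ?_⟩
    have hK0 : (0 : ℝ) < K := by exact_mod_cast hK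
    have := hC ⟨K, rfl⟩
    simp only at this
    rwa [div_le_iff₀ hK0] at this
  · obtain ⟨C, hC⟩ := hW
    exact hmain ⟨C, ((eventually_ge_atTop 1).mono hC).frequently⟩
  · by_contra hnt
    apply hZ
    apply hmain
    rw [tendsto_atTop] at hnt
    push Not at hnt
    obtain ⟨C, hC⟩ := hnt
    refine ⟨C, (hC.and_eventually (eventually_ge_atTop 1)).mono fun K hK => ?_⟩
    have hK0 : (0 : ℝ) < K := by exact_mod_cast hK.2
    have := hK.1
    rw [div_lt_iff₀ hK0] at this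
    exact this.le

end Pool.Agent.P8H97.GW
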