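import Pool.Agent.P8H97.GW.Stm2

/-!
# Project GW (MP_323ce2_nt): statements for arbitrary geometric progressions `c a ^ k`, `s = log c`
-/

set_option autoImplicit false

open MeasureTheory Filter Topology Set

namespace Pool.Agent.P8H97.GW

/-- The sums over the windows `[k / α + s, k / α + s + δ]`. -/
noncomputable def WS (α δ s : ℝ) (K : ℕ) : ℝ :=
  ∑ k ∈ Finset.range K, ∫ v in (k / α + s)..(k / α + s + δ), ff v

/-- RHW3: the bound on the windows for infinitely many `K` implies the Riemann hypothesis. -/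
def S_RHW3 : Prop := ∀ α δ s : ℝ, 0 < α → 0 < δ → 0 ≤ s →
  (∃ C : ℝ, ∃ᶠ K : ℕ in atTop, WS α δ s K ≤ C * K) → RiemannHypothesis

/-- LIM3: the limit under the weak Mertens hypothesis. -/
def S_LIM3 : Prop := ZC → ∀ α δ s : ℝ, 0 < α → 0 < δ → δ ≤ 1 / α → 0 ≤ s →
  (∀ γ ∈ Ord, ∀ γ' ∈ Ord, ∀ m : ℤ, m ≠ 0 → γ - γ' ≠ 2 * Real.pi * m * α) →
  Tendsto (fun K : ℕ => WS α δ s K / K) atTop
    (𝓝 (δ * ∑' ρ : NT, 1 / ‖(ρ : ℂ) * deriv riemannZeta ρ‖ ^ 2))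

end Pool.Agent.P8H97.GW
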