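import Pool.Agent.P8H97.GW.N5
import Pool.Agent.P8H97.GW.Stm3

/-!
# Project GW: arbitrary geometric progressions
-/

set_option autoImplicit false

open MeasureTheory Filter Topology Set Complex FourierTransform

namespace Pool.Agent.P8H97.GW

/-- The core: a bound for infinitely many `K` implies the condition on the zeros. -/
theorem core (hL : S_LAP) (hLow : S_LOW2) (hRH : RiemannHypothesis) {α : ℝ} (hα : 0 < α)
    (hG : Gen α) {a : ℤ → ℂ} {w χ : ℝ → ℝ} {Fh : ℝ → ℂ} (hwc : Continuous w)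
    (h0 : ∀ v, 0 ≤ w v) (h1 : ∀ v, w v ≤ 1)
    (hw : ∀ v : ℝ, HasSum (fun m : ℤ => a m * cexp (2 * Real.pi * m * α * v * I)) ((w v : ℝ) : ℂ))
    {a₀ : ℝ} (ha₀ : 0 < a₀) (haa : a 0 = (a₀ : ℂ))
    (ha : ∀ K : ℝ, Summable (fun m : ℤ => ‖a m‖ * Real.exp (K * |(m : ℝ)| ^ (1 / 3 : ℝ))))
    (hC : Cut χ Fh) {C' : ℝ} (hC0 : 0 ≤ C')
    (hfreq2 : ∃ᶠ K : ℕ in atTop, 2 < (K : ℝ) / α ∧
      IntegrableOn (fun v => ff v * ((w v * χ (v / (K / α))) * Real.exp (-(v / (K / α))))) (Ioi 0) ∧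
      ∫ v in Ioi (0 : ℝ), ff v * ((w v * χ (v / (K / α))) * Real.exp (-(v / (K / α)))) ≤
        C' * (K / α)) : ZC := by
  have ha' : Summable (fun m => ‖a m‖) := by
    have := ha 0
    simpa using this
  have ha0 : a 0 ≠ 0 := by
    rw [haa]
    exact_mod_cast ha₀.ne'
  have htend : Tendsto (fun K : ℕ => (K : ℝ) / α) atTop atTop :=
    tendsto_natCast_atTop_atTop.atTop_div_const hα
  -- the orders of the zeros
  have hY : ∀ g ∈ Ord, deriv riemannZeta (⟨1 / 2, g⟩ : ℂ) ≠ 0 ∧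
      Tendsto (fun V : ℝ => Y2 w χ V g / V) atTop
        (𝓝 (a 0 * ((⟨1 / 2, g⟩ : ℂ) * deriv riemannZeta ⟨1 / 2, g⟩)⁻¹ * (JJ χ 1 : ℝ))) := by
    intro g hg
    obtain ⟨n, k, hn, hkc, hk0, hev, hn1⟩ := factor hRH hg
    have hlim := Y2_tendsto hC hL hLow hRH hwc h0 h1 hw ha hG hg hn hkc hk0 hev
    have hn2 : n = 1 := by
      by_contra hne
      have hn2 : 2 ≤ n := by omega
      have h2 : Tendsto (fun V : ℝ => ‖Y2 w χ V g / V ^ n‖ - Real.sqrt C' * V⁻¹) atTop
          (𝓝 (‖a 0 * (k ⟨1 / 2, g⟩)⁻¹ * (JJ χ n : ℝ)‖ - Real.sqrt C' * 0)) :=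
        hlim.norm.sub (tendsto_inv_atTop_zero.const_mul _)
      have h3 := le_of_tendsto_of_frequently (h2.comp htend) (b := 0)
        (hfreq2.mono fun K hK => by
          obtain ⟨k1, k2, k3⟩ := hK
          rw [Function.comp_apply]
          set V : ℝ := (K : ℝ) / α with hV
          have hV0 : 0 < V := by linarith
          have h4 := Y2_le hC hwc h0 h1 hV0 k2 k3 (by positivity) g
          have h5 : C' * V * V = (Real.sqrt C' * V) ^ 2 := by
            rw [mul_pow, Real.sq_sqrt (by positivity)]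
            ring
          rw [h5] at h4
          have h6 := (sq_le_sq₀ (norm_nonneg _) (by positivity)).1 h4
          rw [norm_div, norm_pow, Complex.norm_real, Real.norm_eq_abs, abs_of_pos hV0,
            sub_nonpos, div_le_iff₀ (by positivity)]
          refine h6.trans ?_
          have h7 : V ^ 2 ≤ V ^ n := pow_le_pow_right₀ (by linarith) hn2
          have h8 : V = V⁻¹ * V ^ 2 := by
            field_simp
          calc Real.sqrt C' * V = Real.sqrt C' * (V⁻¹ * V ^ 2) := by rw [← h8]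
            _ ≤ Real.sqrt C' * (V⁻¹ * V ^ n) := by gcongr
            _ = _ := by ring)
      rw [mul_zero, sub_zero] at h3
      have h4 : a 0 * (k ⟨1 / 2, g⟩)⁻¹ * (JJ χ n : ℝ) ≠ 0 := by
        refine mul_ne_zero (mul_ne_zero ha0 (inv_ne_zero hk0)) ?_
        exact_mod_cast (JJ_pos hC n).ne'
      exact h4 (norm_le_zero_iff.1 h3)
    subst hn2
    have hk1 := hn1 rfl
    refine ⟨fun hd => hk0 (by rw [hk1, hd, mul_zero]), ?_⟩
    rw [hk1] at hlim
    simpa only [pow_one] using hlim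
  refine ⟨fun ρ hρ => ⟨nt_re hRH hρ, ?_⟩, ?_⟩
  · rw [nt_eq hRH hρ]
    exact (hY _ (nt_ord hRH hρ)).1
  · have hJ := JJ_pos hC 1
    refine summable_of_sum_le (c := C' / (a₀ * JJ χ 1)) (fun ρ => by positivity) fun Z => ?_
    have hinj : Set.InjOn (fun ρ : NT => (ρ : ℂ).im) (Z : Set NT) := by
      intro x _ y _ hxy
      apply Subtype.ext
      rw [nt_eq hRH x.2, nt_eq hRH y.2]
      simp only at hxy
      rw [hxy]
    set Z' : Finset ℝ := Z.image fun ρ : NT => (ρ : ℂ).im with hZ'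
    have hZO : ∀ g ∈ Z', g ∈ Ord := by
      intro g hg
      obtain ⟨ρ, _, rfl⟩ := Finset.mem_image.1 hg
      exact nt_ord hRH ρ.2
    set c : ℝ → ℂ := fun g => ((⟨1 / 2, g⟩ : ℂ) * deriv riemannZeta ⟨1 / 2, g⟩)⁻¹ with hc
    set S : ℝ := ∑ g ∈ Z', ‖c g‖ ^ 2 with hS
    have hS0 : 0 ≤ S := Finset.sum_nonneg fun g _ => sq_nonneg _
    have hGen0 : ∀ g ∈ Ord, ∀ g' ∈ Ord, ∀ m : ℤ, m ≠ 0 →
        g - g' + 2 * Real.pi * m * α ≠ 0 := by
      intro g hg g' hg' m hm h
      obtain ⟨c, hc, hc2⟩ := hG g hg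
      have h5 := hc2 g' hg' (-m) (neg_ne_zero.2 hm)
      have h6 : g - g' - 2 * Real.pi * ((-m : ℤ) : ℝ) * α = 0 := by
        push_cast
        linarith
      rw [h6, abs_zero] at h5
      have h7 : 0 < c * Real.exp (-q4 (-m)) := by positivity
      linarith
    -- the limits
    have hAt : Tendsto (fun V : ℝ => ‖(∑ g ∈ Z', (starRingEnd ℂ) (c g) * Y2 w χ V g) / V‖ ^ 2)
        atTop (𝓝 ((a₀ * JJ χ 1 * S) ^ 2)) := by
      have h2 : Tendsto (fun V : ℝ => ∑ g ∈ Z', (starRingEnd ℂ) (c g) * (Y2 w χ V g / V)) atTop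
          (𝓝 (∑ g ∈ Z', (starRingEnd ℂ) (c g) * (a 0 * c g * (JJ χ 1 : ℝ)))) :=
        tendsto_finsetSum _ fun g hg => (hY g (hZO g hg)).2.const_mul _
      have e2 : ∑ g ∈ Z', (starRingEnd ℂ) (c g) * (a 0 * c g * (JJ χ 1 : ℝ)) =
          ((a₀ * JJ χ 1 * S : ℝ) : ℂ) := by
        rw [hS]
        push_cast
        rw [Finset.mul_sum]
        refine Finset.sum_congr rfl fun g _ => ?_
        rw [haa, ← Complex.conj_mul']
        ring
      rw [e2] at h2
      have h3 := (h2.norm).pow 2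
      rw [Complex.norm_real, Real.norm_eq_abs, sq_abs] at h3
      refine h3.congr fun V => ?_
      congr 2
      rw [Finset.sum_div]
      refine Finset.sum_congr rfl fun g _ => ?_
      ring
    have hBt : Tendsto (fun V : ℝ => (∑ g ∈ Z', ∑ g' ∈ Z', (starRingEnd ℂ) (c g) * c g' *
        (X2 w χ V (g' - g) / V)).re) atTop (𝓝 (a₀ * JJ χ 1 * S)) := by
      have h2 : Tendsto (fun V : ℝ => ∑ g ∈ Z', ∑ g' ∈ Z', (starRingEnd ℂ) (c g) * c g' *
          (X2 w χ V (g' - g) / V)) atTop (𝓝 (∑ g ∈ Z', ∑ g' ∈ Z', (starRingEnd ℂ) (c g) * c g' *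
            ((if g' - g = 0 then a 0 else 0) * (JJ χ 1 : ℝ)))) := by
        refine tendsto_finsetSum _ fun g hg => tendsto_finsetSum _ fun g' hg' => ?_
        exact (X2_tendsto hC hwc h0 h1 hw ha'
          (hGen0 g' (hZO g' hg') g (hZO g hg))).const_mul _
      have e2 : ∑ g ∈ Z', ∑ g' ∈ Z', (starRingEnd ℂ) (c g) * c g' *
            ((if g' - g = 0 then a 0 else 0) * (JJ χ 1 : ℝ)) = ((a₀ * JJ χ 1 * S : ℝ) : ℂ) := by
        rw [hS]
        push_cast
        rw [Finset.mul_sum]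
        refine Finset.sum_congr rfl fun g hg => ?_
        rw [Finset.sum_eq_single g]
        · rw [sub_self, if_pos rfl, haa, ← Complex.conj_mul']
          ring
        · intro g' _ hne
          rw [if_neg (sub_ne_zero.2 hne), zero_mul, mul_zero]
        · intro h
          exact absurd hg h
      rw [e2] at h2
      have h3 := (Complex.continuous_re.tendsto _).comp h2
      rw [Complex.ofReal_re] at h3
      exact h3
    have hfin : (a₀ * JJ χ 1 * S) ^ 2 - C' * (a₀ * JJ χ 1 * S) ≤ 0 := by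
      refine le_of_tendsto_of_frequently ((hAt.sub (hBt.const_mul C')).comp htend)
        (hfreq2.mono fun K hK => ?_)
      obtain ⟨k1, k2, k3⟩ := hK
      rw [Function.comp_apply]
      set V : ℝ := (K : ℝ) / α with hV
      have hV0 : 0 < V := by linarith
      obtain ⟨R, hR1, hR0, hR2⟩ := one_V hC hL hRH hwc h0 h1 Z' c k1 k2 k3
      have e6 : ∑ g ∈ Z', ∑ g' ∈ Z', (starRingEnd ℂ) (c g) * c g' * (X2 w χ V (g' - g) / V) =
          ((R / V : ℝ) : ℂ) := by
        rw [Complex.ofReal_div R V, hR1, Finset.sum_div]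
        refine Finset.sum_congr rfl fun g _ => ?_
        rw [Finset.sum_div]
        refine Finset.sum_congr rfl fun g' _ => ?_
        ring
      rw [e6, Complex.ofReal_re, norm_div, div_pow, Complex.norm_real, Real.norm_eq_abs, sq_abs,
        sub_nonpos, div_le_iff₀ (by positivity)]
      refine hR2.trans (le_of_eq ?_)
      field_simp
    have hSle : S ≤ C' / (a₀ * JJ χ 1) := by
      rw [le_div_iff₀ (by positivity)]
      rcases hS0.eq_or_lt with h | h
      · rw [← h]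
        rw [zero_mul]
        positivity
      · have h5 : 0 < a₀ * JJ χ 1 * S := by positivity
        have h6 : a₀ * JJ χ 1 * S ≤ C' := by
          by_contra hcon
          have := not_le.1 hcon
          nlinarith
        linarith
    rw [hS, hZ', Finset.sum_image hinj] at hSle
    refine le_trans (le_of_eq ?_) hSle
    refine Finset.sum_congr rfl fun ρ _ => ?_
    rw [hc]
    simp only
    rw [← nt_eq hRH ρ.2, norm_inv, inv_pow, one_div]


section shift

variable {α δ s : ℝ} {w χ : ℝ → ℝ} {Fh : ℝ → ℂ}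

/-- One window. -/
theorem one_window_s (hα : 0 < α) (hδ : 0 < δ) (hδ1 : δ ≤ 1 / α) (hs0 : 0 ≤ s)
    (hw : Continuous w) (h0 : ∀ v, 0 ≤ w v) (h1 : ∀ v, w v ≤ 1)
    (hs : ∀ v, w v ≠ 0 → ∃ k : ℤ, k / α + s < v ∧ v < k / α + s + δ) {V : ℝ} (hV : 0 < V)
    (k : ℕ) : ∫ v in ((k : ℝ) / α + s)..(((k + 1 : ℕ) : ℝ) / α + s),
      ff v * (w v * Real.exp (-(v / V))) ≤
      ∫ v in ((k : ℝ) / α + s)..((k : ℝ) / α + s + δ), ff v := by
  have hk0 : (0 : ℝ) ≤ (k : ℝ) / α := by positivity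
  have hcast : (((k + 1 : ℕ) : ℝ)) / α + s = k / α + s + 1 / α := by push_cast; ring
  have hint : ∀ a b : ℝ, IntervalIntegrable (fun v => ff v * (w v * Real.exp (-(v / V))))
      volume a b := by
    intro a b
    have hc : Continuous (fun v => w v * Real.exp (-(v / V))) := by fun_prop
    exact (ff_int a b).mul_continuousOn hc.continuousOn
  rw [hcast, ← intervalIntegral.integral_add_adjacent_intervals (b := (k : ℝ) / α + s + δ)
    (hint _ _) (hint _ _)]
  have hz : ∫ v in ((k : ℝ) / α + s + δ)..((k : ℝ) / α + s + 1 / α),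
      ff v * (w v * Real.exp (-(v / V))) = 0 := by
    rw [intervalIntegral.integral_of_le (by linarith), ← integral_zero ℝ ℝ]
    rw [integral_Ioc_eq_integral_Ioo]
    refine setIntegral_congr_fun measurableSet_Ioo fun v hv => ?_
    by_cases hwv : w v = 0
    · simp [hwv]
    · exfalso
      obtain ⟨j, hj1, hj2⟩ := hs v hwv
      have e1 : ((j : ℝ)) / α < ((k : ℝ) + 1) / α := by
        rw [add_div]
        linarith [hv.2]
      have e2 : ((k : ℝ)) / α < ((j : ℝ) ) / α := by linarith [hv.1]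
      have e3 : (j : ℝ) < (k : ℝ) + 1 := (div_lt_div_iff_of_pos_right hα).1 e1
      have e4 : (k : ℝ) < j := (div_lt_div_iff_of_pos_right hα).1 e2
      have e5 : j < (k : ℤ) + 1 := by exact_mod_cast e3
      have e6 : (k : ℤ) < j := by exact_mod_cast e4
      omega
  rw [hz, add_zero]
  refine intervalIntegral.integral_mono_on (by linarith) (hint _ _)
    (ff_int _ _) fun v hv => ?_
  have hv0 : 0 ≤ v / V := div_nonneg (by linarith [hv.1]) hV.le
  have h3 : Real.exp (-(v / V)) ≤ 1 := by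
    rw [Real.exp_le_one_iff]
    linarith
  have h2 : w v * Real.exp (-(v / V)) ≤ 1 := by
    calc w v * Real.exp (-(v / V)) ≤ 1 * 1 :=
          mul_le_mul (h1 v) h3 (Real.exp_pos _).le zero_le_one
      _ = 1 := one_mul 1
  calc ff v * (w v * Real.exp (-(v / V))) ≤ ff v * 1 :=
        mul_le_mul_of_nonneg_left h2 (ff_nonneg v)
    _ = _ := mul_one _

/-- The upper bound for one `K`. -/
theorem upper_s (hC : Cut χ Fh) (hα : 0 < α) (hδ : 0 < δ) (hδ1 : δ ≤ 1 / α) (hs0 : 0 ≤ s)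
    (hw : Continuous w) (h0 : ∀ v, 0 ≤ w v) (h1 : ∀ v, w v ≤ 1)
    (hs : ∀ v, w v ≠ 0 → ∃ k : ℤ, k / α + s < v ∧ v < k / α + s + δ) {K : ℕ} (hK : 1 ≤ K) :
    IntegrableOn (fun v => ff v * ((w v * χ (v / (K / α))) * Real.exp (-(v / (K / α))))) (Ioi 0) ∧
      ∫ v in Ioi (0 : ℝ), ff v * ((w v * χ (v / (K / α))) * Real.exp (-(v / (K / α)))) ≤
        (∫ v in (0 : ℝ)..s, ff v) + WS α δ s K := by
  have hK0 : (0 : ℝ) < K := by exact_mod_cast hK
  set V : ℝ := K / α with hVdef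
  have hV : 0 < V := by positivity
  set w' : ℝ → ℝ := fun v => w v * χ (v / V) with hw'
  have hc' : Continuous w' := hw.mul (hC.cont.comp (by fun_prop))
  have h0' : ∀ v, 0 ≤ w' v := fun v => mul_nonneg (h0 v) (hC.nn _)
  have h1' : ∀ v, w' v ≤ 1 := fun v => by
    calc w v * χ (v / V) ≤ 1 * 1 := mul_le_mul (h1 v) (hC.le1 _) (hC.nn _) zero_le_one
      _ = 1 := one_mul 1
  have hs' : ∀ v, w' v ≠ 0 → ∃ k : ℤ, k / α + s < v ∧ v < k / α + s + δ := fun v hv =>
    hs v (left_ne_zero_of_mul hv)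
  set F : ℝ → ℝ := fun v => ff v * (w' v * Real.exp (-(v / V))) with hF
  have hF0 : ∀ v, 0 ≤ F v := fun v =>
    mul_nonneg (ff_nonneg v) (mul_nonneg (h0' v) (Real.exp_pos _).le)
  have hint : ∀ x y : ℝ, IntervalIntegrable F volume x y := by
    intro x y
    have hc : Continuous (fun v => w' v * Real.exp (-(v / V))) := by fun_prop
    exact (ff_int x y).mul_continuousOn hc.continuousOn
  have hz : ∀ v ∈ Ioi (0 : ℝ) \ Ioc 0 (V + s), F v = 0 := by
    intro v hv
    have hv1 : V < v := by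
      by_contra hcon
      exact hv.2 ⟨hv.1, by linarith [not_lt.1 hcon]⟩
    have hχ : χ (v / V) = 0 := by
      by_contra hne
      have := (hC.supp _ hne).2
      rw [div_lt_one hV] at this
      linarith
    simp [hF, hw', hχ]
  have hI : IntegrableOn F (Ioc 0 (V + s)) := (hint 0 (V + s)).1
  refine ⟨hI.of_forall_sdiff_eq_zero measurableSet_Ioi hz, ?_⟩
  have e0 : ∫ v in Ioi (0 : ℝ), F v = ∫ v in Ioc 0 (V + s), F v :=
    setIntegral_eq_of_subset_of_forall_sdiff_eq_zero measurableSet_Ioi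
      (fun v hv => hv.1) hz
  have e1 : ∫ v in s..(V + s), F v = ∑ k ∈ Finset.range K,
      ∫ v in ((k : ℝ) / α + s)..(((k + 1 : ℕ) : ℝ) / α + s), F v := by
    have := intervalIntegral.sum_integral_adjacent_intervals
      (a := fun k : ℕ => (k : ℝ) / α + s) (f := F) (μ := volume) (n := K)
      (fun k _ => hint _ _)
    simp only [Nat.cast_zero, zero_div, zero_add] at this
    exact this.symm
  rw [e0, ← intervalIntegral.integral_of_le (by linarith),
    ← intervalIntegral.integral_add_adjacent_intervals (hint 0 s) (hint s (V + s)), e1]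
  refine add_le_add ?_ (Finset.sum_le_sum fun k _ =>
    one_window_s hα hδ hδ1 hs0 hc' h0' h1' hs' hV k)
  refine intervalIntegral.integral_mono_on hs0 (hint _ _) (ff_int _ _) fun v hv => ?_
  have hv0 : 0 ≤ v / V := div_nonneg hv.1 hV.le
  have h3 : Real.exp (-(v / V)) ≤ 1 := by
    rw [Real.exp_le_one_iff]
    linarith
  have h2 : w' v * Real.exp (-(v / V)) ≤ 1 := by
    calc w' v * Real.exp (-(v / V)) ≤ 1 * 1 :=
          mul_le_mul (h1' v) h3 (Real.exp_pos _).le zero_le_one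
      _ = 1 := one_mul 1
  calc F v = ff v * (w' v * Real.exp (-(v / V))) := rfl
    _ ≤ ff v * 1 := mul_le_mul_of_nonneg_left h2 (ff_nonneg v)
    _ = _ := mul_one _

end shift

/-- MAIN3: arbitrary geometric progressions. -/
def S_MAIN3 : Prop := ∀ α δ s : ℝ, 0 < α → 0 < δ → δ ≤ 1 / α → 0 ≤ s → Gen α →
  (∃ C : ℝ, ∃ᶠ K : ℕ in atTop, WS α δ s K ≤ C * K) → ZC

theorem main3 (hL : S_LAP) (hLow : S_LOW2) (hB : S_BMP) (hR : S_RHW3) (hGev : S_GEV) :
    S_MAIN3 := by
  intro α δ s hα hδ hδ1 hs0 hG hW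
  have hRH : RiemannHypothesis := hR α δ s hα hδ hs0 hW
  obtain ⟨a, w, hwc, h0, h1, hs, hw, ⟨a₀, ha₀, haa⟩, ha⟩ := hB α δ hα hδ hδ1
  obtain ⟨χ, Fh, hC⟩ := cut_of_gev hGev
  obtain ⟨C, hfreq⟩ := hW
  have hC₁ : 0 ≤ ∫ v in (0 : ℝ)..s, ff v :=
    intervalIntegral.integral_nonneg hs0 fun v _ => ff_nonneg v
  set C₁ : ℝ := ∫ v in (0 : ℝ)..s, ff v with hC₁def
  -- the constant is nonnegative
  have hC0 : 0 ≤ C := by
    obtain ⟨K, hK1, hK2⟩ := (hfreq.and_eventually (eventually_ge_atTop 1)).exists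
    have hK0 : (0 : ℝ) < K := by exact_mod_cast hK2
    have h3 : 0 ≤ WS α δ s K :=
      Finset.sum_nonneg fun k _ => intervalIntegral.integral_nonneg (by linarith)
        fun v _ => ff_nonneg v
    by_contra hcon
    have := mul_neg_of_neg_of_pos (not_le.1 hcon) hK0
    linarith
  have htend : Tendsto (fun K : ℕ => (K : ℝ) / α) atTop atTop :=
    tendsto_natCast_atTop_atTop.atTop_div_const hα
  -- the shifted window
  set w' : ℝ → ℝ := fun v => w (v - s) with hw'
  have hwc' : Continuous w' := hwc.comp (by fun_prop)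
  have hs' : ∀ v, w' v ≠ 0 → ∃ k : ℤ, k / α + s < v ∧ v < k / α + s + δ := by
    intro v hv
    obtain ⟨k, hk1, hk2⟩ := hs _ hv
    exact ⟨k, by linarith, by linarith⟩
  set a' : ℤ → ℂ := fun m => a m * cexp (-(2 * Real.pi * m * α * s * I)) with ha'
  have hn : ∀ m : ℤ, ‖a' m‖ = ‖a m‖ := by
    intro m
    rw [ha']
    simp only
    have : -(2 * Real.pi * m * α * s * I : ℂ) = ((-(2 * Real.pi * m * α * s) : ℝ) : ℂ) * I := by
      push_cast
      ring
    rw [norm_mul, this, Complex.norm_exp_ofReal_mul_I, mul_one]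
  have hw2 : ∀ v : ℝ, HasSum (fun m : ℤ => a' m * cexp (2 * Real.pi * m * α * v * I))
      ((w' v : ℝ) : ℂ) := by
    intro v
    have h2 := hw (v - s)
    refine h2.congr_fun fun m => ?_
    rw [ha']
    simp only
    rw [mul_assoc, ← Complex.exp_add]
    congr 2
    push_cast
    ring
  have ha2 : ∀ K : ℝ, Summable (fun m : ℤ => ‖a' m‖ * Real.exp (K * |(m : ℝ)| ^ (1 / 3 : ℝ))) := by
    intro K
    simp_rw [hn]
    exact ha K
  have haa' : a' 0 = (a₀ : ℂ) := by
    rw [ha']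
    simp [haa]
  refine core hL hLow hRH hα hG hwc' (fun v => h0 _) (fun v => h1 _) hw2 ha₀ haa' ha2 hC
    (C' := (C₁ + C) * α) (by positivity) ?_
  refine (hfreq.and_eventually ((htend.eventually (eventually_gt_atTop 2)).and
    (eventually_ge_atTop 1))).mono fun K hK => ⟨hK.2.1, ?_⟩
  obtain ⟨i1, i2⟩ := upper_s hC hα hδ hδ1 hs0 hwc' (fun v => h0 _) (fun v => h1 _) hs' hK.2.2
  refine ⟨i1, i2.trans ?_⟩
  have hK1 : (1 : ℝ) ≤ K := by exact_mod_cast hK.2.2
  have e : (C₁ + C) * α * ((K : ℝ) / α) = C₁ * K + C * K := by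
    field_simp
  rw [e]
  have h5 : C₁ ≤ C₁ * K := le_mul_of_one_le_right hC₁ hK1
  linarith [hK.1]

end Pool.Agent.P8H97.GW
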