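import Pool.Agent.P8H97.GW.F1
import Pool.Agent.P8H97.GW.N6
import Pool.Agent.P8H97.GW.Lim3
import Pool.Agent.P8H97.GW.Rhw3
import Pool.Agent.P8H52.GW.Lap
import Pool.Agent.P8H52.GW.Low2
import Pool.Agent.P8H76.GW.Gev
import Pool.Agent.P8H85.GW.Bmp
import Pool.Agent.P8H85.GW.Gen

/-!
# Project GW: the final assembly, arbitrary geometric progressions
-/

set_option autoImplicit false

open MeasureTheory Filter Topology Set

namespace Pool.Agent.P8H97.GW

open Pool.Agent.Results.MP_323ce2_nt.ZeroSumCriterion (msq ZerosCondition)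

/-- The sums over the windows. -/
theorem win_eq_s {a b c : ℝ} (ha : 1 < a) (hb : 1 < b) (hc : 1 ≤ c) (k : ℕ) :
    msq (c * a ^ k) (b * (c * a ^ k)) = ∫ v in ((k : ℝ) / (1 / Real.log a) +
      Real.log c)..((k : ℝ) / (1 / Real.log a) + Real.log c + Real.log b), ff v := by
  have hla : 0 < Real.log a := Real.log_pos ha
  have hlb : 0 < Real.log b := Real.log_pos hb
  have e1 : (k : ℝ) / (1 / Real.log a) = k * Real.log a := by field_simp
  have e2 : Real.exp (k * Real.log a) = a ^ k := by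
    rw [Real.exp_nat_mul, Real.exp_log (by linarith)]
  rw [← msq_exp (by linarith), e1, Real.exp_add _ (Real.log b), Real.exp_add, e2,
    Real.exp_log (by linarith), Real.exp_log (by linarith)]
  congr 1 <;> ring

/-- The weak Mertens hypothesis. -/
def WM0 : Prop := ∃ C : ℝ, ∀ x : ℝ, 2 ≤ x → msq 1 x ≤ C * Real.log x

theorem final3 (hGen : S_GEN) (hMain : S_MAIN3) (hLim : S_LIM3) :
    ∃ E : Set ℝ, dimH E = 0 ∧ ∀ a b c : ℝ, 1 < a → a ∉ E → 1 < b → b ≤ a → 1 ≤ c →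
      (WM0 ↔ ∃ C : ℝ, ∀ K : ℕ, 1 ≤ K →
        ∑ k ∈ Finset.range K, msq (c * a ^ k) (b * (c * a ^ k)) ≤ C * K) ∧
      (WM0 → Tendsto (fun K : ℕ => (∑ k ∈ Finset.range K,
        msq (c * a ^ k) (b * (c * a ^ k))) / K) atTop
          (𝓝 (Real.log b * ∑' ρ : NT, 1 / ‖(ρ : ℂ) * deriv riemannZeta ρ‖ ^ 2))) ∧
      (¬ WM0 → Tendsto (fun K : ℕ => (∑ k ∈ Finset.range K,
        msq (c * a ^ k) (b * (c * a ^ k))) / K) atTop atTop) := by
  obtain ⟨E₀, hE₀, hE₁⟩ := hGen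
  refine ⟨_, exc_dim hE₀, fun a b c ha haE hb hba hc => ?_⟩
  have hla : 0 < Real.log a := Real.log_pos ha
  have hlb : 0 < Real.log b := Real.log_pos hb
  have hlc : 0 ≤ Real.log c := Real.log_nonneg hc
  set α : ℝ := 1 / Real.log a with hα
  have hα0 : 0 < α := by positivity
  have hαE : α ∉ E₀ := by
    intro h
    apply haE
    refine ⟨α, ⟨h, hα0⟩, ?_⟩
    simp only
    rw [hα, one_div_one_div, Real.exp_log (by linarith)]
  have hG : Gen α := hE₁ α hα0 hαE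
  have hδ1 : Real.log b ≤ 1 / α := by
    rw [hα, one_div_one_div]
    exact Real.log_le_log (by linarith) hba
  have hWS : ∀ K : ℕ, ∑ k ∈ Finset.range K, msq (c * a ^ k) (b * (c * a ^ k)) =
      WS α (Real.log b) (Real.log c) K := by
    intro K
    unfold WS
    refine Finset.sum_congr rfl fun k _ => ?_
    exact win_eq_s ha hb hc k
  simp_rw [hWS]
  have hWM : WM0 ↔ ZC := zc_iff.symm
  rw [hWM]
  have hlim : ZC → Tendsto (fun K : ℕ => WS α (Real.log b) (Real.log c) K / K) atTop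
      (𝓝 (Real.log b * ∑' ρ : NT, 1 / ‖(ρ : ℂ) * deriv riemannZeta ρ‖ ^ 2)) := by
    intro hZ
    refine hLim hZ α (Real.log b) (Real.log c) hα0 hlb hδ1 hlc fun g hg g' hg' m hm h => ?_
    obtain ⟨c, hc, hc2⟩ := hG g hg
    have h5 := hc2 g' hg' m hm
    have h6 : g - g' - 2 * Real.pi * m * α = 0 := by linarith
    rw [h6, abs_zero] at h5
    have h7 : 0 < c * Real.exp (-q4 m) := by positivity
    linarith
  have hmain : (∃ C : ℝ, ∃ᶠ K : ℕ in atTop, WS α (Real.log b) (Real.log c) K ≤ C * K) → ZC :=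
    hMain α (Real.log b) (Real.log c) hα0 hlb hδ1 hlc hG
  refine ⟨⟨fun hZ => ?_, fun hW => ?_⟩, hlim, fun hZ => ?_⟩
  · obtain ⟨C, hC⟩ := (hlim hZ).bddAbove_range
    refine ⟨C, fun K hK => ?_⟩
    have hK0 : (0 : ℝ) < K := by exact_mod_cast hK
    have := hC ⟨K, rfl⟩
    simp only at this
    rwa [div_le_iff₀ hK0] at this
  · obtain ⟨C, hC⟩ := hW
    exact hmain ⟨C, ((eventually_ge_atTop 1).mono hC).frequently⟩
  · by_contra hnt
    apply hZ
    apply hmain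
    rw [tendsto_atTop] at hnt
    push Not at hnt
    obtain ⟨C, hC⟩ := hnt
    refine ⟨C, (hC.and_eventually (eventually_ge_atTop 1)).mono fun K hK => ?_⟩
    have hK0 : (0 : ℝ) < K := by exact_mod_cast hK.2
    have := hK.1
    rw [div_lt_iff₀ hK0] at this
    exact this.le

/-- Everything together. -/
theorem all3 :
    ∃ E : Set ℝ, dimH E = 0 ∧ ∀ a b c : ℝ, 1 < a → a ∉ E → 1 < b → b ≤ a → 1 ≤ c →
      (WM0 ↔ ∃ C : ℝ, ∀ K : ℕ, 1 ≤ K →
        ∑ k ∈ Finset.range K, msq (c * a ^ k) (b * (c * a ^ k)) ≤ C * K) ∧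
      (WM0 → Tendsto (fun K : ℕ => (∑ k ∈ Finset.range K,
        msq (c * a ^ k) (b * (c * a ^ k))) / K) atTop
          (𝓝 (Real.log b * ∑' ρ : NT, 1 / ‖(ρ : ℂ) * deriv riemannZeta ρ‖ ^ 2))) ∧
      (¬ WM0 → Tendsto (fun K : ℕ => (∑ k ∈ Finset.range K,
        msq (c * a ^ k) (b * (c * a ^ k))) / K) atTop atTop) :=
  final3 Pool.Agent.P8H85.GW.gen (main3 Pool.Agent.P8H52.GW.lap Pool.Agent.P8H52.GW.low2
    Pool.Agent.P8H85.GW.bmp_w rhw3 Pool.Agent.P8H76.GW.gev) lim3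

end Pool.Agent.P8H97.GW
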