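import Pool.Agent.P8H97.GW.Stm

/-!
# Project GW, main analysis, first part: general lemmas
-/

set_option autoImplicit false

open MeasureTheory Filter Topology Set Complex

namespace Pool.Agent.P8H97.GW

/-- Abel summation: weights which decrease. -/
theorem abel_dom (x r : ℕ → ℝ) (hT : ∀ K, 0 ≤ ∑ k ∈ Finset.range K, x k)
    (hr : ∀ k, r (k + 1) ≤ r k) (K : ℕ) :
    r K * ∑ k ∈ Finset.range K, x k ≤ ∑ k ∈ Finset.range K, x k * r k := by
  induction K with
  | zero => simp
  | succ K ih =>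
    rw [Finset.sum_range_succ (fun k => x k * r k)]
    have h1 : r (K + 1) * ∑ k ∈ Finset.range (K + 1), x k ≤
        r K * ∑ k ∈ Finset.range (K + 1), x k :=
      mul_le_mul_of_nonneg_right (hr K) (hT _)
    rw [Finset.sum_range_succ] at h1 ⊢
    nlinarith

/-- Cauchy-Schwarz. -/
theorem cs {μ : Measure ℝ} {f g : ℝ → ℝ} (hf : Integrable (fun x => f x ^ 2) μ)
    (hg : Integrable (fun x => g x ^ 2) μ) (hfg : Integrable (fun x => f x * g x) μ) :
    (∫ x, f x * g x ∂μ) ^ 2 ≤ (∫ x, f x ^ 2 ∂μ) * ∫ x, g x ^ 2 ∂μ := by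
  set A := ∫ x, f x ^ 2 ∂μ with hA
  set B := ∫ x, f x * g x ∂μ with hB
  set C := ∫ x, g x ^ 2 ∂μ with hC
  have key : ∀ t : ℝ, 0 ≤ C * (t * t) + (2 * B) * t + A := by
    intro t
    have h1 : 0 ≤ ∫ x, (f x + t * g x) ^ 2 ∂μ := integral_nonneg fun x => sq_nonneg _
    have h2 : ∫ x, (f x + t * g x) ^ 2 ∂μ = C * (t * t) + (2 * B) * t + A := by
      have e : (fun x => (f x + t * g x) ^ 2) =
          fun x => (f x ^ 2 + (2 * t) * (f x * g x)) + (t * t) * g x ^ 2 := by
        funext x
        ring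
      have i1 : Integrable (fun x => f x ^ 2 + (2 * t) * (f x * g x)) μ :=
        hf.add (hfg.const_mul _)
      have i2 : Integrable (fun x => (t * t) * g x ^ 2) μ := hg.const_mul _
      have e1 := integral_add i1 i2
      have e2 := integral_add hf (hfg.const_mul (2 * t))
      rw [e]
      refine e1.trans ?_
      rw [e2, integral_const_mul, integral_const_mul]
      ring
    rwa [h2] at h1
  have h3 := discrim_le_zero key
  unfold discrim at h3
  nlinarith

theorem geo_le {x : ℝ} (hx : 0 < x) (K : ℕ) :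
    ∑ k ∈ Finset.range K, Real.exp (-(k * x)) ≤ 1 + 1 / x := by
  have hr0 : 0 < Real.exp (-x) := Real.exp_pos _
  have hr1 : Real.exp (-x) < 1 := by
    rw [Real.exp_lt_one_iff]
    linarith
  have e : ∀ k : ℕ, Real.exp (-(k * x)) = Real.exp (-x) ^ k := by
    intro k
    rw [← Real.exp_nat_mul]
    congr 1
    ring
  simp_rw [e]
  have h1 : ∑ k ∈ Finset.range K, Real.exp (-x) ^ k ≤ (1 - Real.exp (-x))⁻¹ := by
    rw [← tsum_geometric_of_lt_one hr0.le hr1]
    exact (summable_geometric_of_lt_one hr0.le hr1).sum_le_tsum _ (fun _ _ => by positivity)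
  refine h1.trans ?_
  have h2 : x / (1 + x) ≤ 1 - Real.exp (-x) := by
    have h3 : Real.exp (-x) ≤ 1 / (1 + x) := by
      rw [Real.exp_neg, inv_eq_one_div]
      exact one_div_le_one_div_of_le (by linarith) (by linarith [Real.add_one_le_exp x])
    have h4 : x / (1 + x) = 1 - 1 / (1 + x) := by
      field_simp
      ring
    linarith
  have h5 : 0 < x / (1 + x) := by positivity
  calc (1 - Real.exp (-x))⁻¹ ≤ (x / (1 + x))⁻¹ := inv_anti₀ h5 h2
    _ = 1 + 1 / x := by
      field_simp
      ring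

theorem Mx_meas : Measurable Mx := by
  have : Mx = (fun n : ℕ => ∑ k ∈ Finset.Icc 1 n, ((ArithmeticFunction.moebius k : ℤ) : ℝ)) ∘
      (fun u : ℝ => ⌊u⌋₊) := rfl
  rw [this]
  exact measurable_from_nat.comp Nat.measurable_floor

theorem ff_meas : Measurable ff :=
  ((Mx_meas.comp Real.measurable_exp).pow_const 2).mul (by fun_prop)

theorem ff_nonneg (v : ℝ) : 0 ≤ ff v := by unfold ff; positivity

theorem abs_Mx_le {y : ℝ} (hy : 0 ≤ y) : |Mx y| ≤ y := by
  unfold Mx
  refine (Finset.abs_sum_le_sum_abs _ _).trans ?_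
  calc ∑ n ∈ Finset.Icc 1 ⌊y⌋₊, |((ArithmeticFunction.moebius n : ℤ) : ℝ)|
      ≤ ∑ n ∈ Finset.Icc 1 ⌊y⌋₊, (1 : ℝ) := by
        refine Finset.sum_le_sum fun n _ => ?_
        exact_mod_cast ArithmeticFunction.abs_moebius_le_one
    _ = ⌊y⌋₊ := by simp
    _ ≤ y := Nat.floor_le hy

theorem ff_le (v : ℝ) : ff v ≤ Real.exp v := by
  unfold ff
  have h1 := abs_Mx_le (Real.exp_pos v).le
  have h2 : Mx (Real.exp v) ^ 2 ≤ Real.exp v ^ 2 := by
    rw [← sq_abs]
    exact pow_le_pow_left₀ (abs_nonneg _) h1 2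
  calc Mx (Real.exp v) ^ 2 * Real.exp (-v) ≤ Real.exp v ^ 2 * Real.exp (-v) :=
        mul_le_mul_of_nonneg_right h2 (Real.exp_pos _).le
    _ = Real.exp v := by
      rw [sq, mul_assoc, ← Real.exp_add]
      simp

/-- Bounded measurable functions times `ff` are integrable on bounded intervals. -/
theorem ff_mul_int {w : ℝ → ℝ} (hw : Measurable w) {B : ℝ} (hB : ∀ v, |w v| ≤ B) (a b : ℝ) :
    IntervalIntegrable (fun v => ff v * w v) volume a b := by
  rw [intervalIntegrable_iff]
  refine Measure.integrableOn_of_bounded (M := Real.exp (max a b) * B) (by simp)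
    (ff_meas.mul hw).aestronglyMeasurable ?_
  refine (ae_restrict_mem measurableSet_uIoc).mono fun v hv => ?_
  have hv2 : v ≤ max a b := (Set.mem_uIoc.1 hv).elim (fun h => h.2.trans (le_max_right _ _))
    (fun h => h.2.trans (le_max_left _ _))
  rw [Real.norm_eq_abs, abs_mul, abs_of_nonneg (ff_nonneg v)]
  exact mul_le_mul ((ff_le v).trans (Real.exp_le_exp.2 hv2)) (hB v) (abs_nonneg _)
    (Real.exp_pos _).le

theorem ff_int (a b : ℝ) : IntervalIntegrable ff volume a b := by
  have := ff_mul_int (w := fun _ => (1 : ℝ)) measurable_const (B := 1) (by simp) a b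
  simpa using this

section bump

variable {α δ : ℝ} {w : ℝ → ℝ}

/-- One window. -/
theorem one_window (hα : 0 < α) (hδ : 0 < δ) (hδ1 : δ ≤ 1 / α) (hw : Continuous w)
    (h0 : ∀ v, 0 ≤ w v) (h1 : ∀ v, w v ≤ 1)
    (hs : ∀ v, w v ≠ 0 → ∃ k : ℤ, k / α < v ∧ v < k / α + δ) {V : ℝ} (hV : 0 < V) (k : ℕ) :
    ∫ v in ((k : ℝ) / α)..(((k + 1 : ℕ) : ℝ) / α), ff v * (w v * Real.exp (-(v / V))) ≤
      Real.exp (-(k * (1 / (α * V)))) * ∫ v in ((k : ℝ) / α)..(k / α + δ), ff v := by
  have hk0 : (0 : ℝ) ≤ (k : ℝ) / α := by positivity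
  have hcast : (((k + 1 : ℕ) : ℝ)) / α = k / α + 1 / α := by push_cast; ring
  have hBd : ∀ v, |w v * Real.exp (-(v / V))| ≤ Real.exp (|v| / V) := by
    intro v
    rw [abs_mul, abs_of_nonneg (h0 v), abs_of_pos (Real.exp_pos _)]
    have : Real.exp (-(v / V)) ≤ Real.exp (|v| / V) := by
      apply Real.exp_le_exp.2
      rw [← neg_div]
      gcongr
      exact neg_le_abs v
    calc w v * Real.exp (-(v / V)) ≤ 1 * Real.exp (-(v / V)) :=
          mul_le_mul_of_nonneg_right (h1 v) (Real.exp_pos _).le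
      _ ≤ _ := by rwa [one_mul]
  have hint : ∀ a b : ℝ, IntervalIntegrable (fun v => ff v * (w v * Real.exp (-(v / V))))
      volume a b := by
    intro a b
    have hc : Continuous (fun v => w v * Real.exp (-(v / V))) := by fun_prop
    exact (ff_int a b).mul_continuousOn hc.continuousOn
  rw [hcast, ← intervalIntegral.integral_add_adjacent_intervals (b := (k : ℝ) / α + δ)
    (hint _ _) (hint _ _)]
  have hz : ∫ v in ((k : ℝ) / α + δ)..((k : ℝ) / α + 1 / α),
      ff v * (w v * Real.exp (-(v / V))) = 0 := by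
    rw [intervalIntegral.integral_of_le (by linarith), ← integral_zero ℝ ℝ]
    rw [integral_Ioc_eq_integral_Ioo]
    refine setIntegral_congr_fun measurableSet_Ioo fun v hv => ?_
    by_cases hwv : w v = 0
    · simp [hwv]
    · exfalso
      obtain ⟨j, hj1, hj2⟩ := hs v hwv
      have e1 : ((j : ℝ)) / α < ((k : ℝ) + 1) / α := by
        rw [add_div]
        linarith [hv.2]
      have e2 : ((k : ℝ)) / α < ((j : ℝ) ) / α := by linarith [hv.1]
      have e3 : (j : ℝ) < (k : ℝ) + 1 := (div_lt_div_iff_of_pos_right hα).1 e1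
      have e4 : (k : ℝ) < j := (div_lt_div_iff_of_pos_right hα).1 e2
      have e5 : j < (k : ℤ) + 1 := by exact_mod_cast e3
      have e6 : (k : ℤ) < j := by exact_mod_cast e4
      omega
  rw [hz, add_zero, ← intervalIntegral.integral_const_mul]
  refine intervalIntegral.integral_mono_on (by linarith) (hint _ _)
    ((ff_int _ _).const_mul _) fun v hv => ?_
  have h2 : w v * Real.exp (-(v / V)) ≤ Real.exp (-(k * (1 / (α * V)))) := by
    calc w v * Real.exp (-(v / V)) ≤ 1 * Real.exp (-(v / V)) :=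
          mul_le_mul_of_nonneg_right (h1 v) (Real.exp_pos _).le
      _ ≤ Real.exp (-(k * (1 / (α * V)))) := by
        rw [one_mul]
        apply Real.exp_le_exp.2
        have : (k : ℝ) * (1 / (α * V)) = (k / α) / V := by field_simp
        rw [this]
        have := hv.1
        gcongr
  calc ff v * (w v * Real.exp (-(v / V))) ≤ ff v * Real.exp (-(k * (1 / (α * V)))) :=
        mul_le_mul_of_nonneg_left h2 (ff_nonneg v)
    _ = _ := mul_comm _ _

/-- The weighted bound from the windows. -/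
theorem weighted (hα : 0 < α) (hδ : 0 < δ) (hδ1 : δ ≤ 1 / α) (hw : Continuous w)
    (h0 : ∀ v, 0 ≤ w v) (h1 : ∀ v, w v ≤ 1)
    (hs : ∀ v, w v ≠ 0 → ∃ k : ℤ, k / α < v ∧ v < k / α + δ) (hW : Win α δ) :
    ∃ C : ℝ, 0 ≤ C ∧ ∀ V : ℝ, 1 ≤ V →
      IntegrableOn (fun v => ff v * (w v * Real.exp (-(v / V)))) (Ioi 0) ∧
      ∫ v in Ioi 0, ff v * (w v * Real.exp (-(v / V))) ≤ C * V := by
  obtain ⟨C₀, hC₀⟩ := hW
  have hC₀0 : 0 ≤ C₀ := by
    have h2 := hC₀ 1 le_rfl
    rw [Finset.sum_range_one, Nat.cast_one, mul_one] at h2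
    refine le_trans ?_ h2
    exact intervalIntegral.integral_nonneg (by linarith) fun v _ => ff_nonneg v
  refine ⟨C₀ * (1 + α), by positivity, fun V hV => ?_⟩
  have hV0 : 0 < V := by linarith
  set F : ℝ → ℝ := fun v => ff v * (w v * Real.exp (-(v / V))) with hF
  have hF0 : ∀ v, 0 ≤ F v := fun v =>
    mul_nonneg (ff_nonneg v) (mul_nonneg (h0 v) (Real.exp_pos _).le)
  have hint : ∀ a b : ℝ, IntervalIntegrable F volume a b := by
    intro a b
    have hc : Continuous (fun v => w v * Real.exp (-(v / V))) := by fun_prop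
    exact (ff_int a b).mul_continuousOn hc.continuousOn
  have hpart : ∀ K : ℕ, ∫ v in (0 : ℝ)..((K : ℝ) / α), F v ≤ C₀ * (1 + α) * V := by
    intro K
    have e1 : ∫ v in (0 : ℝ)..((K : ℝ) / α), F v = ∑ k ∈ Finset.range K,
        ∫ v in ((k : ℝ) / α)..(((k + 1 : ℕ) : ℝ) / α), F v := by
      have := intervalIntegral.sum_integral_adjacent_intervals
        (a := fun k : ℕ => (k : ℝ) / α) (f := F) (μ := volume) (n := K)
        (fun k _ => hint _ _)
      simp only [Nat.cast_zero, zero_div] at this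
      exact this.symm
    rw [e1]
    have e2 : ∑ k ∈ Finset.range K, ∫ v in ((k : ℝ) / α)..(((k + 1 : ℕ) : ℝ) / α), F v ≤
        ∑ k ∈ Finset.range K, Real.exp (-(k * (1 / (α * V)))) *
          ∫ v in ((k : ℝ) / α)..(k / α + δ), ff v :=
      Finset.sum_le_sum fun k _ => one_window hα hδ hδ1 hw h0 h1 hs hV0 k
    have e3 := abel_dom (fun k => C₀ - ∫ v in ((k : ℝ) / α)..(k / α + δ), ff v)
      (fun k => Real.exp (-(k * (1 / (α * V))))) (fun J => by
        rw [Finset.sum_sub_distrib, Finset.sum_const, Finset.card_range, nsmul_eq_mul]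
        rcases Nat.eq_zero_or_pos J with h | h
        · subst h
          simp
        · have := hC₀ J h
          linarith) (fun k => by
        apply Real.exp_le_exp.2
        push_cast
        have : 0 < 1 / (α * V) := by positivity
        nlinarith) K
    have e4 : 0 ≤ Real.exp (-((K : ℝ) * (1 / (α * V)))) *
        ∑ k ∈ Finset.range K, (C₀ - ∫ v in ((k : ℝ) / α)..(k / α + δ), ff v) := by
      refine mul_nonneg (Real.exp_pos _).le ?_
      rw [Finset.sum_sub_distrib, Finset.sum_const, Finset.card_range, nsmul_eq_mul]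
      rcases Nat.eq_zero_or_pos K with h | h
      · subst h
        simp
      · have := hC₀ K h
        linarith
    have e5 : ∑ k ∈ Finset.range K, Real.exp (-(k * (1 / (α * V)))) *
        (∫ v in ((k : ℝ) / α)..(k / α + δ), ff v) ≤
        C₀ * ∑ k ∈ Finset.range K, Real.exp (-(k * (1 / (α * V)))) := by
      have e6 := e4.trans e3
      have e7 : ∑ k ∈ Finset.range K,
          (C₀ - ∫ v in ((k : ℝ) / α)..(k / α + δ), ff v) * Real.exp (-(k * (1 / (α * V)))) =
          C₀ * ∑ k ∈ Finset.range K, Real.exp (-(k * (1 / (α * V)))) -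
          ∑ k ∈ Finset.range K, Real.exp (-(k * (1 / (α * V)))) *
            ∫ v in ((k : ℝ) / α)..(k / α + δ), ff v := by
        rw [Finset.mul_sum, ← Finset.sum_sub_distrib]
        refine Finset.sum_congr rfl fun k _ => ?_
        ring
      rw [e7] at e6
      linarith
    have e8 := geo_le (x := 1 / (α * V)) (by positivity) K
    have e9 : 1 + 1 / (1 / (α * V)) ≤ (1 + α) * V := by
      rw [one_div_one_div]
      nlinarith
    calc _ ≤ _ := e2
      _ ≤ _ := e5
      _ ≤ C₀ * (1 + 1 / (1 / (α * V))) := mul_le_mul_of_nonneg_left e8 hC₀0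
      _ ≤ C₀ * ((1 + α) * V) := mul_le_mul_of_nonneg_left e9 hC₀0
      _ = _ := by ring
  have htend : Tendsto (fun K : ℕ => (K : ℝ) / α) atTop atTop :=
    tendsto_natCast_atTop_atTop.atTop_div_const hα
  have hI : IntegrableOn F (Ioi 0) := by
    refine integrableOn_Ioi_of_intervalIntegral_norm_bounded (C₀ * (1 + α) * V) 0
      (fun K => ((hint 0 _).1)) htend (Eventually.of_forall fun K => ?_)
    have : ∀ v, ‖F v‖ = F v := fun v => by rw [Real.norm_eq_abs, abs_of_nonneg (hF0 v)]
    simp_rw [this]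
    exact hpart K
  refine ⟨hI, ?_⟩
  exact le_of_tendsto (intervalIntegral_tendsto_integral_Ioi 0 hI htend)
    (Eventually.of_forall hpart)

end bump

end Pool.Agent.P8H97.GW
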