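import Pool.Agent.P8H97.GW.M1

/-!
# Project GW, main analysis, second part: the transforms
-/

set_option autoImplicit false

open MeasureTheory Filter Topology Set Complex

namespace Pool.Agent.P8H97.GW

/-- `M(e^v) e^{-v/2}` -/
noncomputable def fr (v : ℝ) : ℝ := Mx (Real.exp v) * Real.exp (-(v / 2))

theorem fr_sq (v : ℝ) : fr v ^ 2 = ff v := by
  unfold fr ff
  rw [mul_pow, sq (Real.exp (-(v / 2))), ← Real.exp_add]
  congr 2
  ring

theorem fr_meas : Measurable fr := (Mx_meas.comp Real.measurable_exp).mul (by fun_prop)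

theorem Mx_exp_neg {v : ℝ} (hv : v < 0) : Mx (Real.exp v) = 0 := by
  unfold Mx
  have : ⌊Real.exp v⌋₊ = 0 := Nat.floor_eq_zero.2 (Real.exp_lt_one_iff.2 hv)
  rw [this]
  simp

theorem fr_neg {v : ℝ} (hv : v < 0) : fr v = 0 := by
  unfold fr
  rw [Mx_exp_neg hv, zero_mul]

theorem restrict_Ioi {F : ℝ → ℂ} (hF : ∀ v, v < 0 → F v = 0) :
    ∫ v, F v = ∫ v in Ioi (0 : ℝ), F v := by
  rw [← integral_Ici_eq_integral_Ioi]
  refine (setIntegral_eq_integral_of_forall_compl_eq_zero fun v hv => hF v ?_).symm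
  simpa using hv

/-- The transform of the windowed function. -/
noncomputable def YY (w : ℝ → ℝ) (V ξ : ℝ) : ℂ :=
  ∫ v in Ioi (0 : ℝ), ((fr v * (w v * Real.exp (-(v / V))) : ℝ) : ℂ) * cexp (-(ξ * v * I))

/-- The transform of the window. -/
noncomputable def XX (w : ℝ → ℝ) (V ξ : ℝ) : ℂ :=
  ∫ v in Ioi (0 : ℝ), ((w v * Real.exp (-(v / V)) : ℝ) : ℂ) * cexp (ξ * v * I)

section Y

variable {α : ℝ} {a : ℤ → ℂ} {w : ℝ → ℝ}

theorem lap_term (v V ξ y : ℝ) :
    ((Mx (Real.exp v) : ℝ) : ℂ) * cexp (-((⟨1 / 2 + 1 / V, ξ - y⟩ : ℂ) * v)) =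
      ((fr v * Real.exp (-(v / V)) : ℝ) : ℂ) * cexp (-(ξ * v * I)) * cexp (y * v * I) := by
  have e1 : (⟨1 / 2 + 1 / V, ξ - y⟩ : ℂ) = ((1 / 2 + 1 / V : ℝ) : ℂ) + ((ξ - y : ℝ) : ℂ) * I := by
    apply Complex.ext <;> simp
  have e2 : -((⟨1 / 2 + 1 / V, ξ - y⟩ : ℂ) * v) =
      ((-(v / 2) + -(v / V) : ℝ) : ℂ) + (-(ξ * v * I) + y * v * I) := by
    rw [e1]
    push_cast
    ring
  rw [e2, Complex.exp_add, Complex.exp_add, ← Complex.ofReal_exp, Real.exp_add]
  unfold fr
  push_cast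
  ring

theorem Y_hasSum (hL : S_LAP) (hRH : RiemannHypothesis)
    (hw : ∀ v : ℝ, HasSum (fun m : ℤ => a m * cexp (2 * Real.pi * m * α * v * I)) ((w v : ℝ) : ℂ))
    (ha : Summable (fun m => ‖a m‖)) {V : ℝ} (hV : 2 < V) (ξ : ℝ) :
    HasSum (fun m : ℤ => a m * GG ⟨1 / 2 + 1 / V, ξ - 2 * Real.pi * m * α⟩) (YY w V ξ) := by
  have hV0 : (0 : ℝ) < V := by linarith
  have h1V : (0 : ℝ) < 1 / V := by positivity
  have h1V2 : 1 / V < 1 / 2 := one_div_lt_one_div_of_lt (by norm_num) hV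
  have hLs : ∀ t : ℝ, Integrable (fun v : ℝ => ((Mx (Real.exp v) : ℝ) : ℂ) *
      cexp (-((⟨1 / 2 + 1 / V, t⟩ : ℂ) * v))) ∧
      ∫ v : ℝ, ((Mx (Real.exp v) : ℝ) : ℂ) * cexp (-((⟨1 / 2 + 1 / V, t⟩ : ℂ) * v)) =
        GG ⟨1 / 2 + 1 / V, t⟩ := by
    intro t
    refine hL hRH _ (by show 1 / 2 < 1 / 2 + 1 / V; linarith) ?_
    intro h
    have := congrArg Complex.re h
    simp only [Complex.one_re] at this
    linarith
  set F : ℤ → ℝ → ℂ := fun m v => a m * (((Mx (Real.exp v) : ℝ) : ℂ) *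
      cexp (-((⟨1 / 2 + 1 / V, ξ - 2 * Real.pi * m * α⟩ : ℂ) * v))) with hF
  have hFi : ∀ m, Integrable (F m) := fun m => (hLs _).1.const_mul _
  have hnorm : ∀ m v, ‖F m v‖ = ‖a m‖ * ‖((Mx (Real.exp v) : ℝ) : ℂ) *
      cexp (-((⟨1 / 2 + 1 / V, 0⟩ : ℂ) * v))‖ := by
    intro m v
    rw [hF]
    simp only [norm_mul, Complex.norm_exp]
    congr 3
    simp
  have hsum : Summable fun m => ∫ v, ‖F m v‖ := by
    simp_rw [hnorm, integral_const_mul]
    exact ha.mul_right _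
  have h1 := hasSum_integral_of_summable_integral_norm hFi hsum
  have e1 : ∀ m, ∫ v, F m v = a m * GG ⟨1 / 2 + 1 / V, ξ - 2 * Real.pi * m * α⟩ := by
    intro m
    rw [hF]
    simp only [integral_const_mul]
    rw [(hLs _).2]
  have e2 : ∀ v, ∑' m, F m v = ((fr v * (w v * Real.exp (-(v / V))) : ℝ) : ℂ) *
      cexp (-(ξ * v * I)) := by
    intro v
    have h2 : ∀ m, F m v = (((fr v * Real.exp (-(v / V)) : ℝ) : ℂ) * cexp (-(ξ * v * I))) *
        (a m * cexp (2 * Real.pi * m * α * v * I)) := by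
      intro m
      have h3 := lap_term v V ξ (2 * Real.pi * m * α)
      rw [hF]
      simp only
      rw [h3]
      push_cast
      ring
    simp_rw [h2]
    rw [((hw v).mul_left _).tsum_eq]
    push_cast
    ring
  have e3 : ∫ v, ∑' m, F m v = YY w V ξ := by
    simp_rw [e2]
    rw [restrict_Ioi]
    · rfl
    · intro v hv
      simp [fr_neg hv]
  rw [e3] at h1
  simpa only [e1] using h1

/-- Integrability of the windowed function. -/
theorem Y_int (hL : S_LAP) (hRH : RiemannHypothesis) (hwc : Continuous w)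
    (h0 : ∀ v, 0 ≤ w v) (h1 : ∀ v, w v ≤ 1) {V : ℝ} (hV : 2 < V) :
    IntegrableOn (fun v => fr v * (w v * Real.exp (-(v / V)))) (Ioi 0) := by
  have hV0 : (0 : ℝ) < V := by linarith
  have h1V : (0 : ℝ) < 1 / V := by positivity
  have h1V2 : 1 / V < 1 / 2 := one_div_lt_one_div_of_lt (by norm_num) hV
  have hI := (hL hRH (⟨1 / 2 + 1 / V, 0⟩ : ℂ) (by show 1 / 2 < 1 / 2 + 1 / V; linarith) (by
    intro h
    have := congrArg Complex.re h
    simp only [Complex.one_re] at this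
    linarith)).1
  refine (hI.norm.integrableOn (s := Ioi 0)).mono' ?_ ?_
  · exact (fr_meas.mul (by fun_prop)).aestronglyMeasurable
  · refine Eventually.of_forall fun v => ?_
    have e1 : ‖((Mx (Real.exp v) : ℝ) : ℂ) * cexp (-((⟨1 / 2 + 1 / V, 0⟩ : ℂ) * v))‖ =
        |fr v| * Real.exp (-(v / V)) := by
      have := lap_term v V 0 0
      simp only [sub_zero] at this
      rw [this]
      simp only [Complex.ofReal_zero, zero_mul, neg_zero, Complex.exp_zero, mul_one,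
        Complex.norm_real, Real.norm_eq_abs, abs_mul, abs_of_pos (Real.exp_pos _)]
    rw [e1, Real.norm_eq_abs, abs_mul, abs_mul, abs_of_nonneg (h0 v),
      abs_of_pos (Real.exp_pos _)]
    have := h1 v
    have h3 := h0 v
    have h4 := Real.exp_pos (-(v / V))
    have h5 := abs_nonneg (fr v)
    have h6 : w v * Real.exp (-(v / V)) ≤ Real.exp (-(v / V)) := by nlinarith
    exact mul_le_mul_of_nonneg_left h6 h5

end Y

section X

variable {α : ℝ} {a : ℤ → ℂ} {w : ℝ → ℝ}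

theorem exp_int {V : ℝ} (hV : 0 < V) (y : ℝ) :
    IntegrableOn (fun v : ℝ => cexp ((-(1 / V : ℝ) + y * I : ℂ) * v)) (Ioi 0) ∧
      ∫ v in Ioi (0 : ℝ), cexp ((-(1 / V : ℝ) + y * I : ℂ) * v) =
        1 / ((1 / V : ℝ) - y * I) := by
  have hre : (-(1 / V : ℝ) + y * I : ℂ).re < 0 := by
    have : (0 : ℝ) < 1 / V := by positivity
    simp only [Complex.add_re, Complex.neg_re, Complex.ofReal_re, Complex.mul_re, Complex.I_re,
      mul_zero, Complex.ofReal_im, Complex.I_im, mul_one, sub_self, add_zero]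
    linarith
  refine ⟨integrableOn_exp_mul_complex_Ioi hre 0, ?_⟩
  rw [integral_exp_mul_complex_Ioi hre]
  have hne : (-(1 / V : ℝ) + y * I : ℂ) ≠ 0 := by
    intro h
    rw [h] at hre
    simp at hre
  have hne2 : ((1 / V : ℝ) - y * I : ℂ) ≠ 0 := by
    intro h
    apply hne
    linear_combination -h
  simp only [Complex.ofReal_zero, mul_zero, Complex.exp_zero]
  rw [div_eq_div_iff hne hne2]
  ring

theorem W_int (hwc : Continuous w) (h0 : ∀ v, 0 ≤ w v) (h1 : ∀ v, w v ≤ 1) {V : ℝ}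
    (hV : 0 < V) : IntegrableOn (fun v => w v * Real.exp (-(v / V))) (Ioi 0) := by
  refine (exp_int hV 0).1.norm.mono' (by fun_prop) (Eventually.of_forall fun v => ?_)
  rw [Complex.norm_exp, Real.norm_eq_abs, abs_mul, abs_of_nonneg (h0 v),
    abs_of_pos (Real.exp_pos _)]
  have e : ((-(1 / V : ℝ) + (0 : ℝ) * I : ℂ) * v).re = -(v / V) := by
    simp
    ring
  rw [e]
  have := h1 v
  have h3 := h0 v
  have h4 := Real.exp_pos (-(v / V))
  nlinarith

theorem X_hasSum
    (hw : ∀ v : ℝ, HasSum (fun m : ℤ => a m * cexp (2 * Real.pi * m * α * v * I)) ((w v : ℝ) : ℂ))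
    (ha : Summable (fun m => ‖a m‖)) {V : ℝ} (hV : 0 < V) (ξ : ℝ) :
    HasSum (fun m : ℤ => a m * (1 / ((1 / V : ℝ) - ((ξ + 2 * Real.pi * m * α : ℝ) : ℂ) * I)))
      (XX w V ξ) := by
  set F : ℤ → ℝ → ℂ := fun m v => a m *
    cexp ((-(1 / V : ℝ) + ((ξ + 2 * Real.pi * m * α : ℝ) : ℂ) * I : ℂ) * v) with hF
  have hFi : ∀ m, Integrable (F m) (volume.restrict (Ioi 0)) := fun m =>
    (exp_int hV _).1.const_mul _
  have hnorm : ∀ m v, ‖F m v‖ = ‖a m‖ * ‖cexp ((-(1 / V : ℝ) + (0 : ℝ) * I : ℂ) * v)‖ := by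
    intro m v
    rw [hF]
    simp only [norm_mul, Complex.norm_exp]
    congr 2
    simp
  have hsum : Summable fun m => ∫ v in Ioi (0 : ℝ), ‖F m v‖ := by
    simp_rw [hnorm, integral_const_mul]
    exact ha.mul_right _
  have h1 := hasSum_integral_of_summable_integral_norm hFi hsum
  have e1 : ∀ m, ∫ v in Ioi (0 : ℝ), F m v =
      a m * (1 / ((1 / V : ℝ) - ((ξ + 2 * Real.pi * m * α : ℝ) : ℂ) * I)) := by
    intro m
    rw [hF]
    simp only [integral_const_mul]
    rw [(exp_int hV _).2]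
  have e2 : ∀ v, ∑' m, F m v = ((w v * Real.exp (-(v / V)) : ℝ) : ℂ) * cexp (ξ * v * I) := by
    intro v
    have h2 : ∀ m, F m v = (((Real.exp (-(v / V)) : ℝ) : ℂ) * cexp (ξ * v * I)) *
        (a m * cexp (2 * Real.pi * m * α * v * I)) := by
      intro m
      rw [hF]
      simp only
      have e4 : (-(1 / V : ℝ) + ((ξ + 2 * Real.pi * m * α : ℝ) : ℂ) * I : ℂ) * v =
          ((-(v / V) : ℝ) : ℂ) + ξ * v * I + 2 * Real.pi * m * α * v * I := by
        push_cast
        ring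
      rw [e4, Complex.exp_add, Complex.exp_add, Complex.ofReal_exp]
      ring
    simp_rw [h2]
    rw [((hw v).mul_left _).tsum_eq]
    push_cast
    ring
  have e3 : ∫ v in Ioi (0 : ℝ), ∑' m, F m v = XX w V ξ := by
    simp_rw [e2]
    rfl
  rw [e3] at h1
  simpa only [e1] using h1

theorem X_tendsto
    (hw : ∀ v : ℝ, HasSum (fun m : ℤ => a m * cexp (2 * Real.pi * m * α * v * I)) ((w v : ℝ) : ℂ))
    (ha : Summable (fun m => ‖a m‖)) {ξ : ℝ}
    (hξ : ∀ m : ℤ, m ≠ 0 → ξ + 2 * Real.pi * m * α ≠ 0) :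
    Tendsto (fun V : ℝ => XX w V ξ / V) atTop (𝓝 (if ξ = 0 then a 0 else 0)) := by
  have hlim : Tendsto (fun V : ℝ => ∑' m : ℤ, a m * (1 / ((1 / V : ℝ) -
      ((ξ + 2 * Real.pi * m * α : ℝ) : ℂ) * I)) / V) atTop
      (𝓝 (∑' m : ℤ, if ξ + 2 * Real.pi * m * α = 0 then a m else 0)) := by
    refine tendsto_tsum_of_dominated_convergence ha (fun m => ?_) ?_
    · by_cases h : ξ + 2 * Real.pi * m * α = 0
      · rw [if_pos h, h]
        refine (tendsto_const_nhds (x := a m)).congr' ?_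
        filter_upwards [eventually_gt_atTop (0 : ℝ)] with V hV
        have : (V : ℂ) ≠ 0 := by exact_mod_cast hV.ne'
        push_cast
        field_simp
        simp
      · rw [if_neg h]
        set y : ℝ := ξ + 2 * Real.pi * m * α with hy
        have h1 : Tendsto (fun V : ℝ => (1 / V : ℝ)) atTop (𝓝 0) := by
          simpa using tendsto_inv_atTop_zero
        have h2 : Tendsto (fun V : ℝ => ((1 / V : ℝ) : ℂ)) atTop (𝓝 0) := by
          have := (Complex.continuous_ofReal.tendsto 0).comp h1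
          simpa [Function.comp_def] using this
        have h3 : Tendsto (fun V : ℝ => ((1 / V : ℝ) : ℂ) - (y : ℂ) * I) atTop
            (𝓝 (0 - (y : ℂ) * I)) := h2.sub_const _
        have hne : (0 - (y : ℂ) * I) ≠ 0 := by
          rw [zero_sub, neg_ne_zero]
          exact mul_ne_zero (by exact_mod_cast h) I_ne_zero
        have h4 := ((h3.inv₀ hne).const_mul (a m)).mul h2
        rw [mul_zero] at h4
        refine h4.congr fun V => ?_
        push_cast
        rw [one_div, one_div, div_eq_mul_inv]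
    · filter_upwards [eventually_gt_atTop (0 : ℝ)] with V hV m
      set y : ℝ := ξ + 2 * Real.pi * m * α with hy
      rw [norm_div, norm_mul, norm_div, norm_one, Complex.norm_real, Real.norm_eq_abs,
        abs_of_pos hV]
      have h1 : 1 / V ≤ ‖((1 / V : ℝ) : ℂ) - (y : ℂ) * I‖ := by
        have := Complex.abs_re_le_norm (((1 / V : ℝ) : ℂ) - (y : ℂ) * I)
        simp only [Complex.sub_re, Complex.ofReal_re, Complex.mul_re, Complex.I_re, mul_zero,
          Complex.ofReal_im, Complex.I_im, mul_one, sub_self, sub_zero] at this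
        exact (le_abs_self _).trans this
      have h2 : (0 : ℝ) < 1 / V := by positivity
      have h3 : 1 / ‖((1 / V : ℝ) : ℂ) - (y : ℂ) * I‖ ≤ V := by
        rw [div_le_iff₀ (h2.trans_le h1)]
        calc (1 : ℝ) = V * (1 / V) := by field_simp
          _ ≤ _ := mul_le_mul_of_nonneg_left h1 hV.le
      rw [div_le_iff₀ hV]
      exact mul_le_mul_of_nonneg_left h3 (norm_nonneg _)
  have e1 : ∑' m : ℤ, (if ξ + 2 * Real.pi * m * α = 0 then a m else 0) =
      if ξ = 0 then a 0 else 0 := by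
    rw [tsum_eq_single 0]
    · simp
    · intro m hm
      rw [if_neg (hξ m hm)]
  rw [e1] at hlim
  refine hlim.congr' ?_
  filter_upwards [eventually_gt_atTop (0 : ℝ)] with V hV
  rw [← (X_hasSum hw ha hV ξ).tsum_eq, tsum_div_const]

end X

end Pool.Agent.P8H97.GW
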