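import Pool.Agent.P8H97.GW.M2

/-!
# Project GW, main analysis, third part
-/

set_option autoImplicit false

open MeasureTheory Filter Topology Set Complex

namespace Pool.Agent.P8H97.GW

/-- Growth of the exponent. -/
theorem expo_le {K : ℝ} (hK : 0 < K) {c : ℝ} (hc : 0 < c) (hc1 : c ≤ 1) (α g : ℝ) :
    ∃ K' : ℝ, 0 ≤ K' ∧ ∀ m : ℤ, m ≠ 0 →
      K * Real.log (|g - 2 * Real.pi * m * α| + 3) *
        (1 + Real.log (1 / (c * Real.exp (-q4 m)))) ≤ K' * |(m : ℝ)| ^ (1 / 3 : ℝ) := by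
  set D : ℝ := |g| + 2 * Real.pi * |α| + 3 with hD
  have hpi := Real.pi_pos
  have hD0 : 0 < D := by positivity
  set L : ℝ := Real.log (1 / c) with hL
  have hL0 : 0 ≤ L := Real.log_nonneg (by rw [le_div_iff₀ hc]; linarith)
  refine ⟨K * (12 * D ^ (1 / 12 : ℝ)) * (2 + L), by positivity, fun m hm => ?_⟩
  set x : ℝ := |(m : ℝ)| with hx
  have hx1 : 1 ≤ x := by
    have h1 : (1 : ℤ) ≤ |m| := Int.one_le_abs hm
    have h2 : ((1 : ℤ) : ℝ) ≤ ((|m| : ℤ) : ℝ) := by exact_mod_cast h1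
    simpa [hx] using h2
  have hx0 : 0 < x := by linarith
  have e1 : |g - 2 * Real.pi * m * α| + 3 ≤ D * x := by
    have h1 : |g - 2 * Real.pi * m * α| ≤ |g| + 2 * Real.pi * |α| * x := by
      refine (abs_sub _ _).trans ?_
      rw [abs_mul, abs_mul, abs_of_pos (by positivity : (0 : ℝ) < 2 * Real.pi)]
      apply le_of_eq
      rw [hx]
      ring
    have h2 : |g| ≤ |g| * x := by nlinarith [abs_nonneg g]
    rw [hD]
    nlinarith
  have e2 : Real.log (|g - 2 * Real.pi * m * α| + 3) ≤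
      12 * D ^ (1 / 12 : ℝ) * x ^ (1 / 12 : ℝ) := by
    have h1 := Real.log_le_log (by positivity) e1
    have h2 := Real.log_le_rpow_div (x := D * x) (by positivity)
      (show (0 : ℝ) < 1 / 12 by norm_num)
    rw [Real.mul_rpow hD0.le hx0.le] at h2
    refine h1.trans (h2.trans (le_of_eq ?_))
    ring
  have e3 : Real.log (1 / (c * Real.exp (-q4 m))) = L + x ^ (1 / 4 : ℝ) := by
    have h1 : 1 / (c * Real.exp (-q4 m)) = (1 / c) * Real.exp (q4 m) := by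
      rw [Real.exp_neg]
      field_simp
    rw [h1, Real.log_mul (by positivity) (Real.exp_pos _).ne', Real.log_exp]
    rfl
  have e4 : 1 + (L + x ^ (1 / 4 : ℝ)) ≤ (2 + L) * x ^ (1 / 4 : ℝ) := by
    have h1 : 1 ≤ x ^ (1 / 4 : ℝ) := Real.one_le_rpow hx1 (by norm_num)
    nlinarith
  have e5 : x ^ (1 / 12 : ℝ) * x ^ (1 / 4 : ℝ) = x ^ (1 / 3 : ℝ) := by
    rw [← Real.rpow_add hx0]
    norm_num
  rw [e3]
  have h0 : 0 ≤ 1 + (L + x ^ (1 / 4 : ℝ)) := by positivity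
  calc K * Real.log (|g - 2 * Real.pi * m * α| + 3) * (1 + (L + x ^ (1 / 4 : ℝ)))
      ≤ K * (12 * D ^ (1 / 12 : ℝ) * x ^ (1 / 12 : ℝ)) * ((2 + L) * x ^ (1 / 4 : ℝ)) := by
        refine mul_le_mul (mul_le_mul_of_nonneg_left e2 hK.le) e4 h0 (by positivity)
    _ = K * (12 * D ^ (1 / 12 : ℝ)) * (2 + L) * (x ^ (1 / 12 : ℝ) * x ^ (1 / 4 : ℝ)) := by ring
    _ = _ := by rw [e5]

section Yb

variable {α : ℝ} {a : ℤ → ℂ} {w : ℝ → ℝ}

theorem Y_bound (hL : S_LAP) (hLow : S_LOW) (hRH : RiemannHypothesis)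
    (hw : ∀ v : ℝ, HasSum (fun m : ℤ => a m * cexp (2 * Real.pi * m * α * v * I)) ((w v : ℝ) : ℂ))
    (ha : ∀ K : ℝ, Summable (fun m : ℤ => ‖a m‖ * Real.exp (K * |(m : ℝ)| ^ (1 / 3 : ℝ))))
    (hG : Gen α) {g : ℝ} (hg : g ∈ Ord) :
    ∃ B : ℝ, ∀ V : ℝ, 2 < V → ‖YY w V g - a 0 * GG ⟨1 / 2 + 1 / V, g⟩‖ ≤ B := by
  obtain ⟨K, hK, hlow⟩ := hLow
  obtain ⟨c₀, hc₀, hc⟩ := hG g hg
  set c : ℝ := min c₀ 1 with hcdef
  have hcpos : 0 < c := lt_min hc₀ one_pos
  have hc1 : c ≤ 1 := min_le_right _ _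
  obtain ⟨K', hK', hexp⟩ := expo_le hK hcpos hc1 α g
  have ha0 : Summable (fun m => ‖a m‖) := by
    have := ha 0
    simpa using this
  refine ⟨∑' m : ℤ, ‖a m‖ * Real.exp (K' * |(m : ℝ)| ^ (1 / 3 : ℝ)), fun V hV => ?_⟩
  have hV0 : (0 : ℝ) < V := by linarith
  have h1V : (0 : ℝ) < 1 / V := by positivity
  have h1V2 : 1 / V < 1 / 2 := one_div_lt_one_div_of_lt (by norm_num) hV
  have h1 := Y_hasSum hL hRH hw ha0 hV g
  have h2 := h1.update 0 0
  have e0 : (0 : ℂ) - a 0 * GG ⟨1 / 2 + 1 / V, g - 2 * Real.pi * ((0 : ℤ) : ℝ) * α⟩ + YY w V g =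
      YY w V g - a 0 * GG ⟨1 / 2 + 1 / V, g⟩ := by
    simp
    ring
  rw [e0] at h2
  rw [← h2.tsum_eq]
  refine tsum_of_norm_bounded (ha K').hasSum fun m => ?_
  by_cases hm : m = 0
  · subst hm
    simp
  · rw [Function.update_of_ne hm, norm_mul]
    refine mul_le_mul_of_nonneg_left ?_ (norm_nonneg _)
    have hd0 : 0 < c * Real.exp (-q4 m) := by positivity
    have hd1 : c * Real.exp (-q4 m) ≤ 1 := by
      have h3 : Real.exp (-q4 m) ≤ 1 := by
        rw [Real.exp_le_one_iff, neg_nonpos]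
        unfold q4
        positivity
      nlinarith [Real.exp_pos (-q4 m)]
    refine (hlow hRH (g - 2 * Real.pi * m * α) (1 / 2 + 1 / V) (c * Real.exp (-q4 m))
      (by linarith) (by linarith) hd0 hd1 fun γ hγ => ?_).trans (Real.exp_le_exp.2 (hexp m hm))
    have h3 := hc γ hγ m hm
    have e3 : g - 2 * Real.pi * m * α - γ = g - γ - 2 * Real.pi * m * α := by ring
    rw [e3]
    refine le_trans ?_ h3
    exact mul_le_mul_of_nonneg_right (min_le_left _ _) (Real.exp_pos _).le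

end Yb

/-- The Cauchy-Schwarz inequality with the window. -/
theorem cs_window {w : ℝ → ℝ} (hwc : Continuous w) (h0 : ∀ v, 0 ≤ w v) (h1 : ∀ v, w v ≤ 1)
    {P : ℝ → ℂ} (hP : Continuous P) {B : ℝ} (hB : ∀ v, ‖P v‖ ≤ B) {V : ℝ} (hV : 0 < V)
    (hI : IntegrableOn (fun v => ff v * (w v * Real.exp (-(v / V)))) (Ioi 0)) :
    ‖∫ v in Ioi (0 : ℝ), ((fr v * (w v * Real.exp (-(v / V))) : ℝ) : ℂ) * P v‖ ^ 2 ≤
      (∫ v in Ioi (0 : ℝ), ff v * (w v * Real.exp (-(v / V)))) *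
        ∫ v in Ioi (0 : ℝ), ‖P v‖ ^ 2 * (w v * Real.exp (-(v / V))) := by
  set W : ℝ → ℝ := fun v => w v * Real.exp (-(v / V)) with hW
  have hW0 : ∀ v, 0 ≤ W v := fun v => mul_nonneg (h0 v) (Real.exp_pos _).le
  have hWc : Continuous W := by rw [hW]; fun_prop
  have hB0 : 0 ≤ B := (norm_nonneg _).trans (hB 0)
  have e1 : ∀ v, (|fr v| * Real.sqrt (W v)) ^ 2 = ff v * W v := by
    intro v
    rw [mul_pow, sq_abs, fr_sq, Real.sq_sqrt (hW0 v)]
  have e2 : ∀ v, (‖P v‖ * Real.sqrt (W v)) ^ 2 = ‖P v‖ ^ 2 * W v := by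
    intro v
    rw [mul_pow, Real.sq_sqrt (hW0 v)]
  have e3 : ∀ v, (|fr v| * Real.sqrt (W v)) * (‖P v‖ * Real.sqrt (W v)) =
      ‖((fr v * W v : ℝ) : ℂ) * P v‖ := by
    intro v
    rw [norm_mul, Complex.norm_real, Real.norm_eq_abs, abs_mul, abs_of_nonneg (hW0 v)]
    have := Real.mul_self_sqrt (hW0 v)
    calc (|fr v| * Real.sqrt (W v)) * (‖P v‖ * Real.sqrt (W v)) =
        |fr v| * (Real.sqrt (W v) * Real.sqrt (W v)) * ‖P v‖ := by ring
      _ = _ := by rw [this]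
  have i2 : IntegrableOn (fun v => ‖P v‖ ^ 2 * W v) (Ioi 0) := by
    refine ((W_int hwc h0 h1 hV).const_mul (B ^ 2)).mono' (by fun_prop)
      (Eventually.of_forall fun v => ?_)
    rw [Real.norm_eq_abs, abs_of_nonneg (mul_nonneg (sq_nonneg _) (hW0 v))]
    exact mul_le_mul_of_nonneg_right (pow_le_pow_left₀ (norm_nonneg _) (hB v) 2) (hW0 v)
  have i3 : IntegrableOn (fun v => (|fr v| * Real.sqrt (W v)) * (‖P v‖ * Real.sqrt (W v)))
      (Ioi 0) := by
    refine (hI.add i2).mono' ?_ (Eventually.of_forall fun v => ?_)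
    · exact (((fr_meas.abs).mul (hWc.sqrt.measurable)).mul
        ((hP.norm.mul hWc.sqrt).measurable)).aestronglyMeasurable
    · rw [Real.norm_eq_abs, abs_of_nonneg (by positivity)]
      have h5 := e1 v
      have h6 := e2 v
      simp only [Pi.add_apply]
      rw [← h5, ← h6]
      nlinarith [sq_nonneg (|fr v| * Real.sqrt (W v) - ‖P v‖ * Real.sqrt (W v)),
        sq_nonneg (|fr v| * Real.sqrt (W v)), sq_nonneg (‖P v‖ * Real.sqrt (W v))]
  have h4 := cs (μ := volume.restrict (Ioi 0)) (f := fun v => |fr v| * Real.sqrt (W v))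
    (g := fun v => ‖P v‖ * Real.sqrt (W v)) (by simp_rw [e1]; exact hI)
    (by simp_rw [e2]; exact i2) i3
  simp_rw [e1, e2, e3] at h4
  refine le_trans ?_ h4
  exact pow_le_pow_left₀ (norm_nonneg _) (norm_integral_le_integral_norm _) 2

/-- The order of the zeros: the denominators. -/
theorem den_tendsto {ρ : ℂ} (h1 : ρ ≠ 1) (h0 : riemannZeta ρ = 0) :
    Tendsto (fun V : ℝ => (ρ + (1 / V : ℝ)) * riemannZeta (ρ + (1 / V : ℝ)) * V) atTop
      (𝓝 (ρ * deriv riemannZeta ρ)) := by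
  have hd : HasDerivAt riemannZeta (deriv riemannZeta ρ) ρ :=
    (differentiableAt_riemannZeta h1).hasDerivAt
  have hx : Tendsto (fun V : ℝ => ((1 / V : ℝ) : ℂ)) atTop (𝓝[≠] 0) := by
    rw [tendsto_nhdsWithin_iff]
    constructor
    · have h1 : Tendsto (fun V : ℝ => (1 / V : ℝ)) atTop (𝓝 0) := by
        simpa using tendsto_inv_atTop_zero
      have := (Complex.continuous_ofReal.tendsto 0).comp h1
      simpa [Function.comp_def] using this
    · filter_upwards [eventually_gt_atTop (0 : ℝ)] with V hV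
      simp only [mem_compl_iff, mem_singleton_iff]
      have : (1 / V : ℝ) ≠ 0 := by positivity
      exact_mod_cast this
  have h2 := (hasDerivAt_iff_tendsto_slope_zero.1 hd).comp hx
  have h3 : Tendsto (fun V : ℝ => ρ + ((1 / V : ℝ) : ℂ)) atTop (𝓝 (ρ + 0)) :=
    (tendsto_nhds_of_tendsto_nhdsWithin hx).const_add ρ
  rw [add_zero] at h3
  refine (h3.mul h2).congr fun V => ?_
  simp only [Function.comp_apply, h0, sub_zero, smul_eq_mul]
  push_cast
  rw [one_div, inv_inv]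
  ring

end Pool.Agent.P8H97.GW
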