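import Pool.Agent.P8H97.GW.M3

/-!
# Project GW, main analysis, fourth part: the assembly
-/

set_option autoImplicit false

open MeasureTheory Filter Topology Set Complex

namespace Pool.Agent.P8H97.GW

theorem nt_re (hRH : RiemannHypothesis) {ρ : ℂ} (h : ρ ∈ NT) : ρ.re = 1 / 2 := by
  refine hRH ρ h.1 ?_ ?_
  · rintro ⟨n, hn⟩
    have h1 := congrArg Complex.re hn
    have h2 := h.2.1
    simp at h1
    have : (0 : ℝ) ≤ n := by positivity
    linarith
  · rintro rfl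
    have := h.2.2
    simp at this

theorem nt_eq (hRH : RiemannHypothesis) {ρ : ℂ} (h : ρ ∈ NT) : ρ = ⟨1 / 2, ρ.im⟩ :=
  Complex.ext (nt_re hRH h) rfl

theorem nt_ord (hRH : RiemannHypothesis) {ρ : ℂ} (h : ρ ∈ NT) : ρ.im ∈ Ord := by
  show riemannZeta _ = 0
  rw [← nt_eq hRH h]
  exact h.1

theorem zeta_ne (hRH : RiemannHypothesis) {s : ℂ} (hs : 1 / 2 < s.re) :
    riemannZeta s ≠ 0 := by
  intro h
  by_cases h1 : s = 1
  · rw [h1] at h
    exact riemannZeta_ne_zero_of_one_le_re (s := 1) (by simp) h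
  · have := hRH s h (by
      rintro ⟨n, hn⟩
      have h3 := congrArg Complex.re hn
      simp at h3
      have : (0 : ℝ) ≤ n := by positivity
      linarith) h1
    linarith

theorem pt_eq (g V : ℝ) : (⟨1 / 2 + 1 / V, g⟩ : ℂ) = ⟨1 / 2, g⟩ + ((1 / V : ℝ) : ℂ) := by
  apply Complex.ext <;> simp

section main

variable {α C : ℝ} {a : ℤ → ℂ} {w : ℝ → ℝ}

theorem W_le {w : ℝ → ℝ} (hwc : Continuous w) (h0 : ∀ v, 0 ≤ w v) (h1 : ∀ v, w v ≤ 1) {V : ℝ}
    (hV : 0 < V) : ∫ v in Ioi (0 : ℝ), w v * Real.exp (-(v / V)) ≤ V := by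
  have e1 : ∫ v in Ioi (0 : ℝ), Real.exp (-(v / V)) = V := by
    have h := integral_exp_mul_Ioi (a := -(1 / V)) (by
      have : 0 < 1 / V := by positivity
      linarith) 0
    have e : (fun v : ℝ => Real.exp (-(v / V))) = fun v => Real.exp (-(1 / V) * v) := by
      funext v
      congr 1
      ring
    rw [e, h]
    simp
  have i1 : IntegrableOn (fun v : ℝ => Real.exp (-(v / V))) (Ioi 0) := by
    have := W_int (w := fun _ => 1) continuous_const (by simp) (by simp) hV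
    simpa using this
  calc ∫ v in Ioi (0 : ℝ), w v * Real.exp (-(v / V)) ≤
        ∫ v in Ioi (0 : ℝ), Real.exp (-(v / V)) := by
        refine integral_mono (W_int hwc h0 h1 hV) i1 fun v => ?_
        have := h1 v
        have h4 := Real.exp_pos (-(v / V))
        simp only
        nlinarith
    _ = V := e1

theorem YY_le (hC0 : 0 ≤ C) (hwc : Continuous w) (h0 : ∀ v, 0 ≤ w v) (h1 : ∀ v, w v ≤ 1)
    (hC : ∀ V : ℝ, 1 ≤ V → IntegrableOn (fun v => ff v * (w v * Real.exp (-(v / V)))) (Ioi 0) ∧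
      ∫ v in Ioi 0, ff v * (w v * Real.exp (-(v / V))) ≤ C * V) {V : ℝ} (hV : 1 ≤ V) (g : ℝ) :
    ‖YY w V g‖ ≤ Real.sqrt C * V := by
  have hV0 : 0 < V := by linarith
  have hP : Continuous fun v : ℝ => cexp (-(g * v * I)) := by fun_prop
  have hn : ∀ v : ℝ, ‖cexp (-(g * v * I))‖ = 1 := by
    intro v
    have : -((g : ℂ) * v * I) = ((-(g * v) : ℝ) : ℂ) * I := by push_cast; ring
    rw [this, Complex.norm_exp_ofReal_mul_I]
  have h2 := cs_window hwc h0 h1 hP (B := 1) (fun v => (hn v).le) hV0 (hC V hV).1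
  simp_rw [hn] at h2
  simp only [one_pow, one_mul] at h2
  have h3 : ‖YY w V g‖ ^ 2 ≤ (C * V) * V := by
    refine h2.trans ?_
    refine mul_le_mul (hC V hV).2 (W_le hwc h0 h1 hV0) ?_ (by positivity)
    exact integral_nonneg fun v => mul_nonneg (h0 v) (Real.exp_pos _).le
  have h4 : (C * V) * V = (Real.sqrt C * V) ^ 2 := by
    rw [mul_pow, Real.sq_sqrt hC0]
    ring
  rw [h4] at h3
  exact (sq_le_sq₀ (norm_nonneg _) (by positivity)).1 h3

theorem simple (hRH : RiemannHypothesis) (ha0 : a 0 ≠ 0) (hC0 : 0 ≤ C) (hwc : Continuous w)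
    (h0 : ∀ v, 0 ≤ w v) (h1 : ∀ v, w v ≤ 1)
    (hC : ∀ V : ℝ, 1 ≤ V → IntegrableOn (fun v => ff v * (w v * Real.exp (-(v / V)))) (Ioi 0) ∧
      ∫ v in Ioi 0, ff v * (w v * Real.exp (-(v / V))) ≤ C * V) {g : ℝ} (hg : g ∈ Ord)
    {B : ℝ} (hB : ∀ V : ℝ, 2 < V → ‖YY w V g - a 0 * GG ⟨1 / 2 + 1 / V, g⟩‖ ≤ B) :
    deriv riemannZeta (⟨1 / 2, g⟩ : ℂ) ≠ 0 := by
  intro hd
  have hne1 : (⟨1 / 2, g⟩ : ℂ) ≠ 1 := by
    intro h
    have := congrArg Complex.re h
    simp at this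
  have ht := den_tendsto hne1 hg
  rw [hd, mul_zero] at ht
  have hB0 : 0 ≤ B := (norm_nonneg _).trans (hB 3 (by norm_num))
  have ha0' : 0 < ‖a 0‖ := norm_pos_iff.2 ha0
  set D : ℝ := (B + Real.sqrt C) / ‖a 0‖ with hD
  have hD0 : 0 ≤ D := by positivity
  have key : ∀ V : ℝ, 2 < V → 1 ≤ D * ‖((⟨1 / 2, g⟩ : ℂ) + (1 / V : ℝ)) *
      riemannZeta ((⟨1 / 2, g⟩ : ℂ) + (1 / V : ℝ)) * V‖ := by
    intro V hV
    have hV0 : 0 < V := by linarith
    have h1V : (0 : ℝ) < 1 / V := by positivity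
    have e1 := hB V hV
    have e2 := YY_le hC0 hwc h0 h1 hC (show 1 ≤ V by linarith) g
    have e3 : ‖a 0‖ * ‖GG ⟨1 / 2 + 1 / V, g⟩‖ ≤ (B + Real.sqrt C) * V := by
      rw [← norm_mul]
      have : a 0 * GG ⟨1 / 2 + 1 / V, g⟩ = YY w V g -
        (YY w V g - a 0 * GG ⟨1 / 2 + 1 / V, g⟩) := by ring
      rw [this]
      refine (norm_sub_le _ _).trans ?_
      have : B ≤ B * V := by nlinarith
      linarith
    have e4 : ‖GG ⟨1 / 2 + 1 / V, g⟩‖ ≤ D * V := by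
      rw [hD, div_mul_eq_mul_div, le_div_iff₀ ha0']
      linarith
    rw [pt_eq] at e4
    have hre : (((⟨1 / 2, g⟩ : ℂ) + ((1 / V : ℝ) : ℂ))).re = 1 / 2 + 1 / V := by simp
    have hz : riemannZeta ((⟨1 / 2, g⟩ : ℂ) + ((1 / V : ℝ) : ℂ)) ≠ 0 :=
      zeta_ne hRH (by rw [hre]; linarith)
    have hs : ((⟨1 / 2, g⟩ : ℂ) + ((1 / V : ℝ) : ℂ)) ≠ 0 := by
      intro h
      rw [h] at hre
      simp only [Complex.zero_re] at hre
      linarith
    have hp : ((⟨1 / 2, g⟩ : ℂ) + ((1 / V : ℝ) : ℂ)) *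
        riemannZeta ((⟨1 / 2, g⟩ : ℂ) + ((1 / V : ℝ) : ℂ)) ≠ 0 := mul_ne_zero hs hz
    have hp' := norm_pos_iff.2 hp
    unfold GG at e4
    rw [norm_inv] at e4
    rw [norm_mul, Complex.norm_real, Real.norm_eq_abs, abs_of_pos hV0]
    have h7 := mul_le_mul_of_nonneg_left e4 hp'.le
    rw [mul_inv_cancel₀ hp'.ne'] at h7
    calc (1 : ℝ) ≤ _ := h7
      _ = _ := by ring
  have h5 : Tendsto (fun V : ℝ => D * ‖((⟨1 / 2, g⟩ : ℂ) + (1 / V : ℝ)) *
      riemannZeta ((⟨1 / 2, g⟩ : ℂ) + (1 / V : ℝ)) * V‖) atTop (𝓝 (D * ‖(0 : ℂ)‖)) :=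
    ht.norm.const_mul D
  rw [norm_zero, mul_zero] at h5
  have h6 : (1 : ℝ) ≤ 0 := ge_of_tendsto h5 (by
    filter_upwards [eventually_gt_atTop (2 : ℝ)] with V hV
    exact key V hV)
  linarith

theorem YY_tendsto {g : ℝ} (hg : g ∈ Ord)
    {B : ℝ} (hB : ∀ V : ℝ, 2 < V → ‖YY w V g - a 0 * GG ⟨1 / 2 + 1 / V, g⟩‖ ≤ B)
    (hd : deriv riemannZeta (⟨1 / 2, g⟩ : ℂ) ≠ 0) :
    Tendsto (fun V : ℝ => YY w V g / V) atTop
      (𝓝 (a 0 * ((⟨1 / 2, g⟩ : ℂ) * deriv riemannZeta ⟨1 / 2, g⟩)⁻¹)) := by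
  have hne1 : (⟨1 / 2, g⟩ : ℂ) ≠ 1 := by
    intro h
    have := congrArg Complex.re h
    simp at this
  have hne0 : (⟨1 / 2, g⟩ : ℂ) ≠ 0 := by
    intro h
    have := congrArg Complex.re h
    simp at this
  have ht := ((den_tendsto hne1 hg).inv₀ (mul_ne_zero hne0 hd)).const_mul (a 0)
  have hsmall : Tendsto (fun V : ℝ => (YY w V g - a 0 * GG ⟨1 / 2 + 1 / V, g⟩) / V) atTop
      (𝓝 0) := by
    have h1 : Tendsto (fun V : ℝ => B * V⁻¹) atTop (𝓝 0) := by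
      simpa using tendsto_inv_atTop_zero.const_mul B
    refine squeeze_zero_norm' ?_ h1
    filter_upwards [eventually_gt_atTop (2 : ℝ)] with V hV
    have hV0 : 0 < V := by linarith
    rw [norm_div, Complex.norm_real, Real.norm_eq_abs, abs_of_pos hV0, div_eq_mul_inv]
    exact mul_le_mul_of_nonneg_right (hB V hV) (by positivity)
  have h2 := hsmall.add ht
  rw [zero_add] at h2
  refine h2.congr' ?_
  filter_upwards [eventually_gt_atTop (0 : ℝ)] with V hV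
  have hVc : (V : ℂ) ≠ 0 := by exact_mod_cast hV.ne'
  have e : a 0 * ((((⟨1 / 2, g⟩ : ℂ) + ((1 / V : ℝ) : ℂ)) *
      riemannZeta ((⟨1 / 2, g⟩ : ℂ) + ((1 / V : ℝ) : ℂ)) * V)⁻¹) =
      a 0 * GG ⟨1 / 2 + 1 / V, g⟩ / V := by
    unfold GG
    rw [pt_eq, mul_inv _ (V : ℂ)]
    ring
  rw [e]
  ring

/-- The bound for finite sums. -/
theorem finite_bound (hL : S_LAP) (hRH : RiemannHypothesis) (hC0 : 0 ≤ C) {a₀ : ℝ}
    (ha₀ : 0 < a₀) (haa : a 0 = (a₀ : ℂ)) (hwc : Continuous w)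
    (h0 : ∀ v, 0 ≤ w v) (h1 : ∀ v, w v ≤ 1)
    (hw : ∀ v : ℝ, HasSum (fun m : ℤ => a m * cexp (2 * Real.pi * m * α * v * I)) ((w v : ℝ) : ℂ))
    (ha : Summable (fun m => ‖a m‖))
    (hC : ∀ V : ℝ, 1 ≤ V → IntegrableOn (fun v => ff v * (w v * Real.exp (-(v / V)))) (Ioi 0) ∧
      ∫ v in Ioi 0, ff v * (w v * Real.exp (-(v / V))) ≤ C * V)
    (Z : Finset ℝ) (hZ : ∀ g ∈ Z, g ∈ Ord) (c : ℝ → ℂ)
    (hY : ∀ g ∈ Z, Tendsto (fun V : ℝ => YY w V g / V) atTop (𝓝 (a 0 * c g)))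
    (hG : ∀ g ∈ Z, ∀ g' ∈ Z, ∀ m : ℤ, m ≠ 0 → g - g' + 2 * Real.pi * m * α ≠ 0) :
    ∑ g ∈ Z, ‖c g‖ ^ 2 ≤ C / a₀ := by
  set S : ℝ := ∑ g ∈ Z, ‖c g‖ ^ 2 with hS
  have hS0 : 0 ≤ S := Finset.sum_nonneg fun g _ => sq_nonneg _
  set P : ℝ → ℂ := fun v => ∑ g ∈ Z, (starRingEnd ℂ) (c g) * cexp (-(g * v * I)) with hP
  have hPc : Continuous P := by
    rw [hP]
    fun_prop
  have hn : ∀ g v : ℝ, ‖cexp (-((g : ℂ) * v * I))‖ = 1 := by
    intro g v
    have : -((g : ℂ) * v * I) = ((-(g * v) : ℝ) : ℂ) * I := by push_cast; ring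
    rw [this, Complex.norm_exp_ofReal_mul_I]
  have hPb : ∀ v, ‖P v‖ ≤ ∑ g ∈ Z, ‖c g‖ := by
    intro v
    refine (norm_sum_le _ _).trans (Finset.sum_le_sum fun g _ => ?_)
    rw [norm_mul, hn, mul_one, RCLike.norm_conj]
  -- the first transform
  have hA : ∀ V : ℝ, 2 < V → ∫ v in Ioi (0 : ℝ), ((fr v * (w v * Real.exp (-(v / V))) : ℝ) : ℂ) *
      P v = ∑ g ∈ Z, (starRingEnd ℂ) (c g) * YY w V g := by
    intro V hV
    have e1 : ∀ v, ((fr v * (w v * Real.exp (-(v / V))) : ℝ) : ℂ) * P v =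
        ∑ g ∈ Z, (starRingEnd ℂ) (c g) *
          (((fr v * (w v * Real.exp (-(v / V))) : ℝ) : ℂ) * cexp (-(g * v * I))) := by
      intro v
      rw [hP, Finset.mul_sum]
      refine Finset.sum_congr rfl fun g _ => ?_
      ring
    simp_rw [e1]
    rw [integral_finsetSum]
    · refine Finset.sum_congr rfl fun g _ => ?_
      rw [integral_const_mul]
      rfl
    · intro g _
      refine Integrable.const_mul ?_ _
      have i1 := (Y_int hL hRH hwc h0 h1 hV).ofReal (𝕜 := ℂ)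
      refine i1.mul_bdd (c := 1) (by fun_prop) (Eventually.of_forall fun v => ?_)
      rw [hn]
  have hAt : Tendsto (fun V : ℝ => (∫ v in Ioi (0 : ℝ),
      ((fr v * (w v * Real.exp (-(v / V))) : ℝ) : ℂ) * P v) / V) atTop (𝓝 ((a₀ * S : ℝ) : ℂ)) := by
    have h2 : Tendsto (fun V : ℝ => ∑ g ∈ Z, (starRingEnd ℂ) (c g) * (YY w V g / V)) atTop
        (𝓝 (∑ g ∈ Z, (starRingEnd ℂ) (c g) * (a 0 * c g))) :=
      tendsto_finsetSum _ fun g hg => (hY g hg).const_mul _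
    have e2 : ∑ g ∈ Z, (starRingEnd ℂ) (c g) * (a 0 * c g) = ((a₀ * S : ℝ) : ℂ) := by
      rw [hS]
      push_cast
      rw [Finset.mul_sum]
      refine Finset.sum_congr rfl fun g _ => ?_
      rw [haa, ← Complex.conj_mul']
      ring
    rw [e2] at h2
    refine h2.congr' ?_
    filter_upwards [eventually_gt_atTop (2 : ℝ)] with V hV
    rw [hA V hV, Finset.sum_div]
    refine Finset.sum_congr rfl fun g _ => ?_
    ring
  -- the second transform
  have hB : ∀ V : ℝ, 0 < V → ((∫ v in Ioi (0 : ℝ), ‖P v‖ ^ 2 * (w v * Real.exp (-(v / V))) : ℝ) : ℂ)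
      = ∑ g ∈ Z, ∑ g' ∈ Z, (starRingEnd ℂ) (c g) * c g' * XX w V (g' - g) := by
    intro V hV
    have e1 : ∀ v, ((‖P v‖ ^ 2 * (w v * Real.exp (-(v / V))) : ℝ) : ℂ) =
        ∑ g ∈ Z, ∑ g' ∈ Z, (starRingEnd ℂ) (c g) * c g' *
          (((w v * Real.exp (-(v / V)) : ℝ) : ℂ) * cexp (((g' - g : ℝ) : ℂ) * v * I)) := by
      intro v
      have e3 : ((‖P v‖ ^ 2 : ℝ) : ℂ) = P v * (starRingEnd ℂ) (P v) := by
        rw [Complex.mul_conj']
        push_cast
        rfl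
      have e4 : (starRingEnd ℂ) (P v) = ∑ g' ∈ Z, c g' * cexp (g' * v * I) := by
        rw [hP]
        simp only [map_sum, map_mul, Complex.conj_conj]
        refine Finset.sum_congr rfl fun g' _ => ?_
        rw [← Complex.exp_conj]
        congr 2
        simp
      push_cast at e3 ⊢
      rw [e3, e4, hP, Finset.sum_mul_sum, Finset.sum_mul]
      refine Finset.sum_congr rfl fun g _ => ?_
      rw [Finset.sum_mul]
      refine Finset.sum_congr rfl fun g' _ => ?_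
      have e5 : ((g' : ℂ) - g) * v * I = -(g * v * I) + g' * v * I := by ring
      rw [e5, Complex.exp_add]
      ring
    rw [← integral_complex_ofReal]
    simp_rw [e1]
    have i1 : ∀ g g' : ℝ, IntegrableOn (fun v : ℝ => (starRingEnd ℂ) (c g) * c g' *
          (((w v * Real.exp (-(v / V)) : ℝ) : ℂ) * cexp (((g' - g : ℝ) : ℂ) * v * I))) (Ioi 0) := by
      intro g g'
      refine Integrable.const_mul ?_ _
      have i2 := (W_int hwc h0 h1 hV).ofReal (𝕜 := ℂ)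
      refine i2.mul_bdd (c := 1) (by fun_prop) (Eventually.of_forall fun v => ?_)
      have : (((g' - g : ℝ) : ℂ) * v * I) = ((((g' - g) * v : ℝ)) : ℂ) * I := by push_cast; ring
      rw [this, Complex.norm_exp_ofReal_mul_I]
    rw [integral_finsetSum _ (fun g _ => integrable_finsetSum _ fun g' _ => i1 g g')]
    refine Finset.sum_congr rfl fun g _ => ?_
    rw [integral_finsetSum _ (fun g' _ => i1 g g')]
    refine Finset.sum_congr rfl fun g' _ => ?_
    rw [integral_const_mul]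
    rfl
  have hBt : Tendsto (fun V : ℝ => ((∫ v in Ioi (0 : ℝ),
      ‖P v‖ ^ 2 * (w v * Real.exp (-(v / V)))) / V : ℝ)) atTop (𝓝 (a₀ * S)) := by
    have h2 : Tendsto (fun V : ℝ => ∑ g ∈ Z, ∑ g' ∈ Z, (starRingEnd ℂ) (c g) * c g' *
        (XX w V (g' - g) / V)) atTop (𝓝 (∑ g ∈ Z, ∑ g' ∈ Z, (starRingEnd ℂ) (c g) * c g' *
          (if g' - g = 0 then a 0 else 0))) := by
      refine tendsto_finsetSum _ fun g hg => tendsto_finsetSum _ fun g' hg' => ?_
      exact (X_tendsto hw ha (hG g' hg' g hg)).const_mul _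
    have e2 : ∑ g ∈ Z, ∑ g' ∈ Z, (starRingEnd ℂ) (c g) * c g' *
          (if g' - g = 0 then a 0 else 0) = ((a₀ * S : ℝ) : ℂ) := by
      rw [hS]
      push_cast
      rw [Finset.mul_sum]
      refine Finset.sum_congr rfl fun g hg => ?_
      rw [Finset.sum_eq_single g]
      · rw [sub_self, if_pos rfl, haa, ← Complex.conj_mul']
        ring
      · intro g' _ hne
        rw [if_neg (sub_ne_zero.2 hne), mul_zero]
      · intro h
        exact absurd hg h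
    rw [e2] at h2
    have h3 := (Complex.continuous_re.tendsto _).comp h2
    rw [Complex.ofReal_re] at h3
    refine h3.congr' ?_
    filter_upwards [eventually_gt_atTop (0 : ℝ)] with V hV
    have e6 : ∑ g ∈ Z, ∑ g' ∈ Z, (starRingEnd ℂ) (c g) * c g' * (XX w V (g' - g) / V) =
        (((∫ v in Ioi (0 : ℝ), ‖P v‖ ^ 2 * (w v * Real.exp (-(v / V)))) / V : ℝ) : ℂ) := by
      rw [Complex.ofReal_div, hB V hV, Finset.sum_div]
      refine Finset.sum_congr rfl fun g _ => ?_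
      rw [Finset.sum_div]
      refine Finset.sum_congr rfl fun g' _ => ?_
      ring
    rw [Function.comp_apply, e6, Complex.ofReal_re]
  -- the inequality
  have hfin : ‖((a₀ * S : ℝ) : ℂ)‖ ^ 2 ≤ C * (a₀ * S) := by
    refine le_of_tendsto_of_tendsto (hAt.norm.pow 2) (hBt.const_mul C) ?_
    filter_upwards [eventually_gt_atTop (2 : ℝ)] with V hV
    have hV0 : 0 < V := by linarith
    have h2 := cs_window hwc h0 h1 hPc hPb hV0 (hC V (by linarith)).1
    rw [norm_div, div_pow, Complex.norm_real, Real.norm_eq_abs, sq_abs, div_le_iff₀ (by positivity)]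
    refine h2.trans ?_
    have h3 : 0 ≤ ∫ v in Ioi (0 : ℝ), ‖P v‖ ^ 2 * (w v * Real.exp (-(v / V))) :=
      integral_nonneg fun v => mul_nonneg (sq_nonneg _) (mul_nonneg (h0 v) (Real.exp_pos _).le)
    refine (mul_le_mul_of_nonneg_right (hC V (by linarith)).2 h3).trans (le_of_eq ?_)
    field_simp
  rw [Complex.norm_real, Real.norm_eq_abs, sq_abs] at hfin
  rw [le_div_iff₀ ha₀]
  rcases hS0.eq_or_lt with h | h
  · rw [← h]
    simpa using hC0
  · have h5 : 0 < a₀ * S := by positivity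
    have h6 : a₀ * S ≤ C := by
      by_contra hcon
      have := not_le.1 hcon
      nlinarith
    linarith

end main

/-- MAIN. -/
theorem main (hL : S_LAP) (hLow : S_LOW) (hB : S_BMP) (hR : S_RHW) : S_MAIN := by
  intro α δ hα hδ hδ1 hG hW
  have hRH : RiemannHypothesis := hR α δ hα hδ hW
  obtain ⟨a, w, hwc, h0, h1, hs, hw, ⟨a₀, ha₀, haa⟩, ha⟩ := hB α δ hα hδ hδ1
  obtain ⟨C, hC0, hC⟩ := weighted hα hδ hδ1 hwc h0 h1 hs hW
  have ha' : Summable (fun m => ‖a m‖) := by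
    have := ha 0
    simpa using this
  have ha0 : a 0 ≠ 0 := by
    rw [haa]
    exact_mod_cast ha₀.ne'
  have hsimple : ∀ g ∈ Ord, deriv riemannZeta (⟨1 / 2, g⟩ : ℂ) ≠ 0 := by
    intro g hg
    obtain ⟨B, hB⟩ := Y_bound hL hLow hRH hw ha hG hg
    exact simple hRH ha0 hC0 hwc h0 h1 hC hg hB
  refine ⟨fun ρ hρ => ⟨nt_re hRH hρ, ?_⟩, ?_⟩
  · rw [nt_eq hRH hρ]
    exact hsimple _ (nt_ord hRH hρ)
  · refine summable_of_sum_le (c := C / a₀) (fun ρ => by positivity) fun Z => ?_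
    have hinj : Set.InjOn (fun ρ : NT => (ρ : ℂ).im) (Z : Set NT) := by
      intro x _ y _ hxy
      apply Subtype.ext
      rw [nt_eq hRH x.2, nt_eq hRH y.2]
      simp only at hxy
      rw [hxy]
    have h3 := finite_bound hL hRH hC0 ha₀ haa hwc h0 h1 hw ha' hC
      (Z.image fun ρ : NT => (ρ : ℂ).im) (by
        intro g hg
        obtain ⟨ρ, _, rfl⟩ := Finset.mem_image.1 hg
        exact nt_ord hRH ρ.2)
      (fun g => ((⟨1 / 2, g⟩ : ℂ) * deriv riemannZeta ⟨1 / 2, g⟩)⁻¹) (by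
        intro g hg
        obtain ⟨ρ, _, rfl⟩ := Finset.mem_image.1 hg
        obtain ⟨B, hB⟩ := Y_bound hL hLow hRH hw ha hG (nt_ord hRH ρ.2)
        exact YY_tendsto (nt_ord hRH ρ.2) hB (hsimple _ (nt_ord hRH ρ.2))) (by
        intro g hg g' hg' m hm h
        obtain ⟨ρ, _, rfl⟩ := Finset.mem_image.1 hg
        obtain ⟨ρ', _, rfl⟩ := Finset.mem_image.1 hg'
        obtain ⟨c, hc, hc2⟩ := hG _ (nt_ord hRH ρ.2)
        have h5 := hc2 _ (nt_ord hRH ρ'.2) (-m) (neg_ne_zero.2 hm)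
        have h6 : (ρ : ℂ).im - (ρ' : ℂ).im - 2 * Real.pi * ((-m : ℤ) : ℝ) * α = 0 := by
          push_cast
          linarith
        rw [h6, abs_zero] at h5
        have h7 : 0 < c * Real.exp (-q4 (-m)) := by positivity
        linarith)
    rw [Finset.sum_image hinj] at h3
    refine le_trans (le_of_eq ?_) h3
    refine Finset.sum_congr rfl fun ρ _ => ?_
    rw [← nt_eq hRH ρ.2, norm_inv, inv_pow, one_div]

end Pool.Agent.P8H97.GW
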