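import Pool.Agent.P8H97.GW.M4
import Pool.Agent.P8H97.GW.Stm2

/-!
# Project GW, the form with infinitely many `K`: uniform bounds
-/

set_option autoImplicit false

open MeasureTheory Filter Topology Set Complex

namespace Pool.Agent.P8H97.GW

/-- `log (|y| + 3)` -/
noncomputable def Ly (y : ℝ) : ℝ := Real.log (|y| + 3)

theorem Ly_one (y : ℝ) : 1 ≤ Ly y := by
  unfold Ly
  rw [Real.le_log_iff_exp_le (by positivity)]
  have := Real.exp_one_lt_d9
  have := abs_nonneg y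
  linarith

theorem Ly_cont : Continuous Ly := by
  unfold Ly
  refine Continuous.log (by fun_prop) fun y => ?_
  positivity

/-- The elementary inequality behind the bounds. -/
theorem quart {L q : ℝ} (hL : 1 ≤ L) (hq : 1 ≤ q) :
    (L + q) * (L + q ^ 3) ≤ 4 * (L ^ 4 + q ^ 4) := by
  have hL0 : 0 < L := by linarith
  have hq0 : 0 < q := by linarith
  have h1 : L ^ 2 ≤ L ^ 4 := pow_le_pow_right₀ hL (by norm_num)
  have h2 : L * q ^ 3 ≤ L ^ 4 + q ^ 4 := by
    rcases le_total L q with h | h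
    · have : L * q ^ 3 ≤ q * q ^ 3 := mul_le_mul_of_nonneg_right h (by positivity)
      have : 0 ≤ L ^ 4 := by positivity
      nlinarith
    · have h3 : q ^ 3 ≤ L ^ 3 := pow_le_pow_left₀ hq0.le h 3
      have : L * q ^ 3 ≤ L * L ^ 3 := mul_le_mul_of_nonneg_left h3 hL0.le
      have : 0 ≤ q ^ 4 := by positivity
      nlinarith
  have h3 : q * L ≤ L ^ 4 + q ^ 4 := by
    have h4 : q * L ≤ q ^ 2 + L ^ 2 := by nlinarith [sq_nonneg (q - L), sq_nonneg (q + L)]
    have h5 : q ^ 2 ≤ q ^ 4 := pow_le_pow_right₀ hq (by norm_num)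
    linarith
  have h4 : (L + q) * (L + q ^ 3) = L ^ 2 + L * q ^ 3 + q * L + q ^ 4 := by ring
  rw [h4]
  have h5 : 0 ≤ L ^ 4 := by positivity
  have h6 : 0 ≤ q ^ 4 := by positivity
  linarith

theorem el1 {x L q : ℝ} (hx : 0 ≤ x) (hL : 1 ≤ L) (hq : 1 ≤ q) :
    x + L + 12 * q ≤ (x + 14) * (L + q) := by
  nlinarith [mul_nonneg hx (sub_nonneg.2 hL), mul_nonneg hx (by linarith : 0 ≤ q)]

theorem el2 {x L q : ℝ} (hx : 0 ≤ x) (hL : 1 ≤ L) (hq : 1 ≤ q) :
    1 + (x + L + q) ≤ (x + 2) * (L + q) := by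
  nlinarith [mul_nonneg hx (sub_nonneg.2 hL), mul_nonneg hx (by linarith : 0 ≤ q)]

theorem el3 {g p e : ℝ} (hg : 0 ≤ g) (hp : 0 ≤ p) (he : 0 ≤ e) :
    g + 2 * p * e + 3 ≤ (g + 2 * p + 3) * (e + 3) := by
  nlinarith [mul_nonneg hg he, mul_nonneg hp he]

theorem el4 {x e k : ℝ} (hx : 1 ≤ x) (he : 0 ≤ e) (hk : 0 ≤ k) :
    k * x ≤ k * (e + 3) * x := by
  have h1 : k * x ≤ k * x * (e + 3) := le_mul_of_one_le_right (by positivity) (by linarith)
  linarith

theorem el5 {V p e : ℝ} (hV : 1 ≤ V) (hp : 0 ≤ p) (he : 0 ≤ e) : 2 * p * e ≤ 2 * p * e * V :=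
  le_mul_of_one_le_right (by positivity) hV

theorem el6 {c e : ℝ} (hc : 0 < c) (hc1 : c ≤ 1) (he : 0 < e) (he1 : e ≤ 1) :
    c / 2 * e ≤ 1 := by
  have : c / 2 * e ≤ 1 * 1 := mul_le_mul (by linarith) he1 he.le (by norm_num)
  linarith

theorem el7 {x y L : ℝ} (hx : 0 ≤ x) (hy : 0 ≤ y) (hL : 1 ≤ L) : x + L ≤ (x + y + 2) * L := by
  nlinarith [mul_nonneg hx (sub_nonneg.2 hL), mul_nonneg hy (by linarith : 0 ≤ L)]

theorem el8 {x y L : ℝ} (hx : 0 ≤ x) (hy : 0 ≤ y) (hL : 1 ≤ L) :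
    1 + (y + L) ≤ (x + y + 2) * L := by
  nlinarith [mul_nonneg hy (sub_nonneg.2 hL), mul_nonneg hx (by linarith : 0 ≤ L)]

theorem el9 {k b q : ℝ} (hk : 0 ≤ k) (hb : 0 ≤ b) (hq : 1 ≤ q) : b ≤ (k + b) * q := by
  nlinarith [mul_nonneg hb (sub_nonneg.2 hq), mul_nonneg hk (by linarith : 0 ≤ q)]

theorem el10 {k b q : ℝ} (hb : 0 ≤ b) (hq : 0 ≤ q) : k * q ≤ (k + b) * q := by
  nlinarith [mul_nonneg hb hq]

theorem el11 {Q c z : ℝ} (hc : 0 < c) : Q * z - c * z ^ 2 ≤ Q ^ 2 / (4 * c) := by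
  rw [le_div_iff₀ (by positivity)]
  nlinarith [sq_nonneg (Q - 2 * c * z)]

theorem el12 {y e : ℝ} (h : e = |y|) : 1 + y ^ 2 ≤ (e + 3) ^ 2 := by
  have := abs_nonneg y
  rw [← sq_abs y, ← h]
  rw [← h] at this
  nlinarith

theorem el13 {p e r : ℝ} (hp : 0 ≤ p) (he : 0 ≤ e) (hr : 0 < r) :
    (1 + 2 * p * e) / r ≤ (1 + (1 + 2 * p) / r) * (e + 3) := by
  have h6 : (1 + 2 * p * e) / r ≤ (1 + 2 * p) / r * (e + 3) := by
    rw [div_mul_eq_mul_div]
    apply div_le_div_of_nonneg_right _ hr.le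
    nlinarith [mul_nonneg hp he]
  linarith

theorem Ord_dist {s : ℂ} {V : ℝ} (hs : s.re = 1 / 2 + 1 / V) (γ : ℝ) :
    1 / V ≤ ‖s - ⟨1 / 2, γ⟩‖ := by
  have h := Complex.abs_re_le_norm (s - ⟨1 / 2, γ⟩)
  rw [Complex.sub_re, hs] at h
  have h2 : (1 / 2 + 1 / V - 1 / 2 : ℝ) = 1 / V := by ring
  simp only at h
  rw [h2] at h
  exact (le_abs_self _).trans h

/-- The terms with `m ≠ 0`. -/
theorem uni (hLow : S_LOW2) (hRH : RiemannHypothesis) {α : ℝ} (hG : Gen α) {g : ℝ}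
    (hg : g ∈ Ord) : ∃ B : ℝ, 0 ≤ B ∧ ∀ V : ℝ, 2 < V → ∀ η : ℝ, ∀ m : ℤ, m ≠ 0 →
      ‖GG ⟨1 / 2 + 1 / V, g - 2 * Real.pi * η / V - 2 * Real.pi * m * α⟩‖ ≤
        Real.exp (B * (Ly η ^ 4 + |(m : ℝ)| ^ (1 / 3 : ℝ))) := by
  obtain ⟨K, hK, hlow⟩ := hLow
  obtain ⟨c₀, hc₀, hc⟩ := hG g hg
  set c : ℝ := min c₀ 1 with hcdef
  have hcpos : 0 < c := lt_min hc₀ one_pos
  have hc1 : c ≤ 1 := min_le_right _ _
  have hpi := Real.pi_pos
  have hpi3 := Real.pi_gt_three
  set D : ℝ := |g| + 2 * Real.pi + 2 * Real.pi * |α| + 3 with hD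
  have hD1 : 1 ≤ D := by
    have : 0 ≤ |g| + 2 * Real.pi + 2 * Real.pi * |α| := by positivity
    linarith
  have hD0 : 0 < D := by linarith
  set L₀ : ℝ := Real.log (4 * Real.pi / c) with hL₀
  have hL₀0 : 0 ≤ L₀ := Real.log_nonneg (by rw [le_div_iff₀ hcpos]; linarith)
  have hLD0 : 0 ≤ Real.log D := Real.log_nonneg hD1
  set A : ℝ := Real.log D + L₀ + 14 with hA
  have hA0 : 0 < A := by linarith
  refine ⟨K * A ^ 2 * 4, by positivity, fun V hV η m hm => ?_⟩
  have hV0 : (0 : ℝ) < V := by linarith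
  have h1V : (0 : ℝ) < 1 / V := by positivity
  have h1V2 : 1 / V < 1 / 2 := one_div_lt_one_div_of_lt (by norm_num) hV
  set x : ℝ := |(m : ℝ)| with hx
  have hx1 : 1 ≤ x := by
    have h1 : (1 : ℤ) ≤ |m| := Int.one_le_abs hm
    have h2 : ((1 : ℤ) : ℝ) ≤ ((|m| : ℤ) : ℝ) := by exact_mod_cast h1
    simpa [hx] using h2
  have hx0 : 0 < x := by linarith
  set q : ℝ := x ^ (1 / 12 : ℝ) with hq
  have hq1 : 1 ≤ q := Real.one_le_rpow hx1 (by norm_num)
  have hq3 : q4 m = q ^ 3 := by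
    unfold q4
    rw [hq, ← Real.rpow_natCast, ← Real.rpow_mul hx0.le]
    norm_num
    rfl
  have hq4 : x ^ (1 / 3 : ℝ) = q ^ 4 := by
    rw [hq, ← Real.rpow_natCast, ← Real.rpow_mul hx0.le]
    norm_num
  have hL1 := Ly_one η
  set L : ℝ := Ly η with hL
  set t : ℝ := g - 2 * Real.pi * η / V - 2 * Real.pi * m * α with ht
  have hηV : |2 * Real.pi * η / V| ≤ 2 * Real.pi * |η| := by
    rw [abs_div, abs_mul, abs_of_pos (by positivity : (0 : ℝ) < 2 * Real.pi), abs_of_pos hV0,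
      div_le_iff₀ hV0]
    exact el5 (by linarith) hpi.le (abs_nonneg _)
  -- the logarithm of the height
  have e1 : Real.log (|t| + 3) ≤ A * (L + q) := by
    have h1 : |t| ≤ |g| + 2 * Real.pi * |η| + 2 * Real.pi * |α| * x := by
      have h2 : |2 * Real.pi * m * α| = 2 * Real.pi * |α| * x := by
        rw [abs_mul, abs_mul, abs_of_pos (by positivity : (0 : ℝ) < 2 * Real.pi), hx]
        ring
      rw [ht]
      calc |g - 2 * Real.pi * η / V - 2 * Real.pi * m * α| ≤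
            |g - 2 * Real.pi * η / V| + |2 * Real.pi * m * α| := abs_sub _ _
        _ ≤ |g| + |2 * Real.pi * η / V| + |2 * Real.pi * m * α| := by
            have := abs_sub g (2 * Real.pi * η / V)
            linarith
        _ ≤ _ := by
            rw [h2]
            linarith
    have h3 : |t| + 3 ≤ D * (|η| + 3) * x := by
      have hη := abs_nonneg η
      have hα := abs_nonneg α
      have hg0 := abs_nonneg g
      have h4 : 2 * Real.pi * |α| * x ≤ 2 * Real.pi * |α| * (|η| + 3) * x :=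
        el4 hx1 hη (by positivity)
      have h5 : |g| + 2 * Real.pi * |η| + 3 ≤ (|g| + 2 * Real.pi + 3) * (|η| + 3) :=
        el3 hg0 hpi.le hη
      have h6 : |g| + 2 * Real.pi * |η| + 3 ≤ (|g| + 2 * Real.pi + 3) * (|η| + 3) * x :=
        h5.trans (le_mul_of_one_le_right (by positivity) hx1)
      calc |t| + 3 ≤ (|g| + 2 * Real.pi * |η| + 3) + 2 * Real.pi * |α| * x := by linarith
        _ ≤ (|g| + 2 * Real.pi + 3) * (|η| + 3) * x + 2 * Real.pi * |α| * (|η| + 3) * x := by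
            linarith
        _ = D * (|η| + 3) * x := by rw [hD]; ring
    have h7 : Real.log (|t| + 3) ≤ Real.log D + L + 12 * q := by
      have h8 := Real.log_le_log (by positivity) h3
      rw [Real.log_mul (by positivity) (by positivity), Real.log_mul (by positivity)
        (by positivity)] at h8
      have h9 := Real.log_le_rpow_div hx0.le (show (0 : ℝ) < 1 / 12 by norm_num)
      have h10 : x ^ (1 / 12 : ℝ) / (1 / 12) = 12 * q := by rw [hq]; ring
      rw [h10] at h9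
      have h11 : Real.log (|η| + 3) = L := rfl
      rw [h11] at h8
      linarith
    refine h7.trans ?_
    have h12 : Real.log D + L + 12 * q ≤ (Real.log D + 14) * (L + q) := el1 hLD0 hL1 hq1
    refine h12.trans ?_
    have : Real.log D + 14 ≤ A := by linarith
    exact mul_le_mul_of_nonneg_right this (by linarith)
  -- the distance
  have hexp1 : Real.exp (-q4 m) ≤ 1 := by
    rw [Real.exp_le_one_iff, neg_nonpos, hq3]
    positivity
  have hexp0 := Real.exp_pos (-q4 m)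
  obtain ⟨d, hd0, hd1, hdist, hdlog⟩ : ∃ d : ℝ, 0 < d ∧ d ≤ 1 ∧
      (∀ γ ∈ Ord, d ≤ ‖(⟨1 / 2 + 1 / V, t⟩ : ℂ) - ⟨1 / 2, γ⟩‖) ∧
      Real.log (1 / d) ≤ L₀ + L + q ^ 3 := by
    by_cases hcase : |2 * Real.pi * η / V| ≤ c / 2 * Real.exp (-q4 m)
    · refine ⟨c / 2 * Real.exp (-q4 m), by positivity, el6 hcpos hc1 hexp0 hexp1,
        fun γ hγ => ?_, ?_⟩
      · have h1 := hc γ hγ m hm
        have h2 : c * Real.exp (-q4 m) ≤ c₀ * Real.exp (-q4 m) :=
          mul_le_mul_of_nonneg_right (min_le_left _ _) hexp0.le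
        have h3 : |g - γ - 2 * Real.pi * m * α| ≤ |t - γ| + |2 * Real.pi * η / V| := by
          have h4 : g - γ - 2 * Real.pi * m * α = (t - γ) + 2 * Real.pi * η / V := by
            rw [ht]
            ring
          rw [h4]
          exact abs_add_le _ _
        have h5 := Complex.abs_im_le_norm ((⟨1 / 2 + 1 / V, t⟩ : ℂ) - ⟨1 / 2, γ⟩)
        have h6 : ((⟨1 / 2 + 1 / V, t⟩ : ℂ) - ⟨1 / 2, γ⟩).im = t - γ := by simp
        rw [h6] at h5
        linarith
      · have h1 : 1 / (c / 2 * Real.exp (-q4 m)) = (2 / c) * Real.exp (q4 m) := by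
          rw [Real.exp_neg]
          field_simp
        rw [h1, Real.log_mul (by positivity) (Real.exp_pos _).ne', Real.log_exp, hq3]
        have h2 : Real.log (2 / c) ≤ L₀ := by
          apply Real.log_le_log (by positivity)
          gcongr
          linarith
        linarith
    · rw [not_le] at hcase
      refine ⟨1 / V, h1V, by linarith, fun γ _ => Ord_dist rfl γ, ?_⟩
      rw [one_div_one_div]
      have h1 : V ≤ (4 * Real.pi / c) * (|η| + 3) * Real.exp (q4 m) := by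
        rw [abs_div, abs_mul, abs_of_pos (by positivity : (0 : ℝ) < 2 * Real.pi),
          abs_of_pos hV0, lt_div_iff₀ hV0] at hcase
        have h2 : V = (c / 2 * Real.exp (-q4 m) * V) * ((2 / c) * Real.exp (q4 m)) := by
          have h3 : Real.exp (-q4 m) * Real.exp (q4 m) = 1 := by
            rw [← Real.exp_add]
            simp
          have h4 : (c / 2 * Real.exp (-q4 m) * V) * ((2 / c) * Real.exp (q4 m)) =
              (c / 2 * (2 / c)) * V * (Real.exp (-q4 m) * Real.exp (q4 m)) := by ring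
          rw [h4, h3]
          field_simp
        rw [h2]
        have h5 : 0 < (2 / c) * Real.exp (q4 m) := by positivity
        calc (c / 2 * Real.exp (-q4 m) * V) * ((2 / c) * Real.exp (q4 m)) ≤
              (2 * Real.pi * |η|) * ((2 / c) * Real.exp (q4 m)) :=
              mul_le_mul_of_nonneg_right hcase.le h5.le
          _ ≤ (2 * Real.pi * (|η| + 3)) * ((2 / c) * Real.exp (q4 m)) := by
              refine mul_le_mul_of_nonneg_right ?_ h5.le
              exact mul_le_mul_of_nonneg_left (by linarith) (by positivity)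
          _ = _ := by ring
      have h6 := Real.log_le_log hV0 h1
      rw [Real.log_mul (by positivity) (Real.exp_pos _).ne', Real.log_exp,
        Real.log_mul (by positivity) (by positivity), hq3] at h6
      exact h6
  have e2 : 1 + Real.log (1 / d) ≤ A * (L + q ^ 3) := by
    have hq31 : 1 ≤ q ^ 3 := one_le_pow₀ hq1
    have h1 : 1 + (L₀ + L + q ^ 3) ≤ (L₀ + 2) * (L + q ^ 3) := el2 hL₀0 hL1 hq31
    have h2 : (L₀ + 2) * (L + q ^ 3) ≤ A * (L + q ^ 3) :=
      mul_le_mul_of_nonneg_right (by linarith) (by linarith)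
    linarith
  have e3 : 0 ≤ 1 + Real.log (1 / d) := by
    have := Real.log_nonneg (show 1 ≤ 1 / d by rw [le_div_iff₀ hd0]; linarith)
    linarith
  refine (hlow hRH t (1 / 2 + 1 / V) d (by linarith) (by linarith) hd0 hd1 hdist).trans
    (Real.exp_le_exp.2 ?_)
  rw [hq4]
  have e4 := quart hL1 hq1
  calc K * Real.log (|t| + 3) * (1 + Real.log (1 / d)) ≤
        K * (A * (L + q)) * (A * (L + q ^ 3)) := by
        refine mul_le_mul (mul_le_mul_of_nonneg_left e1 hK.le) e2 e3 ?_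
        have : 0 ≤ L + q := by linarith
        positivity
    _ = K * A ^ 2 * ((L + q) * (L + q ^ 3)) := by ring
    _ ≤ K * A ^ 2 * (4 * (L ^ 4 + q ^ 4)) := mul_le_mul_of_nonneg_left e4 (by positivity)
    _ = _ := by ring

/-- The term with `m = 0`. -/
theorem uni0 (hLow : S_LOW2) (hRH : RiemannHypothesis) {g : ℝ} {n : ℕ} {r b : ℝ} (hr : 0 < r)
    (hb : 0 < b) (hfac : ∀ s : ℂ, ‖s - ⟨1 / 2, g⟩‖ < r →
      b * ‖s - ⟨1 / 2, g⟩‖ ^ n ≤ ‖s * riemannZeta s‖) :
    ∃ B : ℝ, 0 ≤ B ∧ ∀ V : ℝ, 2 < V → ∀ η : ℝ,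
      ‖GG ⟨1 / 2 + 1 / V, g - 2 * Real.pi * η / V⟩‖ ≤ V ^ n * Real.exp (B * Ly η ^ 4) := by
  obtain ⟨K, hK, hlow⟩ := hLow
  have hpi := Real.pi_pos
  set D : ℝ := |g| + 2 * Real.pi + 3 with hD
  have hD1 : 1 ≤ D := by
    have : 0 ≤ |g| + 2 * Real.pi := by positivity
    linarith
  have hD0 : 0 < D := by linarith
  have hLD0 : 0 ≤ Real.log D := Real.log_nonneg hD1
  set L₀ : ℝ := Real.log (1 + (1 + 2 * Real.pi) / r) with hL₀
  have hL₀0 : 0 ≤ L₀ := Real.log_nonneg (by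
    have : 0 < (1 + 2 * Real.pi) / r := by positivity
    linarith)
  set A : ℝ := Real.log D + L₀ + 2 with hA
  have hA0 : 0 < A := by linarith
  set B₁ : ℝ := Real.log (1 + 1 / b) with hB₁
  have hB₁0 : 0 ≤ B₁ := Real.log_nonneg (by
    have : 0 < 1 / b := by positivity
    linarith)
  refine ⟨K * A ^ 2 + B₁, by positivity, fun V hV η => ?_⟩
  have hV0 : (0 : ℝ) < V := by linarith
  have hV1 : (1 : ℝ) ≤ V := by linarith
  have h1V : (0 : ℝ) < 1 / V := by positivity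
  have h1V2 : 1 / V < 1 / 2 := one_div_lt_one_div_of_lt (by norm_num) hV
  have hL1 := Ly_one η
  set L : ℝ := Ly η with hL
  have hL4 : 1 ≤ L ^ 4 := one_le_pow₀ hL1
  have hL24 : L ^ 2 ≤ L ^ 4 := pow_le_pow_right₀ hL1 (by norm_num)
  set t : ℝ := g - 2 * Real.pi * η / V with ht
  have hVn : 1 ≤ V ^ n := one_le_pow₀ hV1
  by_cases hcase : ‖(⟨1 / 2 + 1 / V, t⟩ : ℂ) - ⟨1 / 2, g⟩‖ < r
  · have h1 := hfac _ hcase
    have h2 : 1 / V ≤ ‖(⟨1 / 2 + 1 / V, t⟩ : ℂ) - ⟨1 / 2, g⟩‖ := Ord_dist rfl g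
    have h3 : b * (1 / V) ^ n ≤ ‖(⟨1 / 2 + 1 / V, t⟩ : ℂ) * riemannZeta ⟨1 / 2 + 1 / V, t⟩‖ :=
      (mul_le_mul_of_nonneg_left (pow_le_pow_left₀ h1V.le h2 n) hb.le).trans h1
    have h4 : ‖GG ⟨1 / 2 + 1 / V, t⟩‖ ≤ V ^ n * (1 / b) := by
      unfold GG
      rw [norm_inv]
      refine (inv_anti₀ (by positivity) h3).trans (le_of_eq ?_)
      rw [one_div, inv_pow]
      field_simp
    refine h4.trans (mul_le_mul_of_nonneg_left ?_ (by positivity))
    calc 1 / b ≤ 1 + 1 / b := by linarith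
      _ = Real.exp B₁ := by rw [hB₁, Real.exp_log (by positivity)]
      _ ≤ _ := by
        exact Real.exp_le_exp.2 (el9 (by positivity) hB₁0 hL4)
  · rw [not_lt] at hcase
    have hηV : |2 * Real.pi * η / V| ≤ 2 * Real.pi * |η| / V := by
      rw [abs_div, abs_mul, abs_of_pos (by positivity : (0 : ℝ) < 2 * Real.pi), abs_of_pos hV0]
    have hη := abs_nonneg η
    have h1 : ‖(⟨1 / 2 + 1 / V, t⟩ : ℂ) - ⟨1 / 2, g⟩‖ ≤ 1 / V + 2 * Real.pi * |η| / V := by
      refine (Complex.norm_le_abs_re_add_abs_im _).trans ?_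
      have h2 : ((⟨1 / 2 + 1 / V, t⟩ : ℂ) - ⟨1 / 2, g⟩).re = 1 / V := by simp
      have h3 : ((⟨1 / 2 + 1 / V, t⟩ : ℂ) - ⟨1 / 2, g⟩).im = -(2 * Real.pi * η / V) := by
        simp [ht]
      rw [h2, h3, abs_neg, abs_of_pos h1V]
      linarith
    have h2 : V ≤ (1 + (1 + 2 * Real.pi) / r) * (|η| + 3) := by
      have h3 := hcase.trans h1
      have h4 : 1 / V + 2 * Real.pi * |η| / V = (1 + 2 * Real.pi * |η|) / V := by ring
      rw [h4, le_div_iff₀ hV0] at h3
      have h5 : V ≤ (1 + 2 * Real.pi * |η|) / r := by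
        rw [le_div_iff₀ hr]
        linarith
      exact h5.trans (el13 hpi.le hη hr)
    have h3 : Real.log V ≤ L₀ + L := by
      have h4 := Real.log_le_log hV0 h2
      rwa [Real.log_mul (by positivity) (by positivity)] at h4
    have h4 : Real.log (|t| + 3) ≤ Real.log D + L := by
      have h5 : |t| + 3 ≤ D * (|η| + 3) := by
        have h6 : |t| ≤ |g| + |2 * Real.pi * η / V| := abs_sub _ _
        have h7 : 2 * Real.pi * |η| / V ≤ 2 * Real.pi * |η| := by
          rw [div_le_iff₀ hV0]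
          exact el5 hV1 hpi.le hη
        have h8 := el3 (abs_nonneg g) hpi.le hη
        rw [hD]
        linarith
      have h6 := Real.log_le_log (by positivity) h5
      rwa [Real.log_mul (by positivity) (by positivity)] at h6
    have h5 := hlow hRH t (1 / 2 + 1 / V) (1 / V) (by linarith) (by linarith) h1V (by linarith)
      (fun γ _ => Ord_dist rfl γ)
    rw [one_div_one_div] at h5
    have hlogV : 0 ≤ Real.log V := Real.log_nonneg hV1
    refine h5.trans ?_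
    have h6 : K * Real.log (|t| + 3) * (1 + Real.log V) ≤ (K * A ^ 2 + B₁) * L ^ 4 := by
      have h7 : Real.log (|t| + 3) ≤ A * L := h4.trans (el7 hLD0 hL₀0 hL1)
      have h8 : 1 + Real.log V ≤ A * L := by
        have := el8 hLD0 hL₀0 hL1
        linarith
      calc K * Real.log (|t| + 3) * (1 + Real.log V) ≤ K * (A * L) * (A * L) := by
            refine mul_le_mul (mul_le_mul_of_nonneg_left h7 hK.le) h8 (by linarith) ?_
            positivity
        _ = K * A ^ 2 * L ^ 2 := by ring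
        _ ≤ K * A ^ 2 * L ^ 4 := mul_le_mul_of_nonneg_left hL24 (by positivity)
        _ ≤ _ := el10 hB₁0 (by positivity)
    calc Real.exp (K * Real.log (|t| + 3) * (1 + Real.log V)) ≤
          Real.exp ((K * A ^ 2 + B₁) * L ^ 4) := Real.exp_le_exp.2 h6
      _ ≤ _ := le_mul_of_one_le_left (Real.exp_pos _).le hVn

/-- The majorant is integrable. -/
theorem major {C c : ℝ} (hc : 0 < c) (B : ℝ) :
    ∃ D : ℝ, 0 ≤ D ∧ ∀ y : ℝ, C * Real.exp (-(c * |y| ^ (1 / 2 : ℝ))) * Real.exp (B * Ly y ^ 4) ≤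
      D * (1 + y ^ 2)⁻¹ := by
  set B' : ℝ := |B| with hB'
  set Q : ℝ := 65536 * B' + 32 with hQ
  refine ⟨|C| * Real.exp (Q ^ 2 / (4 * c) + 2 * c), by positivity, fun y => ?_⟩
  have hy := abs_nonneg y
  set z : ℝ := (|y| + 3) ^ (1 / 4 : ℝ) with hz
  have hz1 : 1 ≤ z := Real.one_le_rpow (by linarith) (by norm_num)
  have hp : ∀ p : ℝ, 0 < p → Ly y ≤ (|y| + 3) ^ p / p := fun p hp =>
    Real.log_le_rpow_div (by positivity) hp
  have h1 : Ly y ^ 4 ≤ 65536 * z := by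
    have h2 := hp (1 / 16) (by norm_num)
    have h3 := pow_le_pow_left₀ (by linarith [Ly_one y]) h2 4
    have h4 : ((|y| + 3) ^ (1 / 16 : ℝ) / (1 / 16)) ^ 4 = 65536 * z := by
      rw [div_pow, ← Real.rpow_natCast, ← Real.rpow_mul (by positivity), hz]
      norm_num
      ring
    rwa [h4] at h3
  have h2 : Real.log (1 + y ^ 2) ≤ 32 * z := by
    have h3 : 1 + y ^ 2 ≤ (|y| + 3) ^ 2 := el12 rfl
    have h4 := Real.log_le_log (by positivity) h3
    rw [Real.log_pow] at h4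
    have h5 : Ly y ≤ 4 * z := by
      have := hp (1 / 4) (by norm_num)
      rw [← hz] at this
      linarith
    have h6 : Real.log (|y| + 3) = Ly y := rfl
    rw [h6] at h4
    push_cast at h4
    linarith
  have h3 : z ^ 2 - 2 ≤ |y| ^ (1 / 2 : ℝ) := by
    have h4 : z ^ 2 = (|y| + 3) ^ (1 / 2 : ℝ) := by
      rw [hz, ← Real.rpow_natCast, ← Real.rpow_mul (by positivity)]
      norm_num
    rw [h4, ← Real.sqrt_eq_rpow, ← Real.sqrt_eq_rpow]
    have h5 : Real.sqrt (|y| + 3) ≤ Real.sqrt |y| + Real.sqrt 3 := by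
      refine Real.sqrt_le_iff.2 ⟨by positivity, ?_⟩
      have h6 := Real.sq_sqrt hy
      have h7 := Real.sq_sqrt (show (0 : ℝ) ≤ 3 by norm_num)
      have h8 : 0 ≤ Real.sqrt |y| * Real.sqrt 3 := by positivity
      have h9 : (Real.sqrt |y| + Real.sqrt 3) ^ 2 = Real.sqrt |y| ^ 2 +
        2 * (Real.sqrt |y| * Real.sqrt 3) + Real.sqrt 3 ^ 2 := by ring
      rw [h9, h6, h7]
      linarith
    have h6 : Real.sqrt 3 ≤ 2 := by
      rw [Real.sqrt_le_left (by norm_num)]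
      norm_num
    linarith
  have h4 : B * Ly y ^ 4 + Real.log (1 + y ^ 2) - c * |y| ^ (1 / 2 : ℝ) ≤
      Q ^ 2 / (4 * c) + 2 * c := by
    have h5 : B * Ly y ^ 4 ≤ B' * (65536 * z) := by
      have h6 : B * Ly y ^ 4 ≤ B' * Ly y ^ 4 :=
        mul_le_mul_of_nonneg_right (le_abs_self _) (by positivity)
      exact h6.trans (mul_le_mul_of_nonneg_left h1 (abs_nonneg _))
    have h7 : c * (z ^ 2 - 2) ≤ c * |y| ^ (1 / 2 : ℝ) := mul_le_mul_of_nonneg_left h3 hc.le
    have h8 : Q * z - c * z ^ 2 ≤ Q ^ 2 / (4 * c) := el11 hc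
    have h9 : Q * z = B' * (65536 * z) + 32 * z := by rw [hQ]; ring
    have h10 : c * (z ^ 2 - 2) = c * z ^ 2 - 2 * c := by ring
    rw [h10] at h7
    rw [h9] at h8
    linarith
  have h5 : Real.exp (-(c * |y| ^ (1 / 2 : ℝ))) * Real.exp (B * Ly y ^ 4) ≤
      Real.exp (Q ^ 2 / (4 * c) + 2 * c) * (1 + y ^ 2)⁻¹ := by
    have h6 : (1 + y ^ 2)⁻¹ = Real.exp (-Real.log (1 + y ^ 2)) := by
      rw [Real.exp_neg, Real.exp_log (by positivity)]
    rw [h6, ← Real.exp_add, ← Real.exp_add]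
    apply Real.exp_le_exp.2
    linarith
  calc C * Real.exp (-(c * |y| ^ (1 / 2 : ℝ))) * Real.exp (B * Ly y ^ 4) ≤
        |C| * (Real.exp (-(c * |y| ^ (1 / 2 : ℝ))) * Real.exp (B * Ly y ^ 4)) := by
        rw [mul_assoc]
        exact mul_le_mul_of_nonneg_right (le_abs_self _) (by positivity)
    _ ≤ |C| * (Real.exp (Q ^ 2 / (4 * c) + 2 * c) * (1 + y ^ 2)⁻¹) :=
        mul_le_mul_of_nonneg_left h5 (abs_nonneg _)
    _ = _ := by ring

end Pool.Agent.P8H97.GW
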