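import Pool.Agent.P8H97.GW.N1

/-!
# Project GW, the form with infinitely many `K`: the smooth cutoff
-/

set_option autoImplicit false

open MeasureTheory Filter Topology Set Complex FourierTransform

namespace Pool.Agent.P8H97.GW

/-- A bump on `(0, 1)` and its Fourier transform. -/
structure Cut (χ : ℝ → ℝ) (Fh : ℝ → ℂ) : Prop where
  cont : Continuous χ
  nn : ∀ x, 0 ≤ χ x
  le1 : ∀ x, χ x ≤ 1
  supp : ∀ x, χ x ≠ 0 → 0 < x ∧ x < 1
  pos : ∀ x, 0 < x → x < 1 → 0 < χ x
  Fc : Continuous Fh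
  Fint : ∀ B : ℝ, Integrable (fun η => ‖Fh η‖ * Real.exp (B * Ly η ^ 4))
  inv : ∀ x : ℝ, ((χ x : ℝ) : ℂ) = ∫ η : ℝ, Fh η * cexp (2 * Real.pi * η * x * I)

theorem cut_of_gev (h : S_GEV) : ∃ χ Fh, Cut χ Fh := by
  obtain ⟨χ, hc, hnn, hle, hs, hp, C, c, hc0, hb⟩ := h
  have hpi3 := Real.pi_gt_three
  set f : ℝ → ℂ := fun x => ((χ x : ℝ) : ℂ) with hf
  have hfc : Continuous f := Complex.continuous_ofReal.comp hc
  have hcs : HasCompactSupport f := by
    refine HasCompactSupport.intro (K := Icc 0 1) isCompact_Icc fun x hx => ?_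
    by_contra hne
    have h1 : χ x ≠ 0 := by
      intro h0
      apply hne
      simp [hf, h0]
    obtain ⟨h2, h3⟩ := hs x h1
    exact hx ⟨h2.le, h3.le⟩
  have hfi : Integrable f := hfc.integrable_of_hasCompactSupport hcs
  have hFc : Continuous (𝓕 f) :=
    VectorFourier.fourierIntegral_continuous Real.continuous_fourierChar
      (innerSL ℝ).continuous₂ hfi
  have hFb : ∀ η : ℝ, ‖𝓕 f η‖ ≤ C * Real.exp (-(c * |η| ^ (1 / 2 : ℝ))) := by
    intro η
    have h1 : 𝓕 f η = ∫ x : ℝ, ((χ x : ℝ) : ℂ) * cexp (-(((2 * Real.pi * η : ℝ) : ℂ) * x * I)) := by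
      rw [Real.fourier_real_eq_integral_exp_smul]
      congr 1
      funext x
      rw [smul_eq_mul, mul_comm]
      congr 2
      push_cast
      ring
    rw [h1]
    have hC : 0 ≤ C := by
      have := (norm_nonneg _).trans (hb 0)
      simpa using this
    refine (hb (2 * Real.pi * η)).trans (mul_le_mul_of_nonneg_left ?_ hC)
    apply Real.exp_le_exp.2
    apply neg_le_neg
    apply mul_le_mul_of_nonneg_left _ hc0.le
    apply Real.rpow_le_rpow (abs_nonneg _) _ (by norm_num)
    rw [abs_mul, abs_of_pos (by positivity : (0 : ℝ) < 2 * Real.pi)]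
    have := abs_nonneg η
    nlinarith
  have hFint : ∀ B : ℝ, Integrable (fun η => ‖𝓕 f η‖ * Real.exp (B * Ly η ^ 4)) := by
    intro B
    obtain ⟨D, hD, hmaj⟩ := major (C := C) hc0 B
    refine (integrable_inv_one_add_sq.const_mul D).mono' ?_ (Eventually.of_forall fun η => ?_)
    · exact (hFc.norm.mul (Real.continuous_exp.comp
        ((Ly_cont.pow 4).const_mul B))).aestronglyMeasurable
    · rw [Real.norm_eq_abs, abs_of_nonneg (by positivity)]
      exact (mul_le_mul_of_nonneg_right (hFb η) (Real.exp_pos _).le).trans (hmaj η)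
  have hFi : Integrable (𝓕 f) := by
    have := hFint 0
    simp only [zero_mul, Real.exp_zero, mul_one] at this
    exact (integrable_norm_iff hFc.aestronglyMeasurable).1 this
  refine ⟨χ, 𝓕 f, hc, hnn, hle, hs, hp, hFc, hFint, fun x => ?_⟩
  have h1 := congrFun (hfc.fourierInv_fourier_eq hfi hFi) x
  have h2 : f x = ((χ x : ℝ) : ℂ) := rfl
  rw [← h2, ← h1, Real.fourierInv_eq']
  congr 1
  funext η
  rw [smul_eq_mul, mul_comm]
  congr 2
  simp only [RCLike.inner_apply, conj_trivial]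
  push_cast
  ring

section fub

variable {χ : ℝ → ℝ} {Fh : ℝ → ℂ}

theorem Cut.Fi (hC : Cut χ Fh) : Integrable Fh := by
  have := hC.Fint 0
  simp only [zero_mul, Real.exp_zero, mul_one] at this
  exact (integrable_norm_iff hC.Fc.aestronglyMeasurable).1 this

theorem norm_char (x y : ℝ) : ‖cexp (2 * Real.pi * x * y * I)‖ = 1 := by
  have : (2 * Real.pi * x * y * I : ℂ) = ((2 * Real.pi * x * y : ℝ) : ℂ) * I := by push_cast; ring
  rw [this, Complex.norm_exp_ofReal_mul_I]

theorem fub (hC : Cut χ Fh) {F : ℝ → ℂ} (hF : IntegrableOn F (Ioi 0)) (V : ℝ) :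
    Integrable (fun η : ℝ => Fh η * ∫ v in Ioi (0 : ℝ), F v *
      cexp (2 * Real.pi * η * ((v / V : ℝ) : ℂ) * I)) ∧
    ∫ v in Ioi (0 : ℝ), F v * ((χ (v / V) : ℝ) : ℂ) =
      ∫ η : ℝ, Fh η * ∫ v in Ioi (0 : ℝ), F v *
        cexp (2 * Real.pi * η * ((v / V : ℝ) : ℂ) * I) := by
  have h1 : Integrable (fun p : ℝ × ℝ => F p.1 * Fh p.2)
      ((volume.restrict (Ioi 0)).prod volume) := Integrable.mul_prod hF hC.Fi
  have h2 : Integrable (fun p : ℝ × ℝ => (F p.1 * Fh p.2) *
      cexp (2 * Real.pi * p.2 * ((p.1 / V : ℝ) : ℂ) * I))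
      ((volume.restrict (Ioi 0)).prod volume) := by
    refine h1.mul_bdd (c := 1) (by fun_prop) (Eventually.of_forall fun p => ?_)
    rw [norm_char]
  have e1 : ∀ η : ℝ, Fh η * ∫ v in Ioi (0 : ℝ), F v *
      cexp (2 * Real.pi * η * ((v / V : ℝ) : ℂ) * I) = ∫ v in Ioi (0 : ℝ), (F v * Fh η) *
        cexp (2 * Real.pi * η * ((v / V : ℝ) : ℂ) * I) := by
    intro η
    rw [← integral_const_mul]
    congr 1
    funext v
    ring
  constructor
  · simp_rw [e1]
    exact h2.integral_prod_right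
  · simp_rw [e1]
    have h3 := integral_integral_swap (f := fun v η : ℝ => (F v * Fh η) *
      cexp (2 * Real.pi * η * ((v / V : ℝ) : ℂ) * I)) (μ := volume.restrict (Ioi 0))
      (ν := volume) h2
    rw [← h3]
    congr 1
    funext v
    rw [hC.inv (v / V), ← integral_const_mul]
    congr 1
    funext η
    ring

/-- The moments of the bump. -/
noncomputable def JJ (χ : ℝ → ℝ) (n : ℕ) : ℝ :=
  ∫ x in Ioi (0 : ℝ), (x ^ (n - 1) / ((n - 1).factorial : ℝ) * Real.exp (-x)) * χ x

theorem pow_exp_int (n : ℕ) :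
    IntegrableOn (fun x : ℝ => x ^ (n - 1) / ((n - 1).factorial : ℝ) * Real.exp (-x)) (Ioi 0) := by
  have h1 := Real.GammaIntegral_convergent (s := ((n - 1 : ℕ) : ℝ) + 1) (by positivity)
  have h2 := h1.div_const ((n - 1).factorial : ℝ)
  refine h2.congr ?_
  refine (ae_restrict_mem measurableSet_Ioi).mono fun x _ => ?_
  simp only
  rw [add_sub_cancel_right, Real.rpow_natCast]
  ring

theorem gam_norm (r : ℂ) (hr : r.re = 1) (k : ℕ) {x : ℝ} (hx : 0 < x) :
    ‖((x ^ k / (k.factorial : ℝ) : ℝ) : ℂ) * cexp (-(r * x))‖ =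
      x ^ k / (k.factorial : ℝ) * Real.exp (-x) := by
  rw [norm_mul, Complex.norm_real, Real.norm_eq_abs, abs_of_nonneg (by positivity),
    Complex.norm_exp]
  congr 2
  simp [hr]

theorem gam_int (r : ℂ) (hr : r.re = 1) (k : ℕ) :
    IntegrableOn (fun x : ℝ => ((x ^ k / (k.factorial : ℝ) : ℝ) : ℂ) * cexp (-(r * x)))
      (Ioi 0) := by
  refine (pow_exp_int (k + 1)).mono' (by fun_prop) ?_
  refine (ae_restrict_mem measurableSet_Ioi).mono fun x hx => ?_
  rw [gam_norm r hr k hx]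
  simp

theorem gam (r : ℂ) (hr : r.re = 1) (k : ℕ) :
    ∫ x in Ioi (0 : ℝ), ((x ^ k / (k.factorial : ℝ) : ℝ) : ℂ) * cexp (-(r * x)) =
      1 / r ^ (k + 1) := by
  have hr0 : r ≠ 0 := by
    intro h
    rw [h] at hr
    simp at hr
  induction k with
  | zero =>
    have h := integral_exp_mul_complex_Ioi (a := -r) (by simp [hr]) 0
    simp only [Complex.ofReal_zero, mul_zero, Complex.exp_zero] at h
    simp only [pow_zero, Nat.factorial_zero, Nat.cast_one, div_one, Complex.ofReal_one, one_mul,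
      zero_add, pow_one]
    have e : (fun x : ℝ => cexp (-(r * x))) = fun x : ℝ => cexp (-r * x) := by
      funext x
      ring_nf
    rw [e, h]
    field_simp
  | succ k ih =>
    set G : ℝ → ℂ := fun x => -(1 / r) *
      (((x ^ (k + 1) / ((k + 1).factorial : ℝ) : ℝ) : ℂ) * cexp (-(r * x))) with hG
    have hfac : ((k + 1).factorial : ℝ) = (k + 1) * (k.factorial : ℝ) := by
      rw [Nat.factorial_succ]
      push_cast
      ring
    have hk0 : (k.factorial : ℝ) ≠ 0 := by exact_mod_cast Nat.factorial_ne_zero k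
    have hderiv : ∀ x ∈ Ici (0 : ℝ), HasDerivAt G
        (((x ^ (k + 1) / ((k + 1).factorial : ℝ) : ℝ) : ℂ) * cexp (-(r * x)) -
          (1 / r) * (((x ^ k / (k.factorial : ℝ) : ℝ) : ℂ) * cexp (-(r * x)))) x := by
      intro x _
      have h1 : HasDerivAt (fun x : ℝ => ((x ^ (k + 1) / ((k + 1).factorial : ℝ) : ℝ) : ℂ))
          ((x ^ k / (k.factorial : ℝ) : ℝ) : ℂ) x := by
        have h2 : HasDerivAt (fun x : ℝ => x ^ (k + 1) / ((k + 1).factorial : ℝ))
            (x ^ k / (k.factorial : ℝ)) x := by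
          have h3 := (hasDerivAt_pow (k + 1) x).div_const ((k + 1).factorial : ℝ)
          refine h3.congr_deriv ?_
          rw [hfac]
          push_cast
          field_simp
        exact h2.ofReal_comp
      have h4 : HasDerivAt (fun x : ℝ => cexp (-(r * x))) (cexp (-(r * x)) * (-r)) x := by
        have h5 : HasDerivAt (fun x : ℝ => -(r * (x : ℂ))) (-r) x := by
          have := ((hasDerivAt_id (x : ℂ)).const_mul r).neg.comp_ofReal
          simpa using this
        exact h5.cexp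
      have h6 := (h1.mul h4).const_mul (-(1 / r))
      refine h6.congr_deriv ?_
      field_simp
      ring
    have hint1 := gam_int r hr (k + 1)
    have hint2 := gam_int r hr k
    have htend : Tendsto G atTop (𝓝 0) := by
      have h1 : Tendsto (fun x : ℝ => ‖-(1 / r)‖ * (x ^ (k + 1) / ((k + 1).factorial : ℝ) *
          Real.exp (-x))) atTop (𝓝 0) := by
        have h2 := Real.tendsto_pow_mul_exp_neg_atTop_nhds_zero (k + 1)
        have h3 := (h2.div_const ((k + 1).factorial : ℝ)).const_mul ‖-(1 / r)‖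
        rw [zero_div, mul_zero] at h3
        refine h3.congr fun x => ?_
        ring
      refine squeeze_zero_norm' ?_ h1
      filter_upwards [eventually_gt_atTop (0 : ℝ)] with x hx
      rw [hG]
      simp only
      rw [norm_mul, gam_norm r hr (k + 1) hx]
    have h := integral_Ioi_of_hasDerivAt_of_tendsto' hderiv (hint1.sub (hint2.const_mul (1 / r)))
      htend
    have hG0 : G 0 = 0 := by simp [hG]
    rw [hG0, sub_zero] at h
    have h2 := integral_sub hint1 (hint2.const_mul (1 / r))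
    have h3 : ∫ x in Ioi (0 : ℝ), ((((x ^ (k + 1) / ((k + 1).factorial : ℝ) : ℝ) : ℂ) *
        cexp (-(r * x)) - (1 / r) * (((x ^ k / (k.factorial : ℝ) : ℝ) : ℂ) * cexp (-(r * x))))) =
        0 := h
    rw [h3, integral_const_mul, ih] at h2
    have h4 := sub_eq_zero.1 h2.symm
    rw [h4]
    field_simp
    ring

theorem gamma_int {n : ℕ} (hn : 1 ≤ n) (r : ℂ) (hr : r.re = 1) :
    ∫ x in Ioi (0 : ℝ), ((x ^ (n - 1) / ((n - 1).factorial : ℝ) : ℝ) : ℂ) * cexp (-(r * x)) =
      1 / r ^ n := by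
  rw [gam r hr (n - 1), Nat.sub_add_cancel hn]

theorem JJ_eq (hC : Cut χ Fh) {n : ℕ} (hn : 1 ≤ n) :
    Integrable (fun η : ℝ => Fh η * (1 / (1 - 2 * Real.pi * η * I) ^ n)) ∧
    ∫ η : ℝ, Fh η * (1 / (1 - 2 * Real.pi * η * I) ^ n) = ((JJ χ n : ℝ) : ℂ) := by
  set F : ℝ → ℂ := fun x => ((x ^ (n - 1) / ((n - 1).factorial : ℝ) * Real.exp (-x) : ℝ) : ℂ)
    with hF
  have hFi : IntegrableOn F (Ioi 0) := (pow_exp_int n).ofReal
  obtain ⟨h1, h2⟩ := fub hC hFi 1
  have e1 : ∀ η : ℝ, ∫ v in Ioi (0 : ℝ), F v * cexp (2 * Real.pi * η * ((v / 1 : ℝ) : ℂ) * I) =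
      1 / (1 - 2 * Real.pi * η * I) ^ n := by
    intro η
    rw [← gamma_int hn (1 - 2 * Real.pi * η * I) (by simp)]
    congr 1
    funext v
    rw [hF]
    simp only
    have e2 : -((1 - 2 * Real.pi * η * I : ℂ) * v) = ((-v : ℝ) : ℂ) +
        2 * Real.pi * η * ((v / 1 : ℝ) : ℂ) * I := by
      push_cast
      ring
    rw [e2, Complex.exp_add, Complex.ofReal_mul, Complex.ofReal_exp]
    ring
  simp_rw [e1] at h1 h2
  refine ⟨h1, ?_⟩
  rw [← h2, JJ, ← integral_complex_ofReal]
  congr 1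
  funext v
  rw [hF]
  simp

theorem JJ_pos (hC : Cut χ Fh) (n : ℕ) : 0 < JJ χ n := by
  unfold JJ
  have hint : IntegrableOn (fun x : ℝ => (x ^ (n - 1) / ((n - 1).factorial : ℝ) *
      Real.exp (-x)) * χ x) (Ioi 0) := by
    refine (pow_exp_int n).mul_bdd (c := 1) hC.cont.aestronglyMeasurable
      (Eventually.of_forall fun x => ?_)
    rw [Real.norm_eq_abs, abs_of_nonneg (hC.nn x)]
    exact hC.le1 x
  rw [setIntegral_pos_iff_support_of_nonneg_ae _ hint]
  · refine lt_of_lt_of_le ?_ (measure_mono (s := Ioo (0 : ℝ) 1) fun x hx => ?_)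
    · simp
    · refine ⟨?_, hx.1⟩
      rw [Function.mem_support]
      have h1 := hC.pos x hx.1 hx.2
      have h2 : 0 < x := hx.1
      positivity
  · refine (ae_restrict_mem measurableSet_Ioi).mono fun x hx => ?_
    have h1 := hC.nn x
    have h2 : 0 < x := hx
    simp only [Pi.zero_apply]
    positivity

end fub

end Pool.Agent.P8H97.GW
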