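import Pool.Agent.P8H97.GW.N2

/-!
# Project GW, the form with infinitely many `K`: the limits of the transforms
-/

set_option autoImplicit false

open MeasureTheory Filter Topology Set Complex FourierTransform

namespace Pool.Agent.P8H97.GW

/-- The transform with the smooth cutoff. -/
noncomputable def Y2 (w χ : ℝ → ℝ) (V ξ : ℝ) : ℂ :=
  ∫ v in Ioi (0 : ℝ), ((fr v * (w v * Real.exp (-(v / V)) * χ (v / V)) : ℝ) : ℂ) *
    cexp (-(ξ * v * I))

/-- The transform of the window with the smooth cutoff. -/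
noncomputable def X2 (w χ : ℝ → ℝ) (V ξ : ℝ) : ℂ :=
  ∫ v in Ioi (0 : ℝ), ((w v * Real.exp (-(v / V)) * χ (v / V) : ℝ) : ℂ) * cexp (ξ * v * I)

section lims

variable {α : ℝ} {a : ℤ → ℂ} {w χ : ℝ → ℝ} {Fh : ℝ → ℂ}

theorem YF_int (hL : S_LAP) (hRH : RiemannHypothesis) (hwc : Continuous w)
    (h0 : ∀ v, 0 ≤ w v) (h1 : ∀ v, w v ≤ 1) {V : ℝ} (hV : 2 < V) (ξ : ℝ) :
    IntegrableOn (fun v : ℝ => ((fr v * (w v * Real.exp (-(v / V))) : ℝ) : ℂ) *
      cexp (-(ξ * v * I))) (Ioi 0) := by
  refine (Y_int hL hRH hwc h0 h1 hV).ofReal.mul_bdd (c := 1) (by fun_prop)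
    (Eventually.of_forall fun v => ?_)
  have : -((ξ : ℂ) * v * I) = ((-(ξ * v) : ℝ) : ℂ) * I := by push_cast; ring
  rw [this, Complex.norm_exp_ofReal_mul_I]

theorem XF_int (hwc : Continuous w)
    (h0 : ∀ v, 0 ≤ w v) (h1 : ∀ v, w v ≤ 1) {V : ℝ} (hV : 0 < V) (ξ : ℝ) :
    IntegrableOn (fun v : ℝ => ((w v * Real.exp (-(v / V)) : ℝ) : ℂ) *
      cexp (ξ * v * I)) (Ioi 0) := by
  refine (W_int hwc h0 h1 hV).ofReal.mul_bdd (c := 1) (by fun_prop)
    (Eventually.of_forall fun v => ?_)
  have : ((ξ : ℂ) * v * I) = ((ξ * v : ℝ) : ℂ) * I := by push_cast; ring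
  rw [this, Complex.norm_exp_ofReal_mul_I]

theorem Y2_eq (hC : Cut χ Fh) (hL : S_LAP) (hRH : RiemannHypothesis) (hwc : Continuous w)
    (h0 : ∀ v, 0 ≤ w v) (h1 : ∀ v, w v ≤ 1) {V : ℝ} (hV : 2 < V) (ξ : ℝ) :
    Integrable (fun η : ℝ => Fh η * YY w V (ξ - 2 * Real.pi * η / V)) ∧
    Y2 w χ V ξ = ∫ η : ℝ, Fh η * YY w V (ξ - 2 * Real.pi * η / V) := by
  obtain ⟨i1, i2⟩ := fub hC (YF_int hL hRH hwc h0 h1 hV ξ) V
  have e1 : ∀ η : ℝ, ∫ v in Ioi (0 : ℝ), (((fr v * (w v * Real.exp (-(v / V))) : ℝ) : ℂ) *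
      cexp (-(ξ * v * I))) * cexp (2 * Real.pi * η * ((v / V : ℝ) : ℂ) * I) =
      YY w V (ξ - 2 * Real.pi * η / V) := by
    intro η
    unfold YY
    congr 1
    funext v
    rw [mul_assoc, ← Complex.exp_add]
    congr 2
    push_cast
    ring
  simp_rw [e1] at i1 i2
  refine ⟨i1, ?_⟩
  rw [← i2]
  unfold Y2
  congr 1
  funext v
  push_cast
  ring

theorem X2_eq (hC : Cut χ Fh) (hwc : Continuous w)
    (h0 : ∀ v, 0 ≤ w v) (h1 : ∀ v, w v ≤ 1) {V : ℝ} (hV : 0 < V) (ξ : ℝ) :
    Integrable (fun η : ℝ => Fh η * XX w V (ξ + 2 * Real.pi * η / V)) ∧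
    X2 w χ V ξ = ∫ η : ℝ, Fh η * XX w V (ξ + 2 * Real.pi * η / V) := by
  obtain ⟨i1, i2⟩ := fub hC (XF_int hwc h0 h1 hV ξ) V
  have e1 : ∀ η : ℝ, ∫ v in Ioi (0 : ℝ), (((w v * Real.exp (-(v / V)) : ℝ) : ℂ) *
      cexp (ξ * v * I)) * cexp (2 * Real.pi * η * ((v / V : ℝ) : ℂ) * I) =
      XX w V (ξ + 2 * Real.pi * η / V) := by
    intro η
    unfold XX
    congr 1
    funext v
    rw [mul_assoc, ← Complex.exp_add]
    congr 2
    push_cast
    ring
  simp_rw [e1] at i1 i2
  refine ⟨i1, ?_⟩
  rw [← i2]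
  unfold X2
  congr 1
  funext v
  push_cast
  ring

theorem den_ne (η : ℝ) : (1 - 2 * Real.pi * η * I : ℂ) ≠ 0 := by
  intro h
  have := congrArg Complex.re h
  simp at this

theorem one_le_den (y : ℝ) : 1 ≤ ‖(1 - y * I : ℂ)‖ := by
  have h1 := Complex.abs_re_le_norm (1 - y * I : ℂ)
  simpa using h1

/-- The limit for the window. -/
theorem X2_tendsto (hC : Cut χ Fh) (hwc : Continuous w)
    (h0 : ∀ v, 0 ≤ w v) (h1 : ∀ v, w v ≤ 1)
    (hw : ∀ v : ℝ, HasSum (fun m : ℤ => a m * cexp (2 * Real.pi * m * α * v * I)) ((w v : ℝ) : ℂ))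
    (ha : Summable (fun m => ‖a m‖)) {ξ : ℝ}
    (hξ : ∀ m : ℤ, m ≠ 0 → ξ + 2 * Real.pi * m * α ≠ 0) :
    Tendsto (fun V : ℝ => X2 w χ V ξ / V) atTop
      (𝓝 ((if ξ = 0 then a 0 else 0) * (JJ χ 1 : ℝ))) := by
  have key : Tendsto (fun V : ℝ => ∫ η : ℝ, Fh η * XX w V (ξ + 2 * Real.pi * η / V) / V) atTop
      (𝓝 (∫ η : ℝ, Fh η * ((if ξ = 0 then a 0 else 0) * (1 / (1 - 2 * Real.pi * η * I))))) := by
    refine tendsto_integral_filter_of_dominated_convergence
      (fun η => ‖Fh η‖ * ∑' m, ‖a m‖) ?_ ?_ (hC.Fi.norm.mul_const _) ?_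
    · filter_upwards [eventually_gt_atTop (0 : ℝ)] with V hV
      have := (X2_eq hC hwc h0 h1 hV ξ).1.div_const (V : ℂ)
      exact this.aestronglyMeasurable
    · filter_upwards [eventually_gt_atTop (0 : ℝ)] with V hV
      refine Eventually.of_forall fun η => ?_
      rw [mul_div_assoc, norm_mul]
      refine mul_le_mul_of_nonneg_left ?_ (norm_nonneg _)
      rw [← (X_hasSum hw ha hV _).tsum_eq, ← tsum_div_const]
      refine tsum_of_norm_bounded ha.hasSum fun m => ?_
      set y : ℝ := ξ + 2 * Real.pi * η / V + 2 * Real.pi * m * α with hy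
      have e1 : a m * (1 / (((1 / V : ℝ) : ℂ) - (y : ℂ) * I)) / V =
          a m * (1 / (1 - ((V * y : ℝ) : ℂ) * I)) := by
        have hVc : (V : ℂ) ≠ 0 := by exact_mod_cast hV.ne'
        have e2 : (1 - ((V * y : ℝ) : ℂ) * I) = V * (((1 / V : ℝ) : ℂ) - (y : ℂ) * I) := by
          push_cast
          field_simp
        rw [e2]
        have e3 : (((1 / V : ℝ) : ℂ) - (y : ℂ) * I) ≠ 0 := by
          intro h
          rw [h, mul_zero] at e2
          have := one_le_den (V * y)
          rw [e2, norm_zero] at this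
          linarith
        field_simp
      rw [e1, norm_mul, norm_div, norm_one]
      have h3 := one_le_den (V * y)
      have h4 : 1 / ‖(1 - ((V * y : ℝ) : ℂ) * I)‖ ≤ 1 := by
        rw [div_le_one (by linarith)]
        exact h3
      calc ‖a m‖ * (1 / ‖(1 - ((V * y : ℝ) : ℂ) * I)‖) ≤ ‖a m‖ * 1 :=
            mul_le_mul_of_nonneg_left h4 (norm_nonneg _)
        _ = ‖a m‖ := mul_one _
    · refine Eventually.of_forall fun η => ?_
      have h5 : Tendsto (fun V : ℝ => ∑' m : ℤ, a m * (1 / (1 - ((V * (ξ + 2 * Real.pi * m * α) +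
          2 * Real.pi * η : ℝ) : ℂ) * I))) atTop
          (𝓝 (∑' m : ℤ, if m = 0 then ((if ξ = 0 then a 0 else 0) *
            (1 / (1 - 2 * Real.pi * η * I))) else 0)) := by
        refine tendsto_tsum_of_dominated_convergence ha (fun m => ?_) ?_
        · by_cases hx : ξ + 2 * Real.pi * m * α = 0
          · have hm : m = 0 := by
              by_contra hm
              exact hξ m hm hx
            subst hm
            have hξ0 : ξ = 0 := by simpa using hx
            rw [if_pos rfl, if_pos hξ0]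
            refine tendsto_const_nhds.congr fun V => ?_
            rw [hx]
            push_cast
            ring_nf
          · have hrhs : (if m = 0 then ((if ξ = 0 then a 0 else 0) *
                (1 / (1 - 2 * Real.pi * η * I))) else 0 : ℂ) = 0 := by
              split_ifs with hm hξ0
              · exfalso
                apply hx
                rw [hm, hξ0]
                simp
              · simp
              · rfl
            rw [hrhs]
            set x : ℝ := ξ + 2 * Real.pi * m * α with hxdef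
            have h6 : Tendsto (fun V : ℝ => ‖a m‖ * (|V * x + 2 * Real.pi * η|)⁻¹) atTop
                (𝓝 0) := by
              have h7 : Tendsto (fun V : ℝ => |V * x + 2 * Real.pi * η|) atTop atTop := by
                have h8 : Tendsto (fun V : ℝ => V * |x| - |2 * Real.pi * η|) atTop atTop :=
                  tendsto_atTop_add_const_right _ _
                    (tendsto_id.atTop_mul_const (abs_pos.2 hx))
                refine tendsto_atTop_mono' _ ?_ h8
                filter_upwards [eventually_gt_atTop (0 : ℝ)] with V hV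
                have h9 : |V * x| ≤ |V * x + 2 * Real.pi * η| + |2 * Real.pi * η| := by
                  have := abs_sub (V * x + 2 * Real.pi * η) (2 * Real.pi * η)
                  rwa [add_sub_cancel_right] at this
                rw [abs_mul, abs_of_pos hV] at h9
                linarith
              have := h7.inv_tendsto_atTop.const_mul ‖a m‖
              rwa [mul_zero] at this
            refine squeeze_zero_norm' ?_ h6
            filter_upwards [eventually_gt_atTop ((|2 * Real.pi * η| + 1) / |x|)] with V hV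
            rw [norm_mul, norm_div, norm_one, one_div]
            refine mul_le_mul_of_nonneg_left ?_ (norm_nonneg _)
            have hVx : |2 * Real.pi * η| + 1 < V * |x| := by
              rwa [div_lt_iff₀ (abs_pos.2 hx)] at hV
            have h10 : 0 < |V * x + 2 * Real.pi * η| := by
              have h9 : |V * x| ≤ |V * x + 2 * Real.pi * η| + |2 * Real.pi * η| := by
                have := abs_sub (V * x + 2 * Real.pi * η) (2 * Real.pi * η)
                rwa [add_sub_cancel_right] at this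
              have h11 : V * |x| ≤ |V * x| := by
                rw [abs_mul]
                exact mul_le_mul_of_nonneg_right (le_abs_self _) (abs_nonneg _)
              linarith
            refine inv_anti₀ h10 ?_
            have := Complex.abs_im_le_norm (1 - ((V * x + 2 * Real.pi * η : ℝ) : ℂ) * I)
            simpa only [Complex.sub_im, Complex.one_im, Complex.mul_im, Complex.ofReal_re,
              Complex.I_im, mul_one, Complex.ofReal_im, Complex.I_re, mul_zero, add_zero,
              zero_sub, abs_neg] using this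
        · refine Eventually.of_forall fun V m => ?_
          rw [norm_mul, norm_div, norm_one]
          have h3 := one_le_den (V * (ξ + 2 * Real.pi * m * α) + 2 * Real.pi * η)
          have h4 : 1 / ‖(1 - ((V * (ξ + 2 * Real.pi * m * α) + 2 * Real.pi * η : ℝ) : ℂ) * I)‖ ≤
              1 := by
            rw [div_le_one (by linarith)]
            exact h3
          calc _ ≤ ‖a m‖ * 1 := mul_le_mul_of_nonneg_left h4 (norm_nonneg _)
            _ = ‖a m‖ := mul_one _
      rw [tsum_ite_eq] at h5
      refine (h5.const_mul (Fh η)).congr' ?_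
      filter_upwards [eventually_gt_atTop (0 : ℝ)] with V hV
      rw [mul_div_assoc, ← (X_hasSum hw ha hV _).tsum_eq, ← tsum_div_const]
      congr 1
      refine tsum_congr fun m => ?_
      have hVc : (V : ℂ) ≠ 0 := by exact_mod_cast hV.ne'
      set y : ℝ := ξ + 2 * Real.pi * η / V + 2 * Real.pi * m * α with hy
      have e0 : V * (ξ + 2 * Real.pi * m * α) + 2 * Real.pi * η = V * y := by
        rw [hy]
        field_simp
        ring
      rw [e0]
      have e2 : (1 - ((V * y : ℝ) : ℂ) * I) = V * (((1 / V : ℝ) : ℂ) - (y : ℂ) * I) := by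
        push_cast
        field_simp
      have e3 : (((1 / V : ℝ) : ℂ) - (y : ℂ) * I) ≠ 0 := by
        intro h
        rw [h, mul_zero] at e2
        have := one_le_den (V * y)
        rw [e2, norm_zero] at this
        linarith
      rw [e2]
      field_simp
  have e1 : ∫ η : ℝ, Fh η * ((if ξ = 0 then a 0 else 0) * (1 / (1 - 2 * Real.pi * η * I))) =
      (if ξ = 0 then a 0 else 0) * (JJ χ 1 : ℝ) := by
    have h2 := (JJ_eq hC (n := 1) le_rfl).2
    simp only [pow_one] at h2
    rw [← h2, ← integral_const_mul]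
    congr 1
    funext η
    ring
  rw [e1] at key
  refine key.congr' ?_
  filter_upwards [eventually_gt_atTop (0 : ℝ)] with V hV
  rw [integral_div, (X2_eq hC hwc h0 h1 hV ξ).2]

end lims

end Pool.Agent.P8H97.GW
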