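import Pool.Agent.P8H97.GW.N3

/-!
# Project GW, the form with infinitely many `K`: the limit of the main transform
-/

set_option autoImplicit false

open MeasureTheory Filter Topology Set Complex FourierTransform

namespace Pool.Agent.P8H97.GW

/-- Factorisation at an ordinate. -/
theorem factor (hRH : RiemannHypothesis) {g : ℝ} (hg : g ∈ Ord) :
    ∃ (n : ℕ) (k : ℂ → ℂ), 1 ≤ n ∧ ContinuousAt k ⟨1 / 2, g⟩ ∧ k ⟨1 / 2, g⟩ ≠ 0 ∧
      (∀ᶠ s in 𝓝 (⟨1 / 2, g⟩ : ℂ), s * riemannZeta s = (s - ⟨1 / 2, g⟩) ^ n * k s) ∧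
      (n = 1 → k ⟨1 / 2, g⟩ = ⟨1 / 2, g⟩ * deriv riemannZeta ⟨1 / 2, g⟩) := by
  set ρ : ℂ := ⟨1 / 2, g⟩ with hρ
  have hne1 : ρ ≠ 1 := by
    intro h
    have := congrArg Complex.re h
    simp [hρ] at this
  have hζ : AnalyticAt ℂ riemannZeta ρ := by
    refine DifferentiableOn.analyticAt (s := {1}ᶜ) (fun s hs =>
      (differentiableAt_riemannZeta hs).differentiableWithinAt)
      (isOpen_compl_singleton.mem_nhds hne1)
  have hf : AnalyticAt ℂ (fun s : ℂ => s * riemannZeta s) ρ := analyticAt_id.mul hζ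
  have hnz : ¬ ∀ᶠ s in 𝓝 ρ, s * riemannZeta s = 0 := by
    intro h
    have h1 : Tendsto (fun V : ℝ => ρ + ((1 / V : ℝ) : ℂ)) atTop (𝓝 ρ) := by
      have h2 : Tendsto (fun V : ℝ => (1 / V : ℝ)) atTop (𝓝 0) := by
        simpa using tendsto_inv_atTop_zero
      have h3 := (Complex.continuous_ofReal.tendsto 0).comp h2
      have h4 := h3.const_add ρ
      simpa [Function.comp_def] using h4
    obtain ⟨V, hV1, hV2⟩ := ((h1.eventually h).and (eventually_gt_atTop (0 : ℝ))).exists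
    have h1V : (0 : ℝ) < 1 / V := by positivity
    have hre : (ρ + ((1 / V : ℝ) : ℂ)).re = 1 / 2 + 1 / V := by simp [hρ]
    rcases mul_eq_zero.1 hV1 with h5 | h5
    · rw [h5] at hre
      simp only [Complex.zero_re] at hre
      linarith
    · exact zeta_ne hRH (by rw [hre]; linarith) h5
  obtain ⟨n, k, hk, hk0, hev⟩ := hf.exists_eventuallyEq_pow_smul_nonzero_iff.2 hnz
  simp only [smul_eq_mul] at hev
  have h00 : ρ * riemannZeta ρ = 0 := by
    have : riemannZeta ρ = 0 := hg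
    rw [this, mul_zero]
  refine ⟨n, k, ?_, hk.continuousAt, hk0, hev, ?_⟩
  · by_contra hn
    have hn0 : n = 0 := by omega
    have h1 := hev.self_of_nhds
    rw [hn0, pow_zero, one_mul, h00] at h1
    exact hk0 h1.symm
  · intro hn1
    subst hn1
    have h1 : HasDerivAt (fun s : ℂ => s * riemannZeta s)
        (1 * riemannZeta ρ + ρ * deriv riemannZeta ρ) ρ :=
      (hasDerivAt_id ρ).mul hζ.differentiableAt.hasDerivAt
    have h2 : HasDerivAt (fun s : ℂ => (s - ρ) ^ 1 * k s)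
        ((1 * (ρ - ρ) ^ (1 - 1) * 1) * k ρ + (ρ - ρ) ^ 1 * deriv k ρ) ρ := by
      have h3 : HasDerivAt (fun s : ℂ => (s - ρ) ^ 1) (1 * (ρ - ρ) ^ (1 - 1) * 1) ρ := by
        have := ((hasDerivAt_id ρ).sub_const ρ).pow 1
        simpa using this
      exact h3.mul hk.differentiableAt.hasDerivAt
    have h4 := h1.congr_of_eventuallyEq (Filter.EventuallyEq.symm hev)
    have h5 := h4.unique h2
    have h6 : riemannZeta ρ = 0 := hg
    rw [h6] at h5
    simp at h5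
    exact h5.symm

section lims

variable {α : ℝ} {a : ℤ → ℂ} {w χ : ℝ → ℝ} {Fh : ℝ → ℂ}

theorem Y2_tendsto (hC : Cut χ Fh) (hL : S_LAP) (hLow : S_LOW2) (hRH : RiemannHypothesis)
    (hwc : Continuous w) (h0 : ∀ v, 0 ≤ w v) (h1 : ∀ v, w v ≤ 1)
    (hw : ∀ v : ℝ, HasSum (fun m : ℤ => a m * cexp (2 * Real.pi * m * α * v * I)) ((w v : ℝ) : ℂ))
    (ha : ∀ K : ℝ, Summable (fun m : ℤ => ‖a m‖ * Real.exp (K * |(m : ℝ)| ^ (1 / 3 : ℝ))))
    (hG : Gen α) {g : ℝ} (hg : g ∈ Ord) {n : ℕ} {k : ℂ → ℂ} (hn : 1 ≤ n)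
    (hkc : ContinuousAt k ⟨1 / 2, g⟩) (hk0 : k ⟨1 / 2, g⟩ ≠ 0)
    (hev : ∀ᶠ s in 𝓝 (⟨1 / 2, g⟩ : ℂ), s * riemannZeta s = (s - ⟨1 / 2, g⟩) ^ n * k s) :
    Tendsto (fun V : ℝ => Y2 w χ V g / V ^ n) atTop
      (𝓝 (a 0 * (k ⟨1 / 2, g⟩)⁻¹ * (JJ χ n : ℝ))) := by
  set ρ : ℂ := ⟨1 / 2, g⟩ with hρ
  have ha0 : Summable (fun m => ‖a m‖) := by
    have := ha 0
    simpa using this
  have hkpos : 0 < ‖k ρ‖ := norm_pos_iff.2 hk0
  -- the neighbourhood of the zero
  obtain ⟨r, hr, hfac⟩ : ∃ r : ℝ, 0 < r ∧ ∀ s : ℂ, ‖s - ρ‖ < r →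
      (‖k ρ‖ / 2) * ‖s - ρ‖ ^ n ≤ ‖s * riemannZeta s‖ := by
    have h2 : ∀ᶠ s in 𝓝 ρ, ‖k ρ‖ / 2 < ‖k s‖ :=
      hkc.norm.eventually (lt_mem_nhds (by linarith))
    obtain ⟨r, hr, hr2⟩ := Metric.eventually_nhds_iff.1 (h2.and hev)
    refine ⟨r, hr, fun s hs => ?_⟩
    obtain ⟨h3, h4⟩ := hr2 (by rwa [dist_eq_norm])
    rw [h4, norm_mul, norm_pow, mul_comm]
    exact mul_le_mul_of_nonneg_left h3.le (by positivity)
  obtain ⟨B₀, hB₀, hb0⟩ := uni0 hLow hRH hr (by positivity : 0 < ‖k ρ‖ / 2) hfac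
  obtain ⟨B₁, hB₁, hb1⟩ := uni hLow hRH hG hg
  set S : ℝ := ∑' m : ℤ, ‖a m‖ * Real.exp (B₁ * |(m : ℝ)| ^ (1 / 3 : ℝ)) with hS
  have hS0 : 0 ≤ S := tsum_nonneg fun m => by positivity
  -- the remainder
  have hrem : ∀ V : ℝ, 2 < V → ∀ η : ℝ, ‖YY w V (g - 2 * Real.pi * η / V) -
      a 0 * GG ⟨1 / 2 + 1 / V, g - 2 * Real.pi * η / V⟩‖ ≤ S * Real.exp (B₁ * Ly η ^ 4) := by
    intro V hV η
    have h2 := (Y_hasSum hL hRH hw ha0 hV (g - 2 * Real.pi * η / V)).update 0 0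
    have e0 : (0 : ℂ) - a 0 * GG ⟨1 / 2 + 1 / V, g - 2 * Real.pi * η / V -
        2 * Real.pi * ((0 : ℤ) : ℝ) * α⟩ + YY w V (g - 2 * Real.pi * η / V) =
        YY w V (g - 2 * Real.pi * η / V) -
          a 0 * GG ⟨1 / 2 + 1 / V, g - 2 * Real.pi * η / V⟩ := by
      simp
      ring
    rw [e0] at h2
    rw [← h2.tsum_eq]
    refine tsum_of_norm_bounded ((ha B₁).hasSum.mul_right _) fun m => ?_
    by_cases hm : m = 0
    · subst hm
      simp
      positivity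
    · rw [Function.update_of_ne hm, norm_mul, mul_assoc ‖a m‖]
      refine mul_le_mul_of_nonneg_left ?_ (norm_nonneg _)
      refine (hb1 V hV η m hm).trans (le_of_eq ?_)
      rw [← Real.exp_add]
      congr 1
      ring
  have hbd : ∀ V : ℝ, 2 < V → ∀ η : ℝ, ‖YY w V (g - 2 * Real.pi * η / V)‖ ≤
      (‖a 0‖ + S) * V ^ n * Real.exp ((B₀ + B₁) * Ly η ^ 4) := by
    intro V hV η
    have hV1 : 1 ≤ V := by linarith
    have hVn : 1 ≤ V ^ n := one_le_pow₀ hV1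
    have hL4 : 0 ≤ Ly η ^ 4 := pow_nonneg (by linarith [Ly_one η]) 4
    have e1 : Real.exp (B₀ * Ly η ^ 4) ≤ Real.exp ((B₀ + B₁) * Ly η ^ 4) :=
      Real.exp_le_exp.2 (mul_le_mul_of_nonneg_right (by linarith) hL4)
    have e2 : Real.exp (B₁ * Ly η ^ 4) ≤ Real.exp ((B₀ + B₁) * Ly η ^ 4) :=
      Real.exp_le_exp.2 (mul_le_mul_of_nonneg_right (by linarith) hL4)
    have h3 := hrem V hV η
    have h4 := hb0 V hV η
    set E : ℝ := Real.exp ((B₀ + B₁) * Ly η ^ 4) with hE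
    have hE0 : 0 < E := Real.exp_pos _
    have h5 : ‖a 0 * GG ⟨1 / 2 + 1 / V, g - 2 * Real.pi * η / V⟩‖ ≤ ‖a 0‖ * (V ^ n * E) := by
      rw [norm_mul]
      refine mul_le_mul_of_nonneg_left (h4.trans ?_) (norm_nonneg _)
      exact mul_le_mul_of_nonneg_left e1 (by positivity)
    have h6 : S * Real.exp (B₁ * Ly η ^ 4) ≤ S * (V ^ n * E) := by
      refine mul_le_mul_of_nonneg_left (e2.trans ?_) hS0
      exact le_mul_of_one_le_left hE0.le hVn
    calc ‖YY w V (g - 2 * Real.pi * η / V)‖ = ‖(YY w V (g - 2 * Real.pi * η / V) -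
          a 0 * GG ⟨1 / 2 + 1 / V, g - 2 * Real.pi * η / V⟩) +
          a 0 * GG ⟨1 / 2 + 1 / V, g - 2 * Real.pi * η / V⟩‖ := by rw [sub_add_cancel]
      _ ≤ _ := norm_add_le _ _
      _ ≤ S * (V ^ n * E) + ‖a 0‖ * (V ^ n * E) := add_le_add (h3.trans h6) h5
      _ = _ := by ring
  -- the limit
  have key : Tendsto (fun V : ℝ => ∫ η : ℝ, Fh η * YY w V (g - 2 * Real.pi * η / V) / V ^ n) atTop
      (𝓝 (∫ η : ℝ, Fh η * (a 0 * ((k ρ)⁻¹ * (1 / (1 - 2 * Real.pi * η * I) ^ n))))) := by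
    refine tendsto_integral_filter_of_dominated_convergence
      (fun η => (‖a 0‖ + S) * (‖Fh η‖ * Real.exp ((B₀ + B₁) * Ly η ^ 4))) ?_ ?_
      ((hC.Fint (B₀ + B₁)).const_mul _) ?_
    · filter_upwards [eventually_gt_atTop (2 : ℝ)] with V hV
      have := (Y2_eq hC hL hRH hwc h0 h1 hV g).1.div_const ((V : ℂ) ^ n)
      exact this.aestronglyMeasurable
    · filter_upwards [eventually_gt_atTop (2 : ℝ)] with V hV
      refine Eventually.of_forall fun η => ?_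
      have hV0 : 0 < V := by linarith
      rw [norm_div, norm_mul, norm_pow, Complex.norm_real, Real.norm_eq_abs, abs_of_pos hV0,
        div_le_iff₀ (by positivity)]
      calc ‖Fh η‖ * ‖YY w V (g - 2 * Real.pi * η / V)‖ ≤
            ‖Fh η‖ * ((‖a 0‖ + S) * V ^ n * Real.exp ((B₀ + B₁) * Ly η ^ 4)) :=
            mul_le_mul_of_nonneg_left (hbd V hV η) (norm_nonneg _)
        _ = _ := by ring
    · refine Eventually.of_forall fun η => ?_
      -- the remainder tends to zero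
      have hr1 : Tendsto (fun V : ℝ => (YY w V (g - 2 * Real.pi * η / V) -
          a 0 * GG ⟨1 / 2 + 1 / V, g - 2 * Real.pi * η / V⟩) / (V : ℂ) ^ n) atTop (𝓝 0) := by
        have h2 : Tendsto (fun V : ℝ => (S * Real.exp (B₁ * Ly η ^ 4)) * V⁻¹) atTop (𝓝 0) := by
          simpa using tendsto_inv_atTop_zero.const_mul (S * Real.exp (B₁ * Ly η ^ 4))
        refine squeeze_zero_norm' ?_ h2
        filter_upwards [eventually_gt_atTop (2 : ℝ)] with V hV
        have hV0 : 0 < V := by linarith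
        rw [norm_div, norm_pow, Complex.norm_real, Real.norm_eq_abs, abs_of_pos hV0,
          div_eq_mul_inv]
        have h3 : (V ^ n)⁻¹ ≤ V⁻¹ := inv_anti₀ hV0 (le_self_pow₀ (by linarith) (by omega))
        exact mul_le_mul (hrem V hV η) h3 (by positivity) (by positivity)
      -- the main term
      set u : ℂ := 1 - 2 * Real.pi * η * I with hu
      have hu0 : u ≠ 0 := den_ne η
      have hs : Tendsto (fun V : ℝ => ρ + u * ((1 / V : ℝ) : ℂ)) atTop (𝓝 ρ) := by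
        have h2 : Tendsto (fun V : ℝ => (1 / V : ℝ)) atTop (𝓝 0) := by
          simpa using tendsto_inv_atTop_zero
        have h3 := (Complex.continuous_ofReal.tendsto 0).comp h2
        have h4 := (h3.const_mul u).const_add ρ
        simpa [Function.comp_def] using h4
      have hmain : Tendsto (fun V : ℝ => GG ⟨1 / 2 + 1 / V, g - 2 * Real.pi * η / V⟩ /
          (V : ℂ) ^ n) atTop (𝓝 ((k ρ)⁻¹ * (1 / u ^ n))) := by
        have h2 : Tendsto (fun V : ℝ => (k (ρ + u * ((1 / V : ℝ) : ℂ)))⁻¹ * (1 / u ^ n)) atTop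
            (𝓝 ((k ρ)⁻¹ * (1 / u ^ n))) :=
          ((hkc.tendsto.comp hs).inv₀ hk0).mul_const _
        refine h2.congr' ?_
        filter_upwards [hs.eventually hev, eventually_gt_atTop (0 : ℝ)] with V hV hV0
        have e1 : (⟨1 / 2 + 1 / V, g - 2 * Real.pi * η / V⟩ : ℂ) = ρ + u * ((1 / V : ℝ) : ℂ) := by
          have e2 : ρ = ((1 / 2 : ℝ) : ℂ) + (g : ℂ) * I := by
            rw [hρ]
            apply Complex.ext <;> simp
          have e3 : (⟨1 / 2 + 1 / V, g - 2 * Real.pi * η / V⟩ : ℂ) =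
              ((1 / 2 + 1 / V : ℝ) : ℂ) + ((g - 2 * Real.pi * η / V : ℝ) : ℂ) * I := by
            apply Complex.ext <;> simp
          rw [e2, e3, hu]
          push_cast
          ring
        have hVc : (V : ℂ) ≠ 0 := by exact_mod_cast hV0.ne'
        unfold GG
        rw [e1, hV]
        have e4 : (ρ + u * ((1 / V : ℝ) : ℂ) - ρ) ^ n = u ^ n / (V : ℂ) ^ n := by
          rw [add_sub_cancel_left, ← div_pow]
          congr 1
          push_cast
          field_simp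
        rw [e4]
        have hVn : (V : ℂ) ^ n ≠ 0 := pow_ne_zero _ hVc
        rw [mul_inv, inv_div]
        field_simp
      have h4 := ((hr1.add (hmain.const_mul (a 0))).const_mul (Fh η))
      rw [zero_add] at h4
      refine h4.congr' ?_
      filter_upwards [eventually_gt_atTop (0 : ℝ)] with V hV0
      ring
  have e1 : ∫ η : ℝ, Fh η * (a 0 * ((k ρ)⁻¹ * (1 / (1 - 2 * Real.pi * η * I) ^ n))) =
      a 0 * (k ρ)⁻¹ * (JJ χ n : ℝ) := by
    rw [← (JJ_eq hC hn).2, ← integral_const_mul]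
    congr 1
    funext η
    ring
  rw [e1] at key
  refine key.congr' ?_
  filter_upwards [eventually_gt_atTop (2 : ℝ)] with V hV
  rw [integral_div, (Y2_eq hC hL hRH hwc h0 h1 hV g).2]

end lims

end Pool.Agent.P8H97.GW
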