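import Mathlib

/-!
# Project GW (MP_323ce2_nt): geometric windows for the weak Mertens hypothesis. Statements

`a = exp (1 / α)`, `b = exp δ`; the windows `[a ^ k, b a ^ k]` are `[k / α, k / α + δ]` in the
logarithmic scale.
-/

set_option autoImplicit false

open MeasureTheory Filter Topology Set

namespace Pool.Agent.P8H97.GW

/-- The Mertens function. -/
noncomputable def Mx (u : ℝ) : ℝ :=
  ∑ n ∈ Finset.Icc 1 ⌊u⌋₊, ((ArithmeticFunction.moebius n : ℤ) : ℝ)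

/-- `M(e^v)² e^{-v}` -/
noncomputable def ff (v : ℝ) : ℝ := Mx (Real.exp v) ^ 2 * Real.exp (-v)

/-- The ordinates of the zeros of `ζ` on the critical line. -/
def Ord : Set ℝ := {t : ℝ | riemannZeta (⟨1 / 2, t⟩ : ℂ) = 0}

/-- `1 / (s ζ(s))` -/
noncomputable def GG (s : ℂ) : ℂ := (s * riemannZeta s)⁻¹

/-- The nontrivial zeros. -/
def NT : Set ℂ := {s : ℂ | riemannZeta s = 0 ∧ 0 < s.re ∧ s.re < 1}

/-- The exponent `|m| ^ (1 / 4)`. -/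
noncomputable def q4 (m : ℤ) : ℝ := |(m : ℝ)| ^ (1 / 4 : ℝ)

/-- Generic frequencies: the ordinates are not close to each other modulo `2 π α`. -/
def Gen (α : ℝ) : Prop := ∀ γ₀ ∈ Ord, ∃ c : ℝ, 0 < c ∧ ∀ γ ∈ Ord, ∀ m : ℤ, m ≠ 0 →
  c * Real.exp (-q4 m) ≤ |γ₀ - γ - 2 * Real.pi * m * α|

/-- The bound on the geometric windows. -/
def Win (α δ : ℝ) : Prop := ∃ C : ℝ, ∀ K : ℕ, 1 ≤ K →
  ∑ k ∈ Finset.range K, ∫ v in (k / α)..(k / α + δ), ff v ≤ C * K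

/-- LAP: the Laplace transform under the Riemann hypothesis (without it for `Re s > 1`). -/
def S_LAP : Prop := RiemannHypothesis → ∀ s : ℂ, 1 / 2 < s.re → s ≠ 1 →
  Integrable (fun v : ℝ => ((Mx (Real.exp v) : ℝ) : ℂ) * Complex.exp (-(s * v))) ∧
  ∫ v : ℝ, ((Mx (Real.exp v) : ℝ) : ℂ) * Complex.exp (-(s * v)) = GG s

/-- LOW: a lower bound for `ζ` in terms of the distance to the zeros. -/
def S_LOW : Prop := ∃ K : ℝ, 0 < K ∧ (RiemannHypothesis → ∀ t σ d : ℝ, 1 / 2 < σ → σ < 1 →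
  0 < d → d ≤ 1 → (∀ γ ∈ Ord, d ≤ |t - γ|) →
  ‖GG (⟨σ, t⟩ : ℂ)‖ ≤ Real.exp (K * Real.log (|t| + 3) * (1 + Real.log (1 / d))))

/-- GEN: the exceptional frequencies have Hausdorff dimension zero. -/
def S_GEN : Prop := ∃ E : Set ℝ, dimH E = 0 ∧ ∀ α : ℝ, 0 < α → α ∉ E → Gen α

/-- BMP: a periodic bump with rapidly decreasing Fourier coefficients. -/
def S_BMP : Prop := ∀ α δ : ℝ, 0 < α → 0 < δ → δ ≤ 1 / α →
  ∃ (a : ℤ → ℂ) (w : ℝ → ℝ), Continuous w ∧ (∀ v, 0 ≤ w v) ∧ (∀ v, w v ≤ 1) ∧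
    (∀ v, w v ≠ 0 → ∃ k : ℤ, k / α < v ∧ v < k / α + δ) ∧
    (∀ v : ℝ, HasSum (fun m : ℤ => a m * Complex.exp (2 * Real.pi * m * α * v * Complex.I))
      ((w v : ℝ) : ℂ)) ∧
    (∃ a₀ : ℝ, 0 < a₀ ∧ a 0 = (a₀ : ℂ)) ∧
    ∀ K : ℝ, Summable (fun m : ℤ => ‖a m‖ * Real.exp (K * |(m : ℝ)| ^ (1 / 3 : ℝ)))

/-- RHW: the bound on the windows implies the Riemann hypothesis. -/
def S_RHW : Prop := ∀ α δ : ℝ, 0 < α → 0 < δ → Win α δ → RiemannHypothesis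

/-- The Riemann hypothesis holds, all nontrivial zeros are simple, `∑ 1 / |ρ ζ'(ρ)|²` converges. -/
def ZC : Prop := (∀ ρ ∈ NT, ρ.re = 1 / 2 ∧ deriv riemannZeta ρ ≠ 0) ∧
  Summable (fun ρ : NT => 1 / ‖(ρ : ℂ) * deriv riemannZeta ρ‖ ^ 2)

/-- LIM: the limit under the weak Mertens hypothesis. -/
def S_LIM : Prop := ZC → ∀ α δ : ℝ, 0 < α → 0 < δ → δ ≤ 1 / α →
  (∀ γ ∈ Ord, ∀ γ' ∈ Ord, ∀ m : ℤ, m ≠ 0 → γ - γ' ≠ 2 * Real.pi * m * α) →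
  Tendsto (fun K : ℕ => (∑ k ∈ Finset.range K, ∫ v in (k / α)..(k / α + δ), ff v) / K) atTop
    (𝓝 (δ * ∑' ρ : NT, 1 / ‖(ρ : ℂ) * deriv riemannZeta ρ‖ ^ 2))

/-- MAIN: the bound on generic windows implies the condition on the zeros. -/
def S_MAIN : Prop := ∀ α δ : ℝ, 0 < α → 0 < δ → δ ≤ 1 / α → Gen α → Win α δ → ZC

end Pool.Agent.P8H97.GW
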